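import Pool.Agent.Helper76.LW.Crit
import Pool.Graph.R_pool_sql_team_seeded_843ab51a.V11271.LI.Zeta

set_option autoImplicit false

/-!
# The zeros of zeta as a configuration
-/

namespace Pool.Agent.Helper76.LW

open Complex Filter Topology
open scoped ComplexConjugate
open Pool.Agent.V11271.LI
open H353 (FF_conj mu mu_conj)

/-- summability of the counting weights -/
lemma sum2_zeta : Summable fun ρ : Zr => mm ρ / (1 + |(zz ρ).im|) ^ 2 := by
  have h := cfg_zeta.sum 2 (by norm_num)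
  refine h.congr fun ρ => ?_
  norm_cast

lemma finite_zeta (R : ℝ) (hR : 0 ≤ R) : {ρ : Zr | |(zz ρ).im| ≤ R}.Finite := by
  have h := sum2_zeta.tendsto_cofinite_zero
  have h2 : ∀ᶠ i in cofinite, mm i / (1 + |(zz i).im|) ^ 2 < 1 / (1 + R) ^ 2 :=
    h.eventually_lt_const (by positivity)
  rw [Filter.eventually_cofinite] at h2
  refine h2.subset fun i hi => ?_
  simp only [Set.mem_ofPred_eq, not_lt] at hi ⊢
  have h1 := mm_one_le i
  have h0 := abs_nonneg (zz i).im
  gcongr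

/-- complex conjugation on the zeros -/
noncomputable def conj0 (ρ : Zr) : Zr := ⟨conj (ρ : ℂ), by
  have h1 : H353.FF (conj (ρ : ℂ)) = 0 := by
    rw [FF_conj, FF_zero ρ, map_zero]
  have h2 : conj (ρ : ℂ) ≠ 1 := by
    intro h
    have := congrArg Complex.im h
    simp at this
    exact ρ.im_ne this
  rw [FF_of_ne h2] at h1
  refine ⟨?_, ?_, ?_⟩
  · exact (mul_eq_zero.mp h1).resolve_left (sub_ne_zero.mpr h2)
  · simpa using ρ.2.2.1
  · simpa using ρ.2.2.2⟩

lemma conj0_conj0 (ρ : Zr) : conj0 (conj0 ρ) = ρ := by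
  apply Subtype.ext
  simp [conj0]

/-- complex conjugation as an equivalence -/
noncomputable def conjE : Zr ≃ Zr := ⟨conj0, conj0, conj0_conj0, conj0_conj0⟩

lemma zz_conj (ρ : Zr) : zz (conjE ρ) = conj (zz ρ) := by
  show conj (ρ : ℂ) - 1 / 2 = conj ((ρ : ℂ) - 1 / 2)
  rw [map_sub, conj_half]

lemma mm_conj (ρ : Zr) : mm (conjE ρ) = mm ρ := by
  rw [mm_eq, mm_eq]
  show ((mu (conj (ρ : ℂ)) : ℕ) : ℝ) = _
  rw [mu_conj]

/-- the zeros of zeta form a configuration -/
theorem cf_zeta : Cf zz mm where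
  one_le := mm_one_le
  re_lt ρ := by
    rw [zz_re, abs_lt]
    constructor <;> linarith [ρ.2.2.1, ρ.2.2.2]
  sum2 := sum2_zeta
  refl := ⟨reflE, zz_refl, mm_refl⟩
  cj := ⟨conjE, zz_conj, mm_conj⟩
  low := by
    have hne : ∀ ρ : Zr, 0 < ‖1 / 2 - zz ρ‖ := by
      intro ρ
      rw [norm_pos_iff]
      unfold zz
      intro h
      apply ρ.ne_one
      linear_combination -h
    have hfin := finite_zeta 1 zero_le_one
    obtain ⟨κ, hκ0, hκ⟩ : ∃ κ : ℝ, 0 < κ ∧ ∀ ρ ∈ hfin.toFinset, κ ≤ ‖1 / 2 - zz ρ‖ := by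
      rcases hfin.toFinset.eq_empty_or_nonempty with he | he
      · refine ⟨1, one_pos, fun ρ hρ => ?_⟩
        rw [he] at hρ
        exact absurd hρ (Finset.notMem_empty _)
      · obtain ⟨ρ0, h0, h1⟩ := Finset.exists_min_image hfin.toFinset (fun ρ => ‖1 / 2 - zz ρ‖) he
        exact ⟨_, hne ρ0, h1⟩
    refine ⟨min κ 1, by positivity, fun ρ => ?_⟩
    by_cases hρ : |(zz ρ).im| ≤ 1
    · exact (min_le_left _ _).trans (hκ ρ (by rw [Set.Finite.mem_toFinset]; exact hρ))
    · refine (min_le_right _ _).trans ?_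
      push Not at hρ
      have := Complex.abs_im_le_norm (1 / 2 - zz ρ)
      have h2 : (1 / 2 - zz ρ).im = -(zz ρ).im := by simp
      rw [h2, abs_neg] at this
      linarith
  loc := loc_zeta

end Pool.Agent.Helper76.LW
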