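import Pool.Agent.Helper76.LW.Step

set_option autoImplicit false

/-!
# The effective Li-Weil criterion: the far zeros
-/

namespace Pool.Agent.Helper76.LW

open Complex Filter Topology Polynomial
open scoped ComplexConjugate

variable {ι : Type*} {u : ι → ℂ} {m : ι → ℝ}

lemma num1 {r : ℝ} (hr : 16 ≤ r) {M : ℕ} (hM : 2 ≤ M) :
    r ^ 4 * (3 * r) ^ (2 * M) * (2 / r) ^ (8 * M) ≤ Real.exp (-(3 * M)) := by
  have hr0 : 0 < r := by linarith
  have e1 : (3 * r) ^ (2 * M) * (2 / r) ^ (8 * M) = (2304 / r ^ 6) ^ M := by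
    rw [pow_mul, pow_mul, ← mul_pow]
    congr 1
    field_simp
    ring
  have h1 : r ^ 4 ≤ (r ^ 2) ^ M := by
    rw [← pow_mul]
    exact pow_le_pow_right₀ (by linarith) (by omega)
  have h2 : 2304 / r ^ 4 ≤ Real.exp (-3) := by
    rw [Real.exp_neg, div_le_iff₀ (by positivity), ← div_eq_inv_mul, le_div_iff₀ (Real.exp_pos _)]
    have h3 : Real.exp 3 ≤ 28 := by
      have h4 : Real.exp 3 = Real.exp 1 ^ 3 := by
        rw [← Real.exp_nat_mul]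
        norm_num
      rw [h4]
      have h5 := Real.exp_one_lt_d9
      calc Real.exp 1 ^ 3 ≤ 2.7182818286 ^ 3 := by gcongr
        _ ≤ 28 := by norm_num
    have h6 : (16 : ℝ) ^ 4 ≤ r ^ 4 := by gcongr
    calc 2304 * Real.exp 3 ≤ 2304 * 28 := by gcongr
      _ ≤ 16 ^ 4 := by norm_num
      _ ≤ r ^ 4 := h6
  calc r ^ 4 * (3 * r) ^ (2 * M) * (2 / r) ^ (8 * M) = r ^ 4 * ((3 * r) ^ (2 * M) * (2 / r) ^ (8 * M)) := by ring
    _ ≤ (r ^ 2) ^ M * (2304 / r ^ 6) ^ M := by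
        rw [e1]
        gcongr
    _ = (2304 / r ^ 4) ^ M := by
        rw [← mul_pow]
        congr 1
        field_simp
    _ ≤ (Real.exp (-3)) ^ M := by gcongr
    _ = Real.exp (-(3 * M)) := by
        rw [← Real.exp_nat_mul]
        congr 1
        ring

/-- the numerical inequality for the tail -/
lemma num2 {T Y : ℝ} (hT : 2 ≤ T) (hY : 16 * T ≤ Y) {s M : ℕ} (hM : 2 ≤ M) (hs : s ≤ M) :
    (3 * Y) ^ 2 * (3 * Y) ^ (2 * s) / Y ^ (8 * M) * (1 + Y) ^ 2 ≤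
      36 * T ^ 4 * Real.exp (-(3 * M)) * (T ^ (2 * s) / (1 + T) ^ (8 * M)) := by
  have hT0 : 0 < T := by linarith
  have hY0 : 0 < Y := by linarith
  set r := Y / T with hr
  have hYr : Y = r * T := by rw [hr]; field_simp
  have hr16 : 16 ≤ r := by rw [hr, le_div_iff₀ hT0]; exact hY
  have hr0 : 0 < r := by linarith
  have h1 := num1 hr16 hM
  have h2 : (1 + Y) ^ 2 ≤ 4 * Y ^ 2 := by nlinarith
  have h3 : (3 * r) ^ (2 * s) ≤ (3 * r) ^ (2 * M) := pow_le_pow_right₀ (by linarith) (by omega)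
  have h4 : ((1 + T) / Y) ^ (8 * M) ≤ (2 / r) ^ (8 * M) := by
    apply pow_le_pow_left₀ (by positivity)
    rw [div_le_div_iff₀ hY0 hr0, hYr]
    nlinarith
  have e1 : (3 * Y) ^ 2 * (3 * Y) ^ (2 * s) / Y ^ (8 * M) * (1 + Y) ^ 2 =
      (9 * Y ^ 2 * (1 + Y) ^ 2) * (3 * r) ^ (2 * s) * ((1 + T) / Y) ^ (8 * M) *
        (T ^ (2 * s) / (1 + T) ^ (8 * M)) := by
    have e2 : (3 * Y) ^ (2 * s) = (3 * r) ^ (2 * s) * T ^ (2 * s) := by
      rw [← mul_pow, hYr]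
      ring_nf
    have h5 : (1 + T) ^ (8 * M) ≠ 0 := by positivity
    have h6 : Y ^ (8 * M) ≠ 0 := by positivity
    rw [e2, div_pow]
    field_simp
    ring
  rw [e1]
  have h5 : 9 * Y ^ 2 * (1 + Y) ^ 2 ≤ 36 * T ^ 4 * r ^ 4 := by
    calc 9 * Y ^ 2 * (1 + Y) ^ 2 ≤ 9 * Y ^ 2 * (4 * Y ^ 2) := by gcongr
      _ = 36 * T ^ 4 * r ^ 4 := by rw [hYr]; ring
  calc (9 * Y ^ 2 * (1 + Y) ^ 2) * (3 * r) ^ (2 * s) * ((1 + T) / Y) ^ (8 * M) *
        (T ^ (2 * s) / (1 + T) ^ (8 * M)) ≤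
      (36 * T ^ 4 * r ^ 4) * (3 * r) ^ (2 * M) * (2 / r) ^ (8 * M) *
        (T ^ (2 * s) / (1 + T) ^ (8 * M)) := by gcongr
    _ = 36 * T ^ 4 * (r ^ 4 * (3 * r) ^ (2 * M) * (2 / r) ^ (8 * M)) *
        (T ^ (2 * s) / (1 + T) ^ (8 * M)) := by ring
    _ ≤ 36 * T ^ 4 * Real.exp (-(3 * M)) * (T ^ (2 * s) / (1 + T) ^ (8 * M)) := by gcongr

lemma norm_sub_le_three {v w : ℂ} (hv : |v.re| < 1 / 2) (hw : |w.re| < 1 / 2) {T : ℝ} (hT : 2 ≤ T)
    (hvT : 16 * T ≤ |v.im|) (hwT : |w.im| ≤ 16 * T) : ‖v - w‖ ≤ 3 * |v.im| := by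
  have h1 := norm_le_half_add v hv
  have h2 := norm_le_half_add w hw
  calc ‖v - w‖ ≤ ‖v‖ + ‖w‖ := norm_sub_le _ _
    _ ≤ 3 * |v.im| := by linarith

/-- the terms of the far zeros are small -/
lemma tail_bound {T h E : ℝ} {M D : ℕ} (hT : 2 ≤ T) (hD : D + 1 = 4 * M) (hM : 2 ≤ M) {α p : ℂ}
    (hpT : |p.im| ≤ T) (hpre : |p.re| < 1 / 2) (hh : 0 < h) (hα : ‖α‖ = 1) (S : Finset ι)
    (hre : ∀ i, |(u i).re| < 1 / 2) (hS : ∀ i ∈ S, |(u i).im| ≤ 16 * T) (hcard : S.card ≤ M)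
    (P1 : T ^ S.card * Real.exp (-E) ≤ ∏ i ∈ S, ‖p - u i‖)
    (P2 : T ^ S.card * Real.exp (-E) ≤ ∏ i ∈ S, ‖-conj p - u i‖) {v : ℂ} (hv : |v.re| < 1 / 2)
    (hvT : 16 * T ≤ |v.im|) :
    ‖G D (lin α p h * QQ u S) v‖ ≤
      ‖(∏ i ∈ S, (p - u i)) * conj (∏ i ∈ S, (-conj p - u i)) / (1 / 4 - p ^ 2) ^ (D + 1)‖ *
        (36 * T ^ 4 * Real.exp (2 * E - 3 * M) / h ^ 2) * (1 / (1 + |v.im|) ^ 2) := by
  set Y := |v.im| with hY
  have hT0 : 0 < T := by linarith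
  have hY0 : 0 < Y := by linarith
  have hlinv : ∀ w : ℂ, |w.re| < 1 / 2 → |w.im| = Y → ‖(lin α p h).eval w‖ ≤ 3 * Y / h := by
    intro w hw hwY
    have h1 := norm_le_half_add w hw
    have h2 := norm_le_half_add p hpre
    rw [hwY] at h1
    refine (lin_norm_le hh hα (Y := 3 / 2 * Y) (by linarith) (by linarith)).trans (le_of_eq ?_)
    ring
  have hQ : ∀ w : ℂ, |w.re| < 1 / 2 → |w.im| = Y → ‖(QQ u S).eval w‖ ≤ (3 * Y) ^ S.card := by
    intro w hw hwY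
    rw [QQ_eval, norm_prod]
    calc ∏ i ∈ S, ‖w - u i‖ ≤ ∏ _i ∈ S, (3 * Y) := by
          refine Finset.prod_le_prod (fun i _ => norm_nonneg _) fun i hi => ?_
          have := norm_sub_le_three hw (hre i) hT (by rw [hwY]; exact hvT) (hS i hi)
          rwa [hwY] at this
      _ = (3 * Y) ^ S.card := by rw [Finset.prod_const]
  have hcr : |(-conj v).re| < 1 / 2 := by simpa using hv
  have hci : |(-conj v).im| = Y := by simp [hY]
  have hGv : ‖G D (lin α p h * QQ u S) v‖ ≤ (3 * Y) ^ 2 * (3 * Y) ^ (2 * S.card) / Y ^ (8 * M) / h ^ 2 := by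
    unfold G
    rw [norm_div, norm_mul, Complex.norm_conj, norm_pow, eval_mul, eval_mul, norm_mul, norm_mul]
    have h1 := hlinv v hv rfl
    have h2 := hlinv (-conj v) hcr hci
    have h3 := hQ v hv rfl
    have h4 := hQ (-conj v) hcr hci
    have h5 := norm_quarter_ge_im v
    have h6 : Y ^ (8 * M) ≤ ‖(1 : ℂ) / 4 - v ^ 2‖ ^ (D + 1) := by
      rw [hD, show 8 * M = 2 * (4 * M) by ring, pow_mul]
      gcongr
    calc ‖(lin α p h).eval v‖ * ‖(QQ u S).eval v‖ * (‖(lin α p h).eval (-conj v)‖ * ‖(QQ u S).eval (-conj v)‖) /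
          ‖(1 : ℂ) / 4 - v ^ 2‖ ^ (D + 1) ≤
        (3 * Y / h) * (3 * Y) ^ S.card * ((3 * Y / h) * (3 * Y) ^ S.card) / Y ^ (8 * M) := by gcongr
      _ = _ := by
        rw [two_mul S.card, pow_add]
        field_simp
  have hV : T ^ (2 * S.card) / (1 + T) ^ (8 * M) * Real.exp (-(2 * E)) ≤
      ‖(∏ i ∈ S, (p - u i)) * conj (∏ i ∈ S, (-conj p - u i)) / (1 / 4 - p ^ 2) ^ (D + 1)‖ := by
    rw [norm_div, norm_mul, Complex.norm_conj, norm_prod, norm_prod, norm_pow]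
    have h3 : 0 < ‖(1 : ℂ) / 4 - p ^ 2‖ := by
      rw [norm_pos_iff, quarter_sub]
      have hp := abs_lt.mp hpre
      apply mul_ne_zero
      · intro h0
        have := congrArg Complex.re h0
        simp at this
        linarith [hp.2]
      · intro h0
        have := congrArg Complex.re h0
        simp at this
        linarith [hp.1]
    have h4 : ‖(1 : ℂ) / 4 - p ^ 2‖ ^ (D + 1) ≤ (1 + T) ^ (8 * M) := by
      rw [hD, show (1 + T) ^ (8 * M) = ((1 + T) ^ 2) ^ (4 * M) by rw [← pow_mul]; congr 1; ring]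
      have h5 := norm_quarter_le p hpre
      have h6 : (1 + |p.im|) ^ 2 ≤ (1 + T) ^ 2 := by gcongr
      exact pow_le_pow_left₀ (norm_nonneg _) (h5.trans h6) _
    calc T ^ (2 * S.card) / (1 + T) ^ (8 * M) * Real.exp (-(2 * E)) =
          (T ^ S.card * Real.exp (-E)) * (T ^ S.card * Real.exp (-E)) / (1 + T) ^ (8 * M) := by
          rw [two_mul S.card, pow_add, two_mul, neg_add, Real.exp_add]
          ring
      _ ≤ (∏ i ∈ S, ‖p - u i‖) * (∏ i ∈ S, ‖-conj p - u i‖) / ‖(1 : ℂ) / 4 - p ^ 2‖ ^ (D + 1) := by gcongr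
  have h1 := num2 hT hvT hM hcard
  have hYY : (0:ℝ) < (1 + Y) ^ 2 := by positivity
  have h2 : (3 * Y) ^ 2 * (3 * Y) ^ (2 * S.card) / Y ^ (8 * M) ≤
      36 * T ^ 4 * Real.exp (-(3 * M)) * (T ^ (2 * S.card) / (1 + T) ^ (8 * M)) / (1 + Y) ^ 2 := by
    rwa [le_div_iff₀ hYY]
  calc ‖G D (lin α p h * QQ u S) v‖ ≤ (3 * Y) ^ 2 * (3 * Y) ^ (2 * S.card) / Y ^ (8 * M) / h ^ 2 := hGv
    _ ≤ (36 * T ^ 4 * Real.exp (-(3 * M)) * (T ^ (2 * S.card) / (1 + T) ^ (8 * M)) / (1 + Y) ^ 2) / h ^ 2 := by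
        gcongr
    _ = (T ^ (2 * S.card) / (1 + T) ^ (8 * M) * Real.exp (-(2 * E))) *
        (36 * T ^ 4 * Real.exp (2 * E - 3 * M) / h ^ 2) * (1 / (1 + Y) ^ 2) := by
        have : Real.exp (-(3 * M)) = Real.exp (-(2 * E)) * Real.exp (2 * E - 3 * M) := by
          rw [← Real.exp_add]
          congr 1
          ring
        rw [this]
        ring
    _ ≤ _ := by gcongr

end Pool.Agent.Helper76.LW
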