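import Pool.Agent.Helper76.LW.Tail

set_option autoImplicit false

/-!
# The effective Li-Weil criterion: the form takes a negative value
-/

namespace Pool.Agent.Helper76.LW

open Complex Filter Topology Polynomial
open scoped ComplexConjugate

variable {ι : Type*} {u : ι → ℂ} {m : ι → ℝ}

/-- the exponent -/
noncomputable def EE (T b : ℝ) : ℝ := 4 * b * (Real.log T + 12 * b * Real.log T + T + T)

lemma quarter_ne {v : ℂ} (hv : |v.re| < 1 / 2) : (1 : ℂ) / 4 - v ^ 2 ≠ 0 := by
  rw [quarter_sub]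
  have hp := abs_lt.mp hv
  apply mul_ne_zero
  · intro h0
    have := congrArg Complex.re h0
    simp at this
    linarith [hp.2]
  · intro h0
    have := congrArg Complex.re h0
    simp at this
    linarith [hp.1]

lemma Cf.low' (C : Cf u m) {κ : ℝ} (h : ∀ i, κ ≤ ‖1 / 2 - u i‖) (i : ι) : κ ≤ ‖1 / 2 + u i‖ := by
  obtain ⟨σ, h1, -⟩ := C.refl
  rw [norm_half_add, ← h1]
  exact h _

lemma Cf.quarter_ge (C : Cf u m) {κ : ℝ} (hκ : 0 < κ) (h : ∀ i, κ ≤ ‖1 / 2 - u i‖) (i : ι) :
    κ ^ 2 ≤ ‖1 / 4 - u i ^ 2‖ := by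
  rw [quarter_sub, norm_mul, sq]
  have h1 := h i
  have h2 := C.low' h i
  gcongr

/-- crude bound for the terms of the form -/
lemma Cf.summable_G (C : Cf u m) {T K : ℝ} (D : ℕ) (R : ℂ[X])
    (hK : ∀ i, T < |(u i).im| → ‖G D R (u i)‖ ≤ K * (1 / (1 + |(u i).im|) ^ 2)) :
    Summable fun i => m i * (G D R (u i)).re := by
  refine Summable.of_norm_bounded_eventually (C.sum2.mul_left K) ?_
  rw [Filter.eventually_cofinite]
  refine (C.finite T).subset fun i hi => ?_
  simp only [Set.mem_ofPred_eq, not_le] at hi ⊢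
  by_contra hc
  push Not at hc
  have h1 := hK i hc
  have h2 := C.m_nonneg i
  have h3 : ‖m i * (G D R (u i)).re‖ ≤ K * (m i / (1 + |(u i).im|) ^ 2) := by
    rw [norm_mul, Real.norm_of_nonneg h2]
    calc m i * ‖(G D R (u i)).re‖ ≤ m i * (K * (1 / (1 + |(u i).im|) ^ 2)) := by
          gcongr
          exact (Complex.abs_re_le_norm _).trans h1
      _ = _ := by ring
  linarith

theorem neg_step (C : Cf u m) {T b κ : ℝ} {M D : ℕ} (huc : UC u T b) (hb : 0 ≤ b) (hT : 2 ≤ T) (hκ : 0 < κ)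
    (hlow : ∀ i, κ ≤ ‖1 / 2 - u i‖) (hD : D + 1 = 4 * M) (hM : 2 ≤ M) (N1 : 4 * b * (16 * T + 1) ≤ M)
    (N2 : (2 * M + 2) * (T ^ 3)⁻¹ + 4 * M * ((1 + T) / κ ^ 2 * (T ^ 3)⁻¹) ≤ 1 / 4)
    (N3 : 36 * T ^ 4 * Real.exp (2 * T + 2 * EE T b - 3 * M) * (∑' i, m i / (1 + |(u i).im|) ^ 2) < 1)
    (i0 : ι) (hy : |(u i0).im| ≤ T) (hh : Real.exp (-T) < (u i0).re) :
    ∃ R : ℂ[X], R.natDegree ≤ D ∧ ∑' i, m i * (G D R (u i)).re < 0 := by
  classical
  set p := u i0 with hp
  set h := p.re with hhdef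
  have hT0 : 0 < T := by linarith
  have hh0 : 0 < h := (Real.exp_pos _).trans hh
  have hpre : |p.re| < 1 / 2 := C.re_lt i0
  have hh1 : h < 1 / 2 := (abs_lt.mp hpre).2
  set η := (T ^ 3)⁻¹ with hη
  have hη0 : 0 < η := by positivity
  have hη1 : η ≤ 1 := by
    rw [hη]
    apply inv_le_one_of_one_le₀
    exact one_le_pow₀ (by linarith)
  obtain ⟨k, hk, hann⟩ := huc.scale hT p hy hh0 (by linarith) hη0 hη1 (C.finite _)
  set ro := η ^ k * h with hro
  have hro0 : 0 < ro := by positivity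
  have hroh : ro ≤ h := by
    rw [hro]
    exact mul_le_of_le_one_left hh0.le (pow_le_one₀ hη0.le hη1)
  have hann' : ∀ i, ‖u i - p‖ ≤ ro → ‖u i - p‖ ≤ η * ro := by
    intro i hi
    have := hann i hi
    rw [hro, ← mul_assoc, ← pow_succ']
    exact this
  obtain ⟨σ, hσu, hσm⟩ := C.refl
  set S : Finset ι := (C.finite (16 * T)).toFinset.filter
    (fun i => ro < ‖u i - p‖ ∧ ro < ‖u i - (-conj p)‖) with hS
  have hSmem : ∀ i, i ∈ S ↔ |(u i).im| ≤ 16 * T ∧ ro < ‖u i - p‖ ∧ ro < ‖u i - (-conj p)‖ := by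
    intro i
    rw [hS, Finset.mem_filter, Set.Finite.mem_toFinset]
    rfl
  have hS16 : ∀ i ∈ S, |(u i).im| ≤ 16 * T := fun i hi => ((hSmem i).mp hi).1
  have hcard : S.card ≤ M := by
    have := (huc.card_le hb hT S hS16).trans N1
    exact_mod_cast this
  -- lower bounds for the products
  set E := 4 * b * (Real.log (T / ro) + T) with hE
  have hroT : ro ≤ T := by linarith
  have P1 : T ^ S.card * Real.exp (-E) ≤ ∏ i ∈ S, ‖p - u i‖ := by
    refine huc.prod_ge hb hT hy hro0 hroT (fun i => ‖p - u i‖) S fun i hi => ?_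
    obtain ⟨h1, h2, -⟩ := (hSmem i).mp hi
    refine ⟨h1, ?_, ?_⟩
    · show ro ≤ ‖p - u i‖
      rw [norm_sub_rev]
      exact h2.le
    · show |(u i).im - p.im| ≤ ‖p - u i‖
      rw [norm_sub_rev, ← Complex.sub_im]
      exact Complex.abs_im_le_norm _
  have P2 : T ^ S.card * Real.exp (-E) ≤ ∏ i ∈ S, ‖-conj p - u i‖ := by
    refine huc.prod_ge hb hT hy hro0 hroT (fun i => ‖-conj p - u i‖) S fun i hi => ?_
    obtain ⟨h1, -, h2⟩ := (hSmem i).mp hi
    refine ⟨h1, ?_, ?_⟩
    · show ro ≤ ‖-conj p - u i‖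
      rw [norm_sub_rev]
      exact h2.le
    · show |(u i).im - p.im| ≤ ‖-conj p - u i‖
      rw [norm_sub_rev]
      have h3 : (u i - -conj p).im = (u i).im - p.im := by
        simp
        ring
      rw [← h3]
      exact Complex.abs_im_le_norm _
  -- nonvanishing
  have hQ1 : ∏ i ∈ S, (p - u i) ≠ 0 := by
    rw [← norm_pos_iff, norm_prod]
    exact lt_of_lt_of_le (by positivity) P1
  have hQ2 : ∏ i ∈ S, (-conj p - u i) ≠ 0 := by
    rw [← norm_pos_iff, norm_prod]
    exact lt_of_lt_of_le (by positivity) P2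
  have hq := quarter_ne hpre
  set V : ℂ := (∏ i ∈ S, (p - u i)) * conj (∏ i ∈ S, (-conj p - u i)) / (1 / 4 - p ^ 2) ^ (D + 1) with hV
  have hV0 : V ≠ 0 := by
    rw [hV]
    refine div_ne_zero (mul_ne_zero hQ1 ?_) (pow_ne_zero _ hq)
    rwa [Ne, map_eq_zero]
  have hVn : 0 < ‖V‖ := norm_pos_iff.mpr hV0
  obtain ⟨α, hα, hαV⟩ := exists_unit hV0
  have hα0 : α ≠ 0 := by
    intro h0
    rw [h0] at hα
    simp at hα
  refine ⟨lin α p h * QQ u S, ?_, ?_⟩
  · refine natDegree_mul_le.trans ?_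
    have h1 := lin_natDegree α p h
    rw [QQ_natDegree]
    omega
  have hGp : G D (lin α p h * QQ u S) p = -(‖V‖ : ℂ) := by
    rw [← hαV, hV]
    unfold G
    rw [eval_mul, eval_mul, QQ_eval, QQ_eval, lin_p hh0 rfl, lin_p' hh0 rfl, one_mul]
    ring
  -- near the zero `p`
  have hnear : ∀ i, ‖u i - p‖ ≤ ro → (G D (lin α p h * QQ u S) (u i)).re ≤ 0 := by
    intro i hi
    have hi' := hann' i hi
    have hqi := quarter_ne (C.re_lt i)
    rw [G_ratio hh0 rfl hα0 S hQ1 hQ2 hq hqi, hGp]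
    have hηh : ‖u i - p‖ ≤ η * h := hi'.trans (by gcongr)
    obtain ⟨n1, n2⟩ := lin_near hh0 rfl hα hηh
    have n3 : Near (∏ j ∈ S, ((u i - u j) / (p - u j))) (S.card * η) := by
      refine Near.prod S _ fun j hj => Near.of_le ?_
      have h2 : ro < ‖p - u j‖ := by
        rw [norm_sub_rev]
        exact ((hSmem j).mp hj).2.1
      have h3 : p - u j ≠ 0 := by
        rw [← norm_pos_iff]
        linarith
      have e1 : (u i - u j) / (p - u j) - 1 = (u i - p) / (p - u j) := by
        field_simp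
        ring
      rw [e1, norm_div, div_le_iff₀ (by linarith)]
      calc ‖u i - p‖ ≤ η * ro := hi'
        _ ≤ η * ‖p - u j‖ := by gcongr
    have n4 : Near (∏ j ∈ S, ((-conj (u i) - u j) / (-conj p - u j))) (S.card * η) := by
      refine Near.prod S _ fun j hj => Near.of_le ?_
      have h2 : ro < ‖-conj p - u j‖ := by
        rw [norm_sub_rev]
        exact ((hSmem j).mp hj).2.2
      have h3 : -conj p - u j ≠ 0 := by
        rw [← norm_pos_iff]
        linarith
      have e1 : (-conj (u i) - u j) / (-conj p - u j) - 1 = -conj (u i - p) / (-conj p - u j) := by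
        rw [map_sub]
        field_simp
        ring
      rw [e1, norm_div, norm_neg, Complex.norm_conj, div_le_iff₀ (by linarith)]
      calc ‖u i - p‖ ≤ η * ro := hi'
        _ ≤ η * ‖-conj p - u j‖ := by gcongr
    have n5 : Near ((((1 : ℂ) / 4 - p ^ 2) / (1 / 4 - u i ^ 2)) ^ (D + 1))
        ((D + 1 : ℕ) * ((1 + T) / κ ^ 2 * η)) := by
      refine Near.pow (Near.of_le ?_) _
      have e1 : ((1 : ℂ) / 4 - p ^ 2) / (1 / 4 - u i ^ 2) - 1 = (u i - p) * (u i + p) / (1 / 4 - u i ^ 2) := by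
        rw [div_sub_one hqi]
        congr 1
        ring
      rw [e1, norm_div, norm_mul]
      have h1 := C.quarter_ge hκ hlow i
      have h2 : ‖u i + p‖ ≤ 2 * (1 + T) := by
        have h3 := norm_le_half_add p hpre
        have h4 : ‖u i‖ ≤ ‖u i - p‖ + ‖p‖ := by
          calc ‖u i‖ = ‖(u i - p) + p‖ := by ring_nf
            _ ≤ _ := norm_add_le _ _
        have h5 := norm_add_le (u i) p
        linarith
      calc ‖u i - p‖ * ‖u i + p‖ / ‖(1 : ℂ) / 4 - u i ^ 2‖ ≤ (η * (1 / 2)) * (2 * (1 + T)) / κ ^ 2 := by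
            gcongr
            exact hηh.trans (by gcongr)
        _ = (1 + T) / κ ^ 2 * η := by ring
    have n := (((n1.mul n2.conj).mul n3).mul n4.conj).mul n5
    have hle : η + η + S.card * η + S.card * η + (D + 1 : ℕ) * ((1 + T) / κ ^ 2 * η) ≤ 1 / 4 := by
      refine le_trans ?_ N2
      rw [hD]
      push_cast
      have : (S.card : ℝ) ≤ M := by exact_mod_cast hcard
      nlinarith [mul_le_mul_of_nonneg_right this hη0.le]
    have hre := n.re_nonneg hle
    have e2 : ∀ z : ℂ, (-(‖V‖ : ℂ) * z).re = -(‖V‖ * z.re) := by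
      intro z
      rw [neg_mul, Complex.neg_re, Complex.re_ofReal_mul]
    rw [e2]
    have := mul_nonneg hVn.le hre
    linarith
  -- the far zeros
  have htail : ∀ i, 16 * T < |(u i).im| → ‖G D (lin α p h * QQ u S) (u i)‖ ≤
      ‖V‖ * (36 * T ^ 4 * Real.exp (2 * E - 3 * M) / h ^ 2) * (1 / (1 + |(u i).im|) ^ 2) := by
    intro i hi
    exact tail_bound hT hD hM hy hpre hh0 hα S C.re_lt hS16 hcard P1 P2 (C.re_lt i) hi.le
  have hsum := C.summable_G D _ htail
  -- comparison of the constants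
  have hEE : E ≤ EE T b := by
    rw [hE, EE]
    have hlr : Real.log (T / ro) ≤ Real.log T + 12 * b * Real.log T + T := by
      rw [Real.log_div hT0.ne' hro0.ne', hro, Real.log_mul (by positivity) hh0.ne', Real.log_pow, hη,
        Real.log_inv, Real.log_pow]
      have h1 : -T < Real.log h := by
        rw [Real.lt_log_iff_exp_lt hh0]
        exact hh
      have h2 : 0 ≤ Real.log T := Real.log_nonneg (by linarith)
      push_cast
      have h3 := mul_le_mul_of_nonneg_right hk h2
      nlinarith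
    have : 0 ≤ 4 * b := by positivity
    gcongr
  have hh2 : 1 / h ^ 2 ≤ Real.exp (2 * T) := by
    rw [div_le_iff₀ (by positivity)]
    have h1 : Real.exp (-T) ^ 2 ≤ h ^ 2 := by gcongr
    calc (1 : ℝ) = Real.exp (2 * T) * Real.exp (-T) ^ 2 := by
          rw [← Real.exp_nat_mul, ← Real.exp_add]
          push_cast
          rw [show 2 * T + 2 * -T = 0 by ring, Real.exp_zero]
      _ ≤ _ := by gcongr
  have hε : 36 * T ^ 4 * Real.exp (2 * E - 3 * M) / h ^ 2 ≤
      36 * T ^ 4 * Real.exp (2 * T + 2 * EE T b - 3 * M) := by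
    calc 36 * T ^ 4 * Real.exp (2 * E - 3 * M) / h ^ 2 = 36 * T ^ 4 * Real.exp (2 * E - 3 * M) * (1 / h ^ 2) := by
          ring
      _ ≤ 36 * T ^ 4 * Real.exp (2 * EE T b - 3 * M) * Real.exp (2 * T) := by gcongr
      _ = _ := by
        rw [mul_assoc, ← Real.exp_add]
        congr 2
        ring
  set ε := 36 * T ^ 4 * Real.exp (2 * T + 2 * EE T b - 3 * M) with hεdef
  have hε0 : 0 < ε := by positivity
  -- pointwise comparison
  have hpt : ∀ i, m i * (G D (lin α p h * QQ u S) (u i)).re ≤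
      ‖V‖ * ε * (m i / (1 + |(u i).im|) ^ 2) - (if i = i0 then ‖V‖ else 0) := by
    intro i
    have hm := C.one_le i
    have hm0 := C.m_nonneg i
    have hpos : 0 ≤ ‖V‖ * ε * (m i / (1 + |(u i).im|) ^ 2) := by positivity
    split_ifs with hi
    · rw [hi, ← hp, hGp]
      have : (-(‖V‖ : ℂ)).re = -‖V‖ := by simp
      rw [this]
      rw [hi] at hm hpos
      nlinarith
    · rw [sub_zero]
      by_cases hfar : 16 * T < |(u i).im|
      · have h1 := htail i hfar
        have h2 : (G D (lin α p h * QQ u S) (u i)).re ≤ ‖V‖ * ε * (1 / (1 + |(u i).im|) ^ 2) := by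
          refine (Complex.re_le_norm _).trans (h1.trans ?_)
          gcongr
        calc m i * (G D (lin α p h * QQ u S) (u i)).re ≤ m i * (‖V‖ * ε * (1 / (1 + |(u i).im|) ^ 2)) := by gcongr
          _ = _ := by ring
      · rw [not_lt] at hfar
        by_cases h1 : ro < ‖u i - p‖
        · by_cases h2 : ro < ‖u i - (-conj p)‖
          · have h3 : i ∈ S := (hSmem i).mpr ⟨hfar, h1, h2⟩
            have h4 : (QQ u S).eval (u i) = 0 := by
              rw [QQ_eval]
              exact Finset.prod_eq_zero h3 (sub_self _)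
            have h5 : G D (lin α p h * QQ u S) (u i) = 0 := by
              unfold G
              rw [eval_mul, h4, mul_zero, zero_mul, zero_div]
            rw [h5, Complex.zero_re, mul_zero]
            exact hpos
          · rw [not_lt] at h2
            have h3 : ‖u (σ i) - p‖ ≤ ro := by
              rw [hσu, ← Complex.norm_conj]
              have : conj (-conj (u i) - p) = -(u i - -conj p) := by
                simp
                ring
              rw [this, norm_neg]
              exact h2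
            have h4 := hnear _ h3
            rw [hσu, G_refl, Complex.conj_re] at h4
            have := mul_nonneg hm0 (neg_nonneg.mpr h4)
            linarith
        · rw [not_lt] at h1
          have h4 := hnear _ h1
          have := mul_nonneg hm0 (neg_nonneg.mpr h4)
          linarith
  have hs1 : Summable fun i => ‖V‖ * ε * (m i / (1 + |(u i).im|) ^ 2) := C.sum2.mul_left _
  have hs2 : Summable fun i => if i = i0 then ‖V‖ else 0 := (hasSum_ite_eq i0 ‖V‖).summable
  have hle := hsum.tsum_le_tsum hpt (hs1.sub hs2)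
  rw [hs1.tsum_sub hs2, tsum_mul_left, tsum_ite_eq] at hle
  refine lt_of_le_of_lt hle ?_
  rw [mul_assoc]
  nlinarith

end Pool.Agent.Helper76.LW
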