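import Pool.Agent.Helper76.LW.Neg

set_option autoImplicit false

/-!
# The effective Li-Weil criterion: a negative value of the form
-/

namespace Pool.Agent.Helper76.LW

open Complex Filter Topology Polynomial
open scoped ComplexConjugate

variable {ι : Type*} {u : ι → ℂ} {m : ι → ℝ}

/-- the polynomial with the zeros `u i`, `i ∈ S` -/
noncomputable def QQ (u : ι → ℂ) (S : Finset ι) : ℂ[X] := ∏ i ∈ S, (X - C (u i))

lemma QQ_eval (S : Finset ι) (v : ℂ) : (QQ u S).eval v = ∏ i ∈ S, (v - u i) := by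
  unfold QQ
  rw [eval_prod]
  simp

lemma QQ_natDegree (S : Finset ι) : (QQ u S).natDegree = S.card := by
  unfold QQ
  rw [natDegree_prod_of_monic _ _ fun i _ => monic_X_sub_C (u i)]
  simp

lemma lin_natDegree (α p : ℂ) (h : ℝ) : (lin α p h).natDegree ≤ 1 := by
  unfold lin
  refine (natDegree_sub_le _ _).trans ?_
  rw [max_le_iff]
  constructor
  · refine (natDegree_C_mul_le _ _).trans ?_
    rw [natDegree_X_sub_C]
  · refine (natDegree_C_mul_le _ _).trans ?_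
    rw [natDegree_X_sub_C]

lemma lin_p {α p : ℂ} {h : ℝ} (hh : 0 < h) (hp : p.re = h) : (lin α p h).eval p = α := by
  have hhc : (h : ℂ) ≠ 0 := by exact_mod_cast hh.ne'
  have hpc : p + conj p = 2 * h := by
    rw [Complex.add_conj, hp]
    push_cast
    ring
  rw [lin_eval, hpc]
  field_simp
  ring

lemma lin_p' {α p : ℂ} {h : ℝ} (hh : 0 < h) (hp : p.re = h) : (lin α p h).eval (-conj p) = 1 := by
  have hhc : (h : ℂ) ≠ 0 := by exact_mod_cast hh.ne'
  have hpc : -conj p - p = -(2 * h) := by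
    have : p + conj p = 2 * h := by
      rw [Complex.add_conj, hp]
      push_cast
      ring
    linear_combination -this
  rw [lin_eval, hpc]
  field_simp
  ring

lemma G_ratio {D : ℕ} {α p v : ℂ} {h : ℝ} (hh : 0 < h) (hp : p.re = h) (hα : α ≠ 0) (S : Finset ι)
    (h1 : ∏ i ∈ S, (p - u i) ≠ 0) (h2 : ∏ i ∈ S, (-conj p - u i) ≠ 0) (h3 : (1 : ℂ) / 4 - p ^ 2 ≠ 0)
    (h4 : (1 : ℂ) / 4 - v ^ 2 ≠ 0) :
    G D (lin α p h * QQ u S) v = G D (lin α p h * QQ u S) p *
      (((lin α p h).eval v / α) * conj ((lin α p h).eval (-conj v)) *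
        (∏ i ∈ S, ((v - u i) / (p - u i))) * conj (∏ i ∈ S, ((-conj v - u i) / (-conj p - u i))) *
        (((1 : ℂ) / 4 - p ^ 2) / (1 / 4 - v ^ 2)) ^ (D + 1)) := by
  have h2' : conj (∏ i ∈ S, (-conj p - u i)) ≠ 0 := by
    rwa [Ne, map_eq_zero]
  unfold G
  rw [eval_mul, eval_mul, eval_mul, eval_mul, QQ_eval, QQ_eval, QQ_eval, QQ_eval, lin_p hh hp, lin_p' hh hp,
    Finset.prod_div_distrib, Finset.prod_div_distrib]
  simp only [map_mul, map_div₀, map_one, one_mul]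
  rw [div_pow]
  have h5 : ((1 : ℂ) / 4 - p ^ 2) ^ (D + 1) ≠ 0 := pow_ne_zero _ h3
  have h6 : ((1 : ℂ) / 4 - v ^ 2) ^ (D + 1) ≠ 0 := pow_ne_zero _ h4
  generalize ((1 : ℂ) / 4 - p ^ 2) ^ (D + 1) = A at *
  generalize ((1 : ℂ) / 4 - v ^ 2) ^ (D + 1) = B at *
  generalize conj (∏ i ∈ S, (-conj p - u i)) = E at *
  generalize ∏ i ∈ S, (p - u i) = F at *
  field_simp

/-- the unimodular constant -/
lemma exists_unit {V : ℂ} (hV : V ≠ 0) : ∃ α : ℂ, ‖α‖ = 1 ∧ α * V = -(‖V‖ : ℂ) := by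
  refine ⟨-conj V / ‖V‖, ?_, ?_⟩
  · rw [norm_div, norm_neg, Complex.norm_conj, Complex.norm_real, norm_norm, div_self]
    exact norm_ne_zero_iff.mpr hV
  · have h1 : (‖V‖ : ℂ) ≠ 0 := by exact_mod_cast norm_ne_zero_iff.mpr hV
    have h2 : conj V * V = (‖V‖ : ℂ) ^ 2 := by
      rw [mul_comm, Complex.mul_conj, Complex.normSq_eq_norm_sq]
      push_cast
      rfl
    field_simp
    rw [h2]

end Pool.Agent.Helper76.LW
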