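import Pool.Agent.Helper76.LW.Mat

set_option autoImplicit false

/-!
# The effective criterion for configurations, matrix form
-/

namespace Pool.Agent.Helper76.LW

open Complex Filter Topology Polynomial
open scoped ComplexConjugate

/-- the polynomial in `z` attached to a polynomial in `u` -/
noncomputable def QP (D : ℕ) (R : ℂ[X]) : ℂ[X] :=
  ∑ k ∈ Finset.range (D + 1),
    Polynomial.C (R.coeff k) * (Polynomial.C (1 / 2) * (1 + X)) ^ k * (1 - X) ^ (D - k)

lemma QP_natDegree (D : ℕ) (R : ℂ[X]) : (QP D R).natDegree ≤ D := by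
  unfold QP
  refine Polynomial.natDegree_sum_le_of_forall_le _ _ fun k hk => ?_
  have hk' : k ≤ D := Nat.lt_succ_iff.mp (Finset.mem_range.mp hk)
  have h1 : (Polynomial.C (1 / 2) * (1 + X) : ℂ[X]).natDegree ≤ 1 := by compute_degree
  have h2 : (1 - X : ℂ[X]).natDegree ≤ 1 := by compute_degree
  refine Polynomial.natDegree_mul_le.trans ?_
  have h3 : (Polynomial.C (R.coeff k) * (Polynomial.C (1 / 2) * (1 + X)) ^ k).natDegree ≤ k := by
    refine (Polynomial.natDegree_C_mul_le _ _).trans (Polynomial.natDegree_pow_le.trans ?_)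
    calc k * (Polynomial.C (1 / 2) * (1 + X) : ℂ[X]).natDegree ≤ k * 1 := Nat.mul_le_mul_left _ h1
      _ = k := mul_one _
  have h4 : ((1 - X : ℂ[X]) ^ (D - k)).natDegree ≤ D - k := by
    refine Polynomial.natDegree_pow_le.trans ?_
    calc (D - k) * (1 - X : ℂ[X]).natDegree ≤ (D - k) * 1 := Nat.mul_le_mul_left _ h2
      _ = D - k := mul_one _
  omega

lemma QP_eval {D : ℕ} {R : ℂ[X]} (hR : R.natDegree ≤ D) {v : ℂ} (hv : v + 1 / 2 ≠ 0) :
    (QP D R).eval (zv v) = R.eval v / (v + 1 / 2) ^ D := by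
  unfold QP
  rw [Polynomial.eval_finsetSum, Polynomial.eval_eq_sum_range' (Nat.lt_succ_of_le hR), Finset.sum_div]
  refine Finset.sum_congr rfl fun k hk => ?_
  have hk' : k ≤ D := Nat.lt_succ_iff.mp (Finset.mem_range.mp hk)
  have h1 : (1 / 2 : ℂ) * (1 + zv v) = v / (v + 1 / 2) := by
    rw [zv_eq' hv, eq_div_iff hv]
    have : 1 / (v + 1 / 2) * (v + 1 / 2) = 1 := div_mul_cancel₀ _ hv
    linear_combination -(1 / 2) * this
  have h2 : 1 - zv v = 1 / (v + 1 / 2) := by
    rw [zv_eq' hv]
    ring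
  simp only [Polynomial.eval_mul, Polynomial.eval_pow, Polynomial.eval_C, Polynomial.eval_add,
    Polynomial.eval_sub, Polynomial.eval_one, Polynomial.eval_X]
  rw [h1, h2, div_pow, div_pow, one_pow]
  have h3 : (v + 1 / 2) ^ D = (v + 1 / 2) ^ k * (v + 1 / 2) ^ (D - k) := by
    rw [← pow_add]
    congr 1
    omega
  rw [h3]
  have h4 := pow_ne_zero k hv
  have h5 := pow_ne_zero (D - k) hv
  field_simp

lemma eval_fin {D : ℕ} {Q : ℂ[X]} (h : Q.natDegree ≤ D) (z : ℂ) :
    Q.eval z = ∑ j : Fin (D + 1), Q.coeff j * z ^ (j : ℕ) := by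
  rw [Polynomial.eval_eq_sum_range' (Nat.lt_succ_of_le h), Finset.sum_range]

lemma form_eq {D : ℕ} {R : ℂ[X]} (hR : R.natDegree ≤ D) {v : ℂ} (hv : |v.re| < 1 / 2) :
    wv v * ((QP D R).eval (zv v) * conj ((QP D R).eval (zv (-conj v)))) = G D R v := by
  have hv' : |(-conj v).re| < 1 / 2 := by simpa using hv
  have h1 := half_add_ne hv
  have h2 := half_add_ne hv'
  rw [QP_eval hR h1, QP_eval hR h2]
  unfold G wv
  rw [map_div₀, map_pow, map_add, map_neg, Complex.conj_conj, conj_half]
  have h3 : (1 : ℂ) / 4 - v ^ 2 = (v + 1 / 2) * (-v + 1 / 2) := by ring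
  rw [h3, pow_succ ((v + 1 / 2) * (-v + 1 / 2)), mul_pow]
  rw [div_mul_div_comm, div_mul_div_comm, one_mul]
  congr 1
  ring

variable {ι : Type*} {u : ι → ℂ} {m : ι → ℝ}

lemma psd_G (C : Cf u m) {D : ℕ} (h : (Tm u m (D + 1)).PosSemidef) (R : ℂ[X]) (hR : R.natDegree ≤ D) :
    0 ≤ ∑' i, m i * (G D R (u i)).re := by
  have h1 := C.hasSum_form (fun j : Fin (D + 1) => (QP D R).coeff j)
  have h2 := psd_re h (fun j : Fin (D + 1) => (QP D R).coeff j)
  rw [← h1.tsum_eq] at h2
  convert h2 using 1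
  refine tsum_congr fun i => ?_
  rw [← eval_fin (QP_natDegree D R), ← eval_fin (QP_natDegree D R), form_eq hR (C.re_lt i)]

/-- **Effective criterion for configurations.** -/
theorem eff (C : Cf u m) : ∃ c : ℝ, 0 < c ∧ ∃ N0 : ℕ, ∀ N : ℕ, N0 ≤ N → (Tm u m N).PosSemidef →
    ∀ i, |(u i).im| ≤ c * N / Real.log N → |(u i).re| ≤ Real.exp (-(c * N / Real.log N)) := by
  obtain ⟨K, T0, hK, hT0, hcore⟩ := core C
  have hc : 0 < min 1 (1 / (16 * K)) := by positivity
  set c := min 1 (1 / (16 * K)) with hcdef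
  have hcK : K * c ≤ 1 / 16 := by
    have : c ≤ 1 / (16 * K) := min_le_right _ _
    calc K * c ≤ K * (1 / (16 * K)) := by gcongr
      _ = 1 / 16 := by field_simp
  have hc1 : c ≤ 1 := min_le_left _ _
  have hlim : Tendsto (fun N : ℕ => c * N / Real.log N) atTop atTop := by
    have h1 : Tendsto (fun x : ℝ => x / Real.log x) atTop atTop := by
      have := Real.tendsto_pow_log_div_mul_add_atTop 1 0 1 one_ne_zero
      have h2 : Tendsto (fun x : ℝ => Real.log x / x) atTop (𝓝[>] 0) := by
        rw [tendsto_nhdsWithin_iff]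
        refine ⟨by simpa using this, ?_⟩
        filter_upwards [eventually_gt_atTop 1] with x hx
        exact div_pos (Real.log_pos hx) (by linarith)
      have h3 := h2.inv_tendsto_nhdsGT_zero
      refine h3.congr fun x => ?_
      simp
    have h2 := (h1.comp tendsto_natCast_atTop_atTop).const_mul_atTop hc
    refine h2.congr fun x => ?_
    simp only [Function.comp_apply]
    ring
  obtain ⟨N1, hN1⟩ := eventually_atTop.mp (hlim.eventually_ge_atTop T0)
  refine ⟨c, hc, max N1 6, fun N hN hpsd => ?_⟩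
  set T := c * N / Real.log N with hT
  have hTT : T0 ≤ T := hN1 N ((le_max_left _ _).trans hN)
  have hN6 : (6:ℝ) ≤ N := by exact_mod_cast (le_max_right _ _).trans hN
  have hT2 : 2 ≤ T := hT0.trans hTT
  have hlogT : 0 < Real.log T := Real.log_pos (by linarith)
  have hlogN : 1 ≤ Real.log N := by
    rw [Real.le_log_iff_exp_le (by linarith)]
    linarith [Real.exp_one_lt_d9]
  have hTN : T ≤ N := by
    rw [hT, div_le_iff₀ (by linarith)]
    calc c * N ≤ 1 * N := by gcongr
      _ ≤ N * Real.log N := by nlinarith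
  have hTlog : K * T * Real.log T ≤ N / 16 := by
    have h1 : Real.log T ≤ Real.log N := Real.log_le_log (by linarith) hTN
    calc K * T * Real.log T ≤ K * T * Real.log N := by gcongr
      _ = K * c * N := by
        rw [hT]
        field_simp
      _ ≤ 1 / 16 * N := by gcongr
      _ = N / 16 := by ring
  set M := ⌈K * T * Real.log T⌉₊ with hM
  have hM1 : 0 < M := Nat.ceil_pos.mpr (by positivity)
  have hM2 : (M : ℝ) ≤ N / 16 + 1 := by
    have := Nat.ceil_lt_add_one (show 0 ≤ K * T * Real.log T by positivity)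
    linarith
  have hMN : 4 * M ≤ N := by
    have : (4 * (M : ℝ)) ≤ N := by linarith
    exact_mod_cast this
  have hD : (4 * M - 1) + 1 = 4 * M := by omega
  refine hcore T hTT (4 * M - 1) hD fun R hR => ?_
  refine psd_G C ?_ R hR
  rw [hD]
  exact Tm_sub hMN hpsd

/-- the form on the line -/
lemma form_line (hline : ∀ i, (u i).re = 0) {N : ℕ} (a : Fin N → ℂ) (i : ι) :
    m i * (wv (u i) * ((∑ j, a j * zv (u i) ^ (j : ℕ)) *
      conj (∑ j, a j * zv (-conj (u i)) ^ (j : ℕ)))).re =
      m i * (1 / (1 / 4 + (u i).im ^ 2)) * ‖∑ j, a j * zv (u i) ^ (j : ℕ)‖ ^ 2 := by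
  have h1 : -conj (u i) = u i := by
    apply Complex.ext
    · simp [hline i]
    · simp
  have h2 : wv (u i) = ((1 / (1 / 4 + (u i).im ^ 2) : ℝ) : ℂ) := by
    unfold wv
    have : u i = (u i).im * I := by
      apply Complex.ext
      · simp [hline i]
      · simp
    push_cast
    rw [show u i ^ 2 = -((u i).im : ℂ) ^ 2 by
      nth_rewrite 1 [this]
      rw [mul_pow, I_sq]
      ring]
    ring
  rw [h1, h2, Complex.mul_conj, Complex.re_ofReal_mul, Complex.ofReal_re, Complex.normSq_eq_norm_sq]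
  ring

lemma form_real (C : Cf u m) {N : ℕ} (x : Fin N → ℝ) :
    HasSum (fun i => m i * (wv (u i) * ((∑ j, (x j : ℂ) * zv (u i) ^ (j : ℕ)) *
      conj (∑ j, (x j : ℂ) * zv (-conj (u i)) ^ (j : ℕ)))).re)
      (star x ⬝ᵥ ((Tm u m N).mulVec x)) := by
  have h := C.hasSum_form (fun j : Fin N => (x j : ℂ))
  convert h using 1
  simp only [dotProduct, Matrix.mulVec, Finset.mul_sum]
  refine Finset.sum_congr rfl fun j _ => Finset.sum_congr rfl fun k _ => ?_
  rw [Complex.conj_ofReal, ← Complex.ofReal_mul, Complex.ofReal_re, Pi.star_apply, star_trivial]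
  ring

lemma psd_of_line (C : Cf u m) (hline : ∀ i, (u i).re = 0) (N : ℕ) : (Tm u m N).PosSemidef := by
  refine Matrix.PosSemidef.of_dotProduct_mulVec_nonneg (Tm_isHermitian N) fun x => ?_
  have h := form_real C x
  rw [← h.tsum_eq]
  refine tsum_nonneg fun i => ?_
  rw [form_line hline]
  have := C.m_nonneg i
  positivity

lemma zv_inj {v w : ℂ} (hv : |v.re| < 1 / 2) (hw : |w.re| < 1 / 2) (h : zv v = zv w) : v = w := by
  rw [zv_eq' (half_add_ne hv), zv_eq' (half_add_ne hw), sub_right_inj] at h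
  have h2 : v + 1 / 2 = w + 1 / 2 := by
    rw [← one_div_one_div (v + 1 / 2), h, one_div_one_div]
  exact add_right_cancel h2

lemma pd_of_line (C : Cf u m) (hline : ∀ i, (u i).re = 0) (hinf : Infinite ι)
    (hinj : Function.Injective u) (N : ℕ) : (Tm u m N).PosDef := by
  refine Matrix.PosDef.of_dotProduct_mulVec_pos (Tm_isHermitian N) fun x hx => ?_
  have h := form_real C x
  rw [← h.tsum_eq]
  have hnn : ∀ i, 0 ≤ m i * (wv (u i) * ((∑ j, (x j : ℂ) * zv (u i) ^ (j : ℕ)) *
      conj (∑ j, (x j : ℂ) * zv (-conj (u i)) ^ (j : ℕ)))).re := by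
    intro i
    rw [form_line hline]
    have := C.m_nonneg i
    positivity
  obtain ⟨i, hi⟩ : ∃ i, (∑ j, (x j : ℂ) * zv (u i) ^ (j : ℕ)) ≠ 0 := by
    by_contra hc
    push Not at hc
    apply hx
    set P : ℂ[X] := ∑ j : Fin N, Polynomial.C (x j : ℂ) * X ^ (j : ℕ) with hP
    have hev : ∀ z : ℂ, P.eval z = ∑ j, (x j : ℂ) * z ^ (j : ℕ) := by
      intro z
      rw [hP, Polynomial.eval_finsetSum]
      simp
    have hP0 : P = 0 := by
      apply Polynomial.eq_zero_of_infinite_isRoot
      have hsub : Set.range (fun i => zv (u i)) ⊆ {z | P.IsRoot z} := by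
        rintro _ ⟨i, rfl⟩
        show P.eval _ = 0
        rw [hev]
        exact hc i
      refine Set.Infinite.mono hsub (Set.infinite_range_of_injective ?_)
      intro i j hij
      exact hinj (zv_inj (C.re_lt i) (C.re_lt j) hij)
    funext j
    have hcoef : P.coeff (j : ℕ) = x j := by
      rw [hP, Polynomial.finsetSum_coeff]
      simp only [Polynomial.coeff_C_mul, Polynomial.coeff_X_pow]
      rw [Finset.sum_eq_single j]
      · simp
      · intro k _ hk
        rw [if_neg, mul_zero]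
        intro h
        exact hk (Fin.ext h).symm
      · simp
    rw [hP0, Polynomial.coeff_zero] at hcoef
    exact_mod_cast hcoef.symm
  refine h.summable.tsum_pos hnn i ?_
  rw [form_line hline]
  have h1 := C.one_le i
  have h2 : 0 < m i := by linarith
  have h3 : 0 < ‖∑ j, (x j : ℂ) * zv (u i) ^ (j : ℕ)‖ := norm_pos_iff.mpr hi
  positivity

/-- the qualitative criterion -/
theorem line_of_psd (C : Cf u m) (h : ∀ N, (Tm u m N).PosSemidef) (i : ι) : (u i).re = 0 := by
  obtain ⟨c, hc, N0, heff⟩ := eff C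
  have hlim : Tendsto (fun N : ℕ => c * N / Real.log N) atTop atTop := by
    have h1 : Tendsto (fun x : ℝ => x / Real.log x) atTop atTop := by
      have := Real.tendsto_pow_log_div_mul_add_atTop 1 0 1 one_ne_zero
      have h2 : Tendsto (fun x : ℝ => Real.log x / x) atTop (𝓝[>] 0) := by
        rw [tendsto_nhdsWithin_iff]
        refine ⟨by simpa using this, ?_⟩
        filter_upwards [eventually_gt_atTop 1] with x hx
        exact div_pos (Real.log_pos hx) (by linarith)
      have h3 := h2.inv_tendsto_nhdsGT_zero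
      refine h3.congr fun x => ?_
      simp
    have h2 := (h1.comp tendsto_natCast_atTop_atTop).const_mul_atTop hc
    refine h2.congr fun x => ?_
    simp only [Function.comp_apply]
    ring
  have h1 : ∀ᶠ N : ℕ in atTop, |(u i).re| ≤ Real.exp (-(c * N / Real.log N)) := by
    filter_upwards [hlim.eventually_ge_atTop |(u i).im|, eventually_ge_atTop N0] with N hN1 hN2
    exact heff N hN2 (h N) i hN1
  have h2 : Tendsto (fun N : ℕ => Real.exp (-(c * N / Real.log N))) atTop (𝓝 0) :=
    Real.tendsto_exp_neg_atTop_nhds_zero.comp hlim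
  have h3 : |(u i).re| ≤ 0 := ge_of_tendsto h2 h1
  exact abs_nonpos_iff.mp h3

end Pool.Agent.Helper76.LW
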