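import Pool.Agent.Helper76.LW.MassU
import Pool.Agent.Helper76.LW.Crit

set_option autoImplicit false

/-!
# Positivity of the form from zeros on the line
-/

namespace Pool.Agent.Helper76.LW

open Complex Filter Topology Polynomial
open scoped ComplexConjugate

variable {ι : Type*} {u : ι → ℂ} {m : ι → ℝ}

lemma Cf.summable_GD (C : Cf u m) {D : ℕ} {R : ℂ[X]} (hR : R.natDegree ≤ D) :
    Summable fun i => m i * (G D R (u i)).re := by
  have h1 := (C.hasSum_form (fun j : Fin (D + 1) => (QP D R).coeff j)).summable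
  refine h1.congr fun i => ?_
  rw [← eval_fin (QP_natDegree D R), ← eval_fin (QP_natDegree D R), form_eq hR (C.re_lt i)]

lemma G_line (D : ℕ) (R : ℂ[X]) {v : ℂ} (hv : v.re = 0) : 0 ≤ (G D R v).re := by
  have h1 : -conj v = v := by
    apply Complex.ext
    · simp [hv]
    · simp
  have h2 : (1 : ℂ) / 4 - v ^ 2 = ((1 / 4 + v.im ^ 2 : ℝ) : ℂ) := by
    have : v = v.im * I := by
      apply Complex.ext
      · simp [hv]
      · simp
    rw [show v ^ 2 = -(v.im : ℂ) ^ 2 by
      nth_rewrite 1 [this]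
      rw [mul_pow, I_sq]
      ring]
    push_cast
    ring
  unfold G
  rw [h1, h2, Complex.mul_conj, ← Complex.ofReal_pow, ← Complex.ofReal_div, Complex.ofReal_re]
  have := Complex.normSq_nonneg (R.eval v)
  positivity

/-- the node attached to a point -/
noncomputable def yv (P : ℂ[X]) (H : ℝ) (v : ℂ) : ℂ :=
  if ‖P.eval (xv H v)‖ ≤ ‖P.eval (conj (xv H v))‖ then xv H v else conj (xv H v)

lemma yv_re (P : ℂ[X]) (H : ℝ) (v : ℂ) : (yv P H v).re = (xv H v).re := by
  unfold yv
  split_ifs <;> simp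

lemma yv_im (P : ℂ[X]) (H : ℝ) (v : ℂ) : |(yv P H v).im| = |(xv H v).im| := by
  unfold yv
  split_ifs <;> simp

lemma yv_le (P : ℂ[X]) (H : ℝ) (v : ℂ) : ‖P.eval (yv P H v)‖ ≤ ‖P.eval (xv H v)‖ := by
  unfold yv
  split_ifs with h
  · exact le_rfl
  · push Not at h
    exact h.le

lemma yv_le' (P : ℂ[X]) (H : ℝ) (v : ℂ) : ‖P.eval (yv P H v)‖ ≤ ‖P.eval (conj (xv H v))‖ := by
  unfold yv
  split_ifs with h
  · exact h
  · exact le_rfl

/-- lower bound for far points, through the node -/
lemma far_node {D : ℕ} {H : ℝ} {R : ℂ[X]} (hR : R.natDegree ≤ D) {n : ℕ} (hn : n = D + 1)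
    (hH : 1000000 * n ≤ H) {v : ℂ} (hv : |v.re| < 1 / 2) (ht : H ≤ |v.im|)
    {a : ℕ → ℂ} (ha : Nodes n a) :
    wt H v * (1 / 2 * ‖(PP D H R).eval (yv (PP D H R) H v)‖ ^ 2 - 1000000 * n / H *
      ∑ c ∈ Finset.range (NC n), ker n ⌊((xv H v).re + 2) / dl n⌋₊ c * ‖(PP D H R).eval (a c)‖ ^ 2) ≤
      (G D R v).re := by
  have hn1 : 1 ≤ n := by omega
  have hnr : (1 : ℝ) ≤ n := by exact_mod_cast hn1
  have hH0 : 0 < H := by nlinarith
  have htpos : 0 < |v.im| := by linarith
  have ht0 : v.im ≠ 0 := abs_pos.mp htpos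
  have hd := dl_mul hn1
  have hd0 := dl_pos hn1
  have hξ : |(xv H v).re| ≤ 1 := by
    refine (xv_re_le hH0 ht0).trans ?_
    rw [div_le_one htpos]
    exact ht
  have hs : |(xv H v).im| ≤ 1 / (2 * H) := by
    refine (xv_im_le hH0 hv ht0).trans ?_
    rw [div_le_div_iff₀ (by positivity) (by positivity)]
    have : H ^ 2 ≤ |v.im| ^ 2 := by gcongr
    rw [sq_abs] at this
    nlinarith
  have hsd : |(xv H v).im| ≤ dl n := by
    refine hs.trans ?_
    rw [dl]
    apply one_div_le_one_div_of_le (by positivity)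
    nlinarith
  set ξ := (xv H v).re with hξdef
  have hξ' := abs_le.mp hξ
  set c0 := ⌊(ξ + 2) / dl n⌋₊ with hc0
  have hf1 : (c0 : ℝ) ≤ (ξ + 2) / dl n := Nat.floor_le (div_nonneg (by linarith) hd0.le)
  have hf2 : (ξ + 2) / dl n < c0 + 1 := Nat.lt_floor_add_one _
  rw [le_div_iff₀ hd0] at hf1
  rw [div_lt_iff₀ hd0] at hf2
  have hPd : (PP D H R).natDegree ≤ n := (PP_natDegree D H R).trans (by omega)
  obtain ⟨M, hM0, hM2, h1, h2, h3⟩ := sampling hn1 hPd ha (c0 := c0) (z := xv H v) hξ (by linarith)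
    (by linarith) hsd
  set ε := 300000 * n * |(xv H v).im| with hε
  have hε1 : ε ≤ 150000 * n / H := by
    calc ε ≤ 300000 * n * (1 / (2 * H)) := by
          rw [hε]
          gcongr
      _ = 150000 * n / H := by
        field_simp
        norm_num
  have hε2 : 150000 * n / H ≤ 1 := by
    rw [div_le_one hH0]
    nlinarith
  have hε0 : 0 ≤ ε := by positivity
  have hfl := far_lower hR (by nlinarith) (by rw [← hn]; nlinarith) hv (by linarith : H / 2 ≤ |v.im|)
    (hε1.trans hε2) hM0 h1 h2 h3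
  refine le_trans ?_ hfl
  unfold wt
  rw [← hξdef]
  apply mul_le_mul_of_nonneg_left _ (sq_nonneg _)
  -- compare the brackets
  set p := (PP D H R).eval (ξ : ℂ) with hp
  have h4 : ‖(PP D H R).eval (yv (PP D H R) H v)‖ ≤ ‖p‖ + ε * M := by
    refine (yv_le _ _ _).trans ?_
    have : (PP D H R).eval (xv H v) = p + ((PP D H R).eval (xv H v) - p) := by ring
    rw [this]
    exact (norm_add_le _ _).trans (by gcongr)
  have h5 : ‖(PP D H R).eval (yv (PP D H R) H v)‖ ^ 2 ≤ 2 * ‖p‖ ^ 2 + 2 * (ε * M) ^ 2 := by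
    calc ‖(PP D H R).eval (yv (PP D H R) H v)‖ ^ 2 ≤ (‖p‖ + ε * M) ^ 2 := by gcongr
      _ ≤ 2 * ‖p‖ ^ 2 + 2 * (ε * M) ^ 2 := by nlinarith [sq_nonneg (‖p‖ - ε * M)]
  have h6 : (ε * M) ^ 2 ≤ ε * M ^ 2 := by
    rw [mul_pow]
    have : ε ^ 2 ≤ ε := by nlinarith
    gcongr
  have h7 : (32 / H + 4 * ε) * M ^ 2 ≤ 1000000 * n / H * M ^ 2 := by
    gcongr
    have h8 : 4 * ε ≤ 600000 * n / H := by
      calc 4 * ε ≤ 4 * (150000 * n / H) := by gcongr
        _ = 600000 * n / H := by ring
    have h9 : 32 / H ≤ 400000 * n / H := by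
      gcongr
      linarith
    have h10 : 1000000 * (n : ℝ) / H = 400000 * n / H + 600000 * n / H := by ring
    linarith
  have h8 : 1000000 * n / H * M ^ 2 ≤ 1000000 * n / H *
      ∑ c ∈ Finset.range (NC n), ker n c0 c * ‖(PP D H R).eval (a c)‖ ^ 2 := by
    gcongr
  linarith

/-- lower bound for middle points on the line -/
lemma mid_line {D : ℕ} {H : ℝ} {R : ℂ[X]} (hR : R.natDegree ≤ D) (hH : 16 ≤ H)
    (hD : ((D + 1 : ℕ) : ℝ) ≤ H) {v : ℂ} (hv : v.re = 0) (ht : H / 2 ≤ |v.im|) :
    wt H v * (1 / 2 * ‖(PP D H R).eval (yv (PP D H R) H v)‖ ^ 2) ≤ (G D R v).re := by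
  have hH0 : 0 < H := by linarith
  have htpos : 0 < |v.im| := by linarith
  have ht0 : v.im ≠ 0 := abs_pos.mp htpos
  have hv0 : v ≠ 0 := by
    intro h
    rw [h] at ht0
    simp at ht0
  have hv2 : |v.re| < 1 / 2 := by rw [hv]; norm_num
  obtain ⟨e, he, hw⟩ := weight_near (by linarith) hD hv2 ht
  rw [G_eq hR hH0.ne' hv0 (quarter_ne hv2), hw, mul_assoc, Complex.re_ofReal_mul]
  unfold wt
  gcongr
  have hreal : conj (xv H v) = xv H v := by
    apply Complex.ext
    · simp
    · rw [Complex.conj_im, xv_im, hv]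
      simp
  rw [hreal, Complex.mul_conj, Complex.normSq_eq_norm_sq]
  have h1 := yv_le (PP D H R) H v
  have h2 : ((1 + e) * ((‖(PP D H R).eval (xv H v)‖ ^ 2 : ℝ) : ℂ)).re =
      (1 + e.re) * ‖(PP D H R).eval (xv H v)‖ ^ 2 := by
    rw [Complex.re_mul_ofReal]
    simp
  rw [h2]
  have h3 : -(1 / 2) ≤ e.re := by
    have h4 := (abs_le.mp ((Complex.abs_re_le_norm e).trans he)).1
    have h5 : 8 / H ≤ 1 / 2 := by
      rw [div_le_div_iff₀ hH0 (by norm_num)]
      linarith
    linarith
  calc 1 / 2 * ‖(PP D H R).eval (yv (PP D H R) H v)‖ ^ 2 ≤ 1 / 2 * ‖(PP D H R).eval (xv H v)‖ ^ 2 := by gcongr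
    _ ≤ (1 + e.re) * ‖(PP D H R).eval (xv H v)‖ ^ 2 := by
      gcongr
      linarith

/-- every cell contains enough points -/
lemma cells_lower (C : Cf u m) {n : ℕ} (hn : 1 ≤ n) {H μ : ℝ}
    (h : ∀ k : ℕ, k < 400000 * n → ∃ F : Finset ι, (∀ i ∈ F, H / 2 ≤ (u i).im ∧
        k * dl n < (xv H (u i)).re ∧ (xv H (u i)).re < (k + 1) * dl n) ∧
        μ ≤ ∑ i ∈ F, m i * wt H (u i)) :
    ∀ c : ℕ, c < NC n → ∃ F : Finset ι, (∀ i ∈ F, H / 2 ≤ |(u i).im| ∧
        -2 + c * dl n < (xv H (u i)).re ∧ (xv H (u i)).re < -2 + (c + 1) * dl n) ∧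
        μ ≤ ∑ i ∈ F, m i * wt H (u i) := by
  classical
  intro c hc
  have hd := dl_mul hn
  have hd0 := dl_pos hn
  have hZ : ((400000 * n : ℕ) : ℝ) * dl n = 2 := by
    push_cast
    linarith
  rcases le_or_gt (400000 * n) c with h1 | h1
  · obtain ⟨F, hF1, hF2⟩ := h (c - 400000 * n) (by unfold NC at hc; omega)
    refine ⟨F, fun i hi => ?_, hF2⟩
    obtain ⟨g1, g2, g3⟩ := hF1 i hi
    have h2 : ((c - 400000 * n : ℕ) : ℝ) = c - ((400000 * n : ℕ) : ℝ) := by rw [Nat.cast_sub h1]
    rw [h2] at g2 g3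
    refine ⟨g1.trans (le_abs_self _), ?_, ?_⟩ <;> nlinarith
  · obtain ⟨F, hF1, hF2⟩ := h (400000 * n - 1 - c) (by omega)
    obtain ⟨γ, hγ1, hγ2⟩ := C.cj
    have hx : ∀ i, (xv H (u (γ i))).re = -(xv H (u i)).re := by
      intro i
      rw [hγ1, xv_re, xv_re, Complex.normSq_conj, Complex.conj_im]
      ring
    refine ⟨F.image γ, fun j hj => ?_, ?_⟩
    · rw [Finset.mem_image] at hj
      obtain ⟨i, hi, rfl⟩ := hj
      obtain ⟨g1, g2, g3⟩ := hF1 i hi
      have h2 : ((400000 * n - 1 - c : ℕ) : ℝ) = ((400000 * n : ℕ) : ℝ) - 1 - c := by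
        rw [Nat.cast_sub (by omega), Nat.cast_sub (by omega)]
        simp
      rw [h2] at g2 g3
      rw [hx]
      refine ⟨?_, ?_, ?_⟩
      · rw [hγ1, Complex.conj_im, abs_neg]
        exact g1.trans (le_abs_self _)
      · nlinarith
      · nlinarith
    · rw [Finset.sum_image (fun a _ b _ hab => γ.injective hab)]
      refine hF2.trans (le_of_eq (Finset.sum_congr rfl fun i _ => ?_))
      unfold wt
      rw [hx, hγ2, neg_div, neg_sq]

/-- **Positivity of the form.** -/
theorem conv_core (C : Cf u m) (hLB : LBc u m) : ∃ K H0 : ℝ, 0 < K ∧ ∀ D : ℕ, ∀ H : ℝ, H0 ≤ H →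
    K * ((D + 1 : ℕ) : ℝ) * Real.log H ≤ H → ∀ R : ℂ[X], R.natDegree ≤ D → R ≠ 0 →
    (∀ i, |(u i).im| < H → (u i).re ≠ 0 → R.eval (u i) = 0 ∨ R.eval (-conj (u i)) = 0) →
    0 < ∑' i, m i * (G D R (u i)).re := by
  classical
  obtain ⟨c1, K0, H0, hc1, hK0, hlow⟩ := mass_lower C hLB
  obtain ⟨C1, H1, hC1, hup⟩ := mass_upper C
  set CS : ℝ := 64 * 1600000 ^ 2 + 800000 with hCS
  have hCS0 : 0 < CS := by rw [hCS]; norm_num
  set K3 : ℝ := 4000000 * C1 * CS / c1 with hK3
  have hK30 : 0 < K3 := by positivity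
  refine ⟨K0 + 4000000 + K3, max (max H0 H1) 16, by positivity, ?_⟩
  intro D H hHH hKH R hR hR0 hkill
  have hHH0 : H0 ≤ H := ((le_max_left _ _).trans (le_max_left _ _)).trans hHH
  have hHH1 : H1 ≤ H := ((le_max_right _ _).trans (le_max_left _ _)).trans hHH
  have hH16 : 16 ≤ H := (le_max_right _ _).trans hHH
  obtain ⟨n, hn⟩ : ∃ n : ℕ, n = D + 1 := ⟨_, rfl⟩
  rw [← hn] at hKH
  have hn1 : 1 ≤ n := by omega
  have hnr : (1 : ℝ) ≤ n := by exact_mod_cast hn1
  have hH0 : 0 < H := by linarith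
  have hlog : 1 ≤ Real.log H := by
    rw [Real.le_log_iff_exp_le hH0]
    linarith [Real.exp_one_lt_d9]
  have hnlog : (n : ℝ) ≤ n * Real.log H := le_mul_of_one_le_right (by linarith) hlog
  have e1 : K0 * n * Real.log H ≤ H := by
    refine le_trans ?_ hKH
    have : 0 ≤ (4000000 + K3) * (n * Real.log H) := by positivity
    nlinarith
  have e2 : 4000000 * n ≤ H := by
    refine le_trans ?_ hKH
    have h1 : 0 ≤ (K0 + K3) * (n * Real.log H) := by positivity
    nlinarith
  have e3 : K3 * n ≤ H := by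
    refine le_trans ?_ hKH
    have h1 : 0 ≤ (K0 + 4000000) * (n * Real.log H) := by positivity
    have h2 : K3 * n ≤ K3 * (n * Real.log H) := by gcongr
    nlinarith
  have hnH : (n : ℝ) ≤ H := by linarith
  have hd := dl_mul hn1
  have hd0 := dl_pos hn1
  have hNC := NC_dl hn1
  set P := PP D H R with hP
  have hPd : P.natDegree ≤ n := (PP_natDegree D H R).trans (by omega)
  set μ := dl n / H * Real.log H with hμ
  have hμ0 : 0 < μ := by positivity
  have hcell := cells_lower C hn1 (hlow n hn1 H hHH0 hnH e1)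
  choose! F hF1 hF2 using hcell
  have hFne : ∀ c < NC n, (F c).Nonempty := by
    intro c hc
    rw [Finset.nonempty_iff_ne_empty]
    intro h
    have h1 := hF2 c hc
    rw [h, Finset.sum_empty] at h1
    have : 0 < c1 * μ := by positivity
    linarith
  have hsel : ∀ c < NC n, ∃ i ∈ F c, ∀ j ∈ F c, ‖P.eval (yv P H (u i))‖ ≤ ‖P.eval (yv P H (u j))‖ :=
    fun c hc => Finset.exists_min_image (F c) (fun i => ‖P.eval (yv P H (u i))‖) (hFne c hc)
  have hι : Nonempty ι := by
    obtain ⟨i, -⟩ := hFne 0 (by unfold NC; omega)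
    exact ⟨i⟩
  choose! is his1 his2 using hsel
  set a : ℕ → ℂ := fun c => yv P H (u (is c)) with ha
  have hmid : ∀ i, H / 2 ≤ |(u i).im| → |(xv H (u i)).im| ≤ dl n / 10 := by
    intro i hi
    have htpos : 0 < |(u i).im| := by linarith
    refine (xv_im_le hH0 (C.re_lt i) (abs_pos.mp htpos)).trans ?_
    have h1 : (H / 2) ^ 2 ≤ |(u i).im| ^ 2 := by gcongr
    rw [sq_abs] at h1
    have h2 : dl n / 10 = 1 / (2000000 * n) := by
      rw [dl]
      field_simp
      norm_num
    rw [h2, div_le_div_iff₀ (by nlinarith) (by positivity)]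
    nlinarith
  have hnodes : Nodes n a := by
    intro c hc
    obtain ⟨g1, g2, g3⟩ := hF1 c hc (is c) (his1 c hc)
    rw [ha]
    simp only
    rw [yv_re, yv_im]
    exact ⟨g2.le, g3.le, hmid _ g1⟩
  -- the kernel sums
  set Φ : ℕ → ℝ := fun c0 => ∑ c ∈ Finset.range (NC n), ker n c0 c * ‖P.eval (a c)‖ ^ 2 with hΦ
  have hΦ0 : ∀ c0, 0 ≤ Φ c0 := fun c0 => Finset.sum_nonneg fun c _ =>
    mul_nonneg (ker_nonneg _ _ _) (sq_nonneg _)
  set cc : ι → ℕ := fun i => ⌊((xv H (u i)).re + 2) / dl n⌋₊ with hcc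
  set E : ℝ := 1000000 * n / H with hE
  have hE0 : 0 ≤ E := by positivity
  set err : ι → ℝ := fun i => if H ≤ |(u i).im| then m i * wt H (u i) * (E * Φ (cc i)) else 0 with herr
  have hwt0 : ∀ v, 0 ≤ wt H v := fun v => sq_nonneg _
  have herr0 : ∀ i, 0 ≤ err i := by
    intro i
    rw [herr]
    simp only
    split_ifs
    · exact mul_nonneg (mul_nonneg (C.m_nonneg i) (hwt0 _)) (mul_nonneg hE0 (hΦ0 _))
    · exact le_rfl
  -- the main terms
  set U : Finset ι := (Finset.range (NC n)).biUnion F with hU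
  have hdisj : Set.PairwiseDisjoint (↑(Finset.range (NC n))) F := by
    intro c hc c' hc' hne
    rw [Function.onFun, Finset.disjoint_left]
    intro i hi hi'
    rw [Finset.mem_coe, Finset.mem_range] at hc hc'
    obtain ⟨-, g2, g3⟩ := hF1 c hc i hi
    obtain ⟨-, g2', g3'⟩ := hF1 c' hc' i hi'
    rcases lt_or_gt_of_ne hne with h | h
    · have h1 : (c : ℝ) + 1 ≤ c' := by exact_mod_cast h
      have h2 : ((c : ℝ) + 1) * dl n ≤ c' * dl n := by gcongr
      linarith
    · have h1 : (c' : ℝ) + 1 ≤ c := by exact_mod_cast h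
      have h2 : ((c' : ℝ) + 1) * dl n ≤ c * dl n := by gcongr
      linarith
  -- pointwise lower bound
  have hpt : ∀ i, (if i ∈ U then m i * wt H (u i) * (1 / 2 * ‖P.eval (yv P H (u i))‖ ^ 2) else 0) ≤
      m i * (G D R (u i)).re + err i := by
    intro i
    have hm := C.m_nonneg i
    by_cases hfar : H ≤ |(u i).im|
    · have h1 := far_node hR hn (by linarith : 1000000 * (n : ℝ) ≤ H) (C.re_lt i) hfar hnodes
      have h2 : err i = m i * wt H (u i) * (E * Φ (cc i)) := by
        rw [herr]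
        simp only
        rw [if_pos hfar]
      rw [h2]
      have h3 : m i * (wt H (u i) * (1 / 2 * ‖P.eval (yv P H (u i))‖ ^ 2 - E * Φ (cc i))) ≤
          m i * (G D R (u i)).re := mul_le_mul_of_nonneg_left h1 hm
      split_ifs
      · linarith
      · have h4 : 0 ≤ m i * (wt H (u i) * (1 / 2 * ‖P.eval (yv P H (u i))‖ ^ 2)) := by
          have := hwt0 (u i)
          positivity
        linarith
    · have h2 : err i = 0 := by
        rw [herr]
        simp only
        rw [if_neg hfar]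
      rw [h2, add_zero]
      push Not at hfar
      by_cases hre : (u i).re = 0
      · split_ifs with hiU
        · have hHi : H / 2 ≤ |(u i).im| := by
            rw [hU, Finset.mem_biUnion] at hiU
            obtain ⟨c, hc, hic⟩ := hiU
            exact (hF1 c (Finset.mem_range.mp hc) i hic).1
          have h3 := mid_line hR hH16 (by rw [← hn]; exact hnH) hre hHi
          have h4 := mul_le_mul_of_nonneg_left h3 hm
          calc m i * wt H (u i) * (1 / 2 * ‖P.eval (yv P H (u i))‖ ^ 2) =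
              m i * (wt H (u i) * (1 / 2 * ‖P.eval (yv P H (u i))‖ ^ 2)) := by ring
            _ ≤ _ := h4
        · exact mul_nonneg hm (G_line D R hre)
      · have hk := hkill i hfar hre
        have hG : G D R (u i) = 0 := by
          unfold G
          rcases hk with h | h
          · rw [h, zero_mul, zero_div]
          · rw [h, map_zero, mul_zero, zero_div]
        rw [hG, Complex.zero_re, mul_zero]
        split_ifs with hiU
        · have hHi : H / 2 ≤ |(u i).im| := by
            rw [hU, Finset.mem_biUnion] at hiU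
            obtain ⟨c, hc, hic⟩ := hiU
            exact (hF1 c (Finset.mem_range.mp hc) i hic).1
          have ht0 : (u i).im ≠ 0 := abs_pos.mp (by linarith)
          have hv0 : u i ≠ 0 := by
            intro h
            rw [h] at ht0
            simp at ht0
          have hz : ‖P.eval (yv P H (u i))‖ = 0 := by
            apply le_antisymm _ (norm_nonneg _)
            rcases hk with h | h
            · rw [PP_eval hR hH0.ne' hv0] at h
              have h5 := (mul_eq_zero.mp h).resolve_left (pow_ne_zero _ hv0)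
              refine (yv_le P H (u i)).trans ?_
              rw [hP, h5, norm_zero]
            · have hv0' : -conj (u i) ≠ 0 := by
                rw [neg_ne_zero]
                rwa [Ne, map_eq_zero]
              rw [PP_eval hR hH0.ne' hv0'] at h
              have h5 := (mul_eq_zero.mp h).resolve_left (pow_ne_zero _ hv0')
              have h6 : xv H (-conj (u i)) = conj (xv H (u i)) := by
                unfold xv
                rw [map_div₀, map_mul, Complex.conj_I, Complex.conj_ofReal, ← neg_div_neg_eq]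
                simp
              rw [h6] at h5
              refine (yv_le' P H (u i)).trans ?_
              rw [hP, h5, norm_zero]
          rw [hz]
          simp
        · exact le_rfl
  -- the errors
  have herrsum : ∀ S : Finset ι, ∑ i ∈ S, err i ≤ E * (C1 * μ) * ∑ c0 ∈ Finset.range (NC n), Φ c0 := by
    intro S
    have h1 : ∑ i ∈ S, err i = ∑ i ∈ S.filter (fun i => H ≤ |(u i).im|), m i * wt H (u i) * (E * Φ (cc i)) := by
      rw [Finset.sum_filter]
    have hccN : ∀ i ∈ S.filter (fun i => H ≤ |(u i).im|), cc i ∈ Finset.range (NC n) := by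
      intro i hi
      rw [Finset.mem_filter] at hi
      have htpos : 0 < |(u i).im| := by linarith [hi.2]
      have h2 := xv_re_le hH0 (abs_pos.mp htpos)
      have h3 : H / |(u i).im| ≤ 1 := by
        rw [div_le_one htpos]
        exact hi.2
      have h4 := abs_le.mp (h2.trans h3)
      rw [Finset.mem_range, hcc]
      simp only
      rw [Nat.floor_lt (div_nonneg (by linarith) hd0.le), div_lt_iff₀ hd0, hNC]
      linarith
    rw [h1, ← Finset.sum_fiberwise_of_maps_to hccN, Finset.mul_sum]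
    refine Finset.sum_le_sum fun c0 hc0 => ?_
    have h2 : ∀ i ∈ (S.filter (fun i => H ≤ |(u i).im|)).filter (fun i => cc i = c0),
        m i * wt H (u i) * (E * Φ (cc i)) = E * Φ c0 * (m i * wt H (u i)) := by
      intro i hi
      rw [Finset.mem_filter] at hi
      rw [hi.2]
      ring
    rw [Finset.sum_congr rfl h2, ← Finset.mul_sum]
    have hc0' := Finset.mem_range.mp hc0
    have hmass : ∑ i ∈ (S.filter (fun i => H ≤ |(u i).im|)).filter (fun i => cc i = c0), m i * wt H (u i) ≤
        C1 * μ := by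
      have hZ : ((400000 * n : ℕ) : ℝ) * dl n = 2 := by
        push_cast
        linarith
      have hfl : ∀ i ∈ (S.filter (fun i => H ≤ |(u i).im|)).filter (fun i => cc i = c0),
          H ≤ |(u i).im| ∧ c0 * dl n ≤ (xv H (u i)).re + 2 ∧ (xv H (u i)).re + 2 ≤ (c0 + 1) * dl n := by
        intro i hi
        rw [Finset.mem_filter, Finset.mem_filter] at hi
        obtain ⟨⟨-, hi1⟩, hi2⟩ := hi
        have htpos : 0 < |(u i).im| := by linarith
        have h2 := xv_re_le hH0 (abs_pos.mp htpos)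
        have h3 : H / |(u i).im| ≤ 1 := by
          rw [div_le_one htpos]
          exact hi1
        have h4 := abs_le.mp (h2.trans h3)
        have hf1 : ((cc i : ℕ) : ℝ) ≤ ((xv H (u i)).re + 2) / dl n :=
          Nat.floor_le (div_nonneg (by linarith) hd0.le)
        have hf2 : ((xv H (u i)).re + 2) / dl n < (cc i : ℕ) + 1 := Nat.lt_floor_add_one _
        rw [le_div_iff₀ hd0, hi2] at hf1
        rw [div_lt_iff₀ hd0, hi2] at hf2
        exact ⟨hi1, hf1, hf2.le⟩
      rcases le_or_gt (400000 * n) c0 with hcase | hcase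
      · refine hup n hn1 H hHH1 hnH (c0 - 400000 * n) (by unfold NC at hc0'; omega) _ fun i hi => ?_
        obtain ⟨g1, g2, g3⟩ := hfl i hi
        have h5 : ((c0 - 400000 * n : ℕ) : ℝ) = c0 - ((400000 * n : ℕ) : ℝ) := by rw [Nat.cast_sub hcase]
        have h6 : ((400000 * n : ℕ) : ℝ) ≤ c0 := by exact_mod_cast hcase
        rw [h5]
        have h7 : 0 ≤ (xv H (u i)).re := by nlinarith
        rw [abs_of_nonneg h7]
        refine ⟨g1, ?_, ?_⟩ <;> nlinarith
      · refine hup n hn1 H hHH1 hnH (400000 * n - 1 - c0) (by omega) _ fun i hi => ?_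
        obtain ⟨g1, g2, g3⟩ := hfl i hi
        have h5 : ((400000 * n - 1 - c0 : ℕ) : ℝ) = ((400000 * n : ℕ) : ℝ) - 1 - c0 := by
          rw [Nat.cast_sub (by omega), Nat.cast_sub (by omega)]
          simp
        have h6 : (c0 : ℝ) + 1 ≤ ((400000 * n : ℕ) : ℝ) := by exact_mod_cast hcase
        rw [h5]
        have h7 : (xv H (u i)).re ≤ 0 := by nlinarith
        rw [abs_of_nonpos h7]
        refine ⟨g1, ?_, ?_⟩ <;> nlinarith
    have h3 : 0 ≤ E * Φ c0 := mul_nonneg hE0 (hΦ0 _)
    calc E * Φ c0 * ∑ i ∈ (S.filter (fun i => H ≤ |(u i).im|)).filter (fun i => cc i = c0), m i * wt H (u i) ≤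
        E * Φ c0 * (C1 * μ) := by gcongr
      _ = E * (C1 * μ) * Φ c0 := by ring
  have herrS : Summable err := summable_of_sum_le herr0 herrsum
  have herrT : ∑' i, err i ≤ E * (C1 * μ) * ∑ c0 ∈ Finset.range (NC n), Φ c0 := herrS.tsum_le_of_sum_le herrsum
  -- sums of the nodes
  set V := ∑ c ∈ Finset.range (NC n), ‖P.eval (a c)‖ ^ 2 with hV
  have hV0 : 0 ≤ V := Finset.sum_nonneg fun c _ => sq_nonneg _
  have hΦsum : ∑ c0 ∈ Finset.range (NC n), Φ c0 ≤ CS * V := by
    rw [hΦ, hV, Finset.mul_sum]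
    simp only
    rw [Finset.sum_comm]
    refine Finset.sum_le_sum fun c _ => ?_
    rw [← Finset.sum_mul]
    gcongr
    exact ker_sum n c
  have hmain : c1 * μ * (1 / 2) * V ≤ ∑ i ∈ U, m i * wt H (u i) * (1 / 2 * ‖P.eval (yv P H (u i))‖ ^ 2) := by
    rw [hU, Finset.sum_biUnion hdisj, hV, Finset.mul_sum]
    refine Finset.sum_le_sum fun c hc => ?_
    have hc' := Finset.mem_range.mp hc
    have h1 := hF2 c hc'
    calc c1 * μ * (1 / 2) * ‖P.eval (a c)‖ ^ 2 = c1 * μ * (1 / 2 * ‖P.eval (a c)‖ ^ 2) := by ring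
      _ ≤ (∑ i ∈ F c, m i * wt H (u i)) * (1 / 2 * ‖P.eval (a c)‖ ^ 2) := by gcongr
      _ = ∑ i ∈ F c, m i * wt H (u i) * (1 / 2 * ‖P.eval (a c)‖ ^ 2) := by rw [Finset.sum_mul]
      _ ≤ _ := by
        refine Finset.sum_le_sum fun i hi => ?_
        have h2 := his2 c hc' i hi
        have h3 := C.m_nonneg i
        have h4 := hwt0 (u i)
        gcongr
  have hGs := C.summable_GD hR
  have hsum1 : ∑ i ∈ U, m i * wt H (u i) * (1 / 2 * ‖P.eval (yv P H (u i))‖ ^ 2) ≤
      ∑' i, (m i * (G D R (u i)).re + err i) := by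
    have h1 : ∑ i ∈ U, m i * wt H (u i) * (1 / 2 * ‖P.eval (yv P H (u i))‖ ^ 2) ≤
        ∑ i ∈ U, (m i * (G D R (u i)).re + err i) := by
      refine Finset.sum_le_sum fun i hi => ?_
      have := hpt i
      rwa [if_pos hi] at this
    refine h1.trans ((hGs.add herrS).sum_le_tsum U fun i hi => ?_)
    have := hpt i
    rwa [if_neg hi] at this
  rw [hGs.tsum_add herrS] at hsum1
  have hVpos : 0 < V := by
    rcases eq_or_lt_of_le hV0 with h | h
    · exfalso
      have hz : ∀ c < NC n, ‖P.eval (a c)‖ ≤ 0 := by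
        intro c hc
        have h1 := (Finset.sum_eq_zero_iff_of_nonneg (fun c _ => sq_nonneg _)).mp h.symm c (Finset.mem_range.mpr hc)
        exact (pow_eq_zero_iff (by norm_num)).mp h1 |>.le
      have hP0 : P = 0 := by
        apply Polynomial.eq_zero_of_infinite_isRoot
        have hsub : (fun x : ℝ => (x : ℂ)) '' Set.Icc (-2 : ℝ) 2 ⊆ {z | P.IsRoot z} := by
          rintro _ ⟨x, hx, rfl⟩
          show P.eval (x : ℂ) = 0
          have h1 := crude hn1 hPd hnodes hz (abs_le.mpr hx)
          rw [mul_zero] at h1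
          exact norm_le_zero_iff.mp h1
        refine Set.Infinite.mono hsub ?_
        exact (Set.Icc_infinite (by norm_num)).image Complex.ofReal_injective.injOn
      apply hR0
      ext j
      rw [Polynomial.coeff_zero]
      rcases le_or_gt j D with hj | hj
      · have h1 : P.coeff (D - j) = R.coeff j * (1 / (I * H)) ^ (D - j) := by
          rw [hP]
          unfold PP
          rw [Polynomial.finsetSum_coeff]
          simp only [Polynomial.coeff_C_mul, Polynomial.coeff_X_pow]
          rw [Finset.sum_eq_single (D - j)]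
          · rw [if_pos rfl, mul_one]
            congr 2
            omega
          · intro k _ hk
            rw [if_neg (Ne.symm hk), mul_zero]
          · intro h
            exfalso
            apply h
            rw [Finset.mem_range]
            omega
        rw [hP0, Polynomial.coeff_zero] at h1
        have h2 : (1 / (I * (H : ℂ))) ^ (D - j) ≠ 0 := by
          apply pow_ne_zero
          apply one_div_ne_zero
          exact mul_ne_zero I_ne_zero (by exact_mod_cast hH0.ne')
        exact (mul_eq_zero.mp h1.symm).resolve_right h2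
      · exact Polynomial.coeff_eq_zero_of_natDegree_lt (lt_of_le_of_lt hR hj)
    · exact h
  -- conclusion
  have hfin : E * (C1 * μ) * (CS * V) ≤ c1 * μ * (1 / 4) * V := by
    have h1 : E * C1 * CS ≤ c1 / 4 := by
      rw [hE, div_mul_eq_mul_div, div_mul_eq_mul_div, div_le_div_iff₀ hH0 (by norm_num)]
      have h2 : K3 * n * c1 ≤ H * c1 := by gcongr
      have h3 : K3 * n * c1 = 4000000 * C1 * CS * n := by
        rw [hK3]
        field_simp
      rw [h3] at h2
      linarith
    calc E * (C1 * μ) * (CS * V) = E * C1 * CS * (μ * V) := by ring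
      _ ≤ c1 / 4 * (μ * V) := by gcongr
      _ = _ := by ring
  have h5 : E * (C1 * μ) * ∑ c0 ∈ Finset.range (NC n), Φ c0 ≤ E * (C1 * μ) * (CS * V) := by gcongr
  have h6 : 0 < c1 * μ * (1 / 4) * V := by positivity
  linarith

end Pool.Agent.Helper76.LW
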