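import Mathlib

set_option autoImplicit false

/-!
# Counting negative eigenvalues of real symmetric matrices with complex test vectors
-/

namespace Pool.Agent.Helper76.LW

open scoped ComplexConjugate

/-- number of negative eigenvalues, as the number of negative roots of the characteristic polynomial
(with multiplicity) -/
noncomputable def negEigs {N : ℕ} (A : Matrix (Fin N) (Fin N) ℝ) : ℕ :=
  Multiset.card (A.charpoly.roots.filter fun x => x < 0)

/-- the Hermitian form of a real matrix -/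
noncomputable def hform {N : ℕ} (A : Matrix (Fin N) (Fin N) ℝ) (a : Fin N → ℂ) : ℝ :=
  ∑ j, ∑ k, (a j * conj (a k)).re * A j k

variable {N : ℕ} {A : Matrix (Fin N) (Fin N) ℝ}

lemma negEigs_eq (hA : A.IsHermitian) :
    negEigs A = (Finset.univ.filter fun i => hA.eigenvalues i < 0).card := by
  classical
  unfold negEigs
  rw [hA.roots_charpoly_eq_eigenvalues, Multiset.filter_map, Multiset.card_map]
  rfl

lemma entries (hA : A.IsHermitian) (j k : Fin N) :
    A j k = ∑ i, hA.eigenvalues i * ((hA.eigenvectorUnitary : Matrix (Fin N) (Fin N) ℝ) j i *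
      (hA.eigenvectorUnitary : Matrix (Fin N) (Fin N) ℝ) k i) := by
  conv_lhs => rw [hA.spectral_theorem, Unitary.conjStarAlgAut_apply]
  rw [Matrix.mul_apply]
  refine Finset.sum_congr rfl fun i _ => ?_
  rw [Matrix.mul_diagonal]
  simp only [Function.comp_apply, Matrix.star_apply, star_trivial, RCLike.ofReal_real_eq_id, id_eq]
  ring

lemma hform_eq (hA : A.IsHermitian) (a : Fin N → ℂ) :
    hform A a = ∑ i, hA.eigenvalues i *
      ‖∑ j, ((hA.eigenvectorUnitary : Matrix (Fin N) (Fin N) ℝ) j i : ℂ) * a j‖ ^ 2 := by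
  unfold hform
  have h1 : ∀ i, ‖∑ j, ((hA.eigenvectorUnitary : Matrix (Fin N) (Fin N) ℝ) j i : ℂ) * a j‖ ^ 2 =
      ∑ j, ∑ k, (a j * conj (a k)).re * ((hA.eigenvectorUnitary : Matrix (Fin N) (Fin N) ℝ) j i *
        (hA.eigenvectorUnitary : Matrix (Fin N) (Fin N) ℝ) k i) := by
    intro i
    have h2 : ((‖∑ j, ((hA.eigenvectorUnitary : Matrix (Fin N) (Fin N) ℝ) j i : ℂ) * a j‖ ^ 2 : ℝ) : ℂ) =
        (∑ j, ((hA.eigenvectorUnitary : Matrix (Fin N) (Fin N) ℝ) j i : ℂ) * a j) *
          conj (∑ j, ((hA.eigenvectorUnitary : Matrix (Fin N) (Fin N) ℝ) j i : ℂ) * a j) := by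
      rw [Complex.mul_conj, Complex.normSq_eq_norm_sq]
    rw [map_sum, Finset.sum_mul_sum] at h2
    have h3 := congrArg Complex.re h2
    rw [Complex.ofReal_re, Complex.re_sum] at h3
    rw [h3]
    refine Finset.sum_congr rfl fun j _ => ?_
    rw [Complex.re_sum]
    refine Finset.sum_congr rfl fun k _ => ?_
    rw [map_mul, Complex.conj_ofReal]
    have h4 : ((hA.eigenvectorUnitary : Matrix (Fin N) (Fin N) ℝ) j i : ℂ) * a j *
        (((hA.eigenvectorUnitary : Matrix (Fin N) (Fin N) ℝ) k i : ℂ) * conj (a k)) =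
        a j * conj (a k) * (((hA.eigenvectorUnitary : Matrix (Fin N) (Fin N) ℝ) j i *
        (hA.eigenvectorUnitary : Matrix (Fin N) (Fin N) ℝ) k i : ℝ) : ℂ) := by
      push_cast
      ring
    rw [h4, Complex.re_mul_ofReal]
  simp only [h1, Finset.mul_sum]
  have h2 : ∀ j k : Fin N, (a j * conj (a k)).re * A j k = ∑ i, hA.eigenvalues i *
      ((a j * conj (a k)).re * ((hA.eigenvectorUnitary : Matrix (Fin N) (Fin N) ℝ) j i *
        (hA.eigenvectorUnitary : Matrix (Fin N) (Fin N) ℝ) k i)) := by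
    intro j k
    rw [entries hA j k, Finset.mul_sum]
    exact Finset.sum_congr rfl fun i _ => by ring
  simp only [h2]
  have h3 : ∀ j : Fin N, ∑ k, ∑ i, hA.eigenvalues i *
      ((a j * conj (a k)).re * ((hA.eigenvectorUnitary : Matrix (Fin N) (Fin N) ℝ) j i *
        (hA.eigenvectorUnitary : Matrix (Fin N) (Fin N) ℝ) k i)) = ∑ i, ∑ k, hA.eigenvalues i *
      ((a j * conj (a k)).re * ((hA.eigenvectorUnitary : Matrix (Fin N) (Fin N) ℝ) j i *
        (hA.eigenvectorUnitary : Matrix (Fin N) (Fin N) ℝ) k i)) := fun j => Finset.sum_comm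
  simp only [h3]
  exact Finset.sum_comm

lemma ortho (hA : A.IsHermitian) (i l : Fin N) :
    ∑ j, (hA.eigenvectorUnitary : Matrix (Fin N) (Fin N) ℝ) j i *
      (hA.eigenvectorUnitary : Matrix (Fin N) (Fin N) ℝ) j l = if i = l then 1 else 0 := by
  have h : star (hA.eigenvectorUnitary : Matrix (Fin N) (Fin N) ℝ) *
      (hA.eigenvectorUnitary : Matrix (Fin N) (Fin N) ℝ) = 1 := Unitary.coe_star_mul_self _
  have h2 := congrFun (congrFun h i) l
  rw [Matrix.mul_apply, Matrix.one_apply] at h2
  simpa only [Matrix.star_apply, star_trivial] using h2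

/-- an upper bound for the number of negative eigenvalues -/
theorem negEigs_le (hA : A.IsHermitian) {κ : Type*} [Fintype κ] (φ : κ → ((Fin N → ℂ) →ₗ[ℂ] ℂ))
    (h : ∀ a : Fin N → ℂ, (∀ k, φ k a = 0) → 0 ≤ hform A a) : negEigs A ≤ Fintype.card κ := by
  classical
  by_contra hcon
  push Not at hcon
  rw [negEigs_eq hA] at hcon
  set Neg := {i : Fin N // hA.eigenvalues i < 0} with hNeg
  have hcard : Fintype.card Neg = (Finset.univ.filter fun i => hA.eigenvalues i < 0).card := by
    rw [Fintype.card_subtype]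
  rw [← hcard] at hcon
  set U := (hA.eigenvectorUnitary : Matrix (Fin N) (Fin N) ℝ) with hU
  -- the vectors
  let V : (Neg → ℂ) →ₗ[ℂ] (Fin N → ℂ) :=
    { toFun := fun c j => ∑ i : Neg, c i * (U j i : ℂ)
      map_add' := fun c d => by
        funext j
        simp only [Pi.add_apply, add_mul, Finset.sum_add_distrib]
      map_smul' := fun r c => by
        funext j
        simp only [Pi.smul_apply, smul_eq_mul, RingHom.id_apply, Finset.mul_sum, mul_assoc] }
  let f : (Neg → ℂ) →ₗ[ℂ] (κ → ℂ) := (LinearMap.pi φ).comp V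
  have hker : LinearMap.ker f ≠ ⊥ := by
    apply LinearMap.ker_ne_bot_of_finrank_lt
    rw [Module.finrank_fintype_fun_eq_card, Module.finrank_fintype_fun_eq_card]
    exact hcon
  obtain ⟨c, hc, hc0⟩ := Submodule.exists_mem_ne_zero_of_ne_bot hker
  rw [LinearMap.mem_ker] at hc
  have h1 := h (V c) (fun k => congrFun hc k)
  rw [hform_eq hA] at h1
  have hcoef : ∀ l : Fin N, (∑ j, (U j l : ℂ) * V c j) = if hl : hA.eigenvalues l < 0 then c ⟨l, hl⟩ else 0 := by
    intro l
    have h2 : ∑ j, (U j l : ℂ) * V c j = ∑ i : Neg, c i * ((∑ j, U j i * U j l : ℝ) : ℂ) := by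
      show ∑ j, (U j l : ℂ) * (∑ i : Neg, c i * (U j i : ℂ)) = _
      simp only [Finset.mul_sum]
      rw [Finset.sum_comm]
      refine Finset.sum_congr rfl fun i _ => ?_
      push_cast
      rw [Finset.mul_sum]
      exact Finset.sum_congr rfl fun j _ => by ring
    rw [h2]
    simp only [hU, ortho hA]
    split_ifs with hl
    · rw [Finset.sum_eq_single ⟨l, hl⟩]
      · simp
      · intro i _ hi
        rw [if_neg]
        · simp
        · intro hil
          exact hi (Subtype.ext hil)
      · simp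
    · refine Finset.sum_eq_zero fun i _ => ?_
      rw [if_neg]
      · simp
      · intro hil
        exact hl (hil ▸ i.2)
  have h3 : ∑ l, hA.eigenvalues l * ‖∑ j, (U j l : ℂ) * V c j‖ ^ 2 < 0 := by
    obtain ⟨i, hi⟩ : ∃ i, c i ≠ 0 := by
      by_contra hall
      push Not at hall
      exact hc0 (funext hall)
    have hle : ∀ l ∈ (Finset.univ : Finset (Fin N)), hA.eigenvalues l * ‖∑ j, (U j l : ℂ) * V c j‖ ^ 2 ≤ 0 := by
      intro l _
      rw [hcoef]
      split_ifs with hl
      · exact mul_nonpos_of_nonpos_of_nonneg hl.le (sq_nonneg _)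
      · simp
    refine Finset.sum_neg' hle ⟨i.1, Finset.mem_univ _, ?_⟩
    rw [hcoef, dif_pos i.2]
    have h4 : 0 < ‖c ⟨i.1, i.2⟩‖ := norm_pos_iff.mpr hi
    have h5 := i.2
    nlinarith [mul_pos h4 h4, mul_pos (neg_pos.mpr h5) (mul_pos h4 h4)]
  linarith

/-- a lower bound for the number of negative eigenvalues -/
theorem le_negEigs (hA : A.IsHermitian) {κ : Type*} [Fintype κ] (R : κ → (Fin N → ℂ))
    (h : ∀ a : κ → ℂ, a ≠ 0 → hform A (∑ k, a k • R k) < 0) : Fintype.card κ ≤ negEigs A := by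
  classical
  by_contra hcon
  push Not at hcon
  rw [negEigs_eq hA] at hcon
  set Neg := {i : Fin N // hA.eigenvalues i < 0} with hNeg
  have hcard : Fintype.card Neg = (Finset.univ.filter fun i => hA.eigenvalues i < 0).card := by
    rw [Fintype.card_subtype]
  rw [← hcard] at hcon
  set U := (hA.eigenvectorUnitary : Matrix (Fin N) (Fin N) ℝ) with hU
  let f : (κ → ℂ) →ₗ[ℂ] (Neg → ℂ) :=
    { toFun := fun a i => ∑ j, (U j i : ℂ) * (∑ k, a k • R k) j
      map_add' := fun a b => by
        funext i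
        simp only [Pi.add_apply, add_smul, Finset.sum_add_distrib, mul_add]
      map_smul' := fun r a => by
        funext i
        simp only [Pi.smul_apply, smul_eq_mul, RingHom.id_apply, Finset.mul_sum, Finset.sum_apply]
        refine Finset.sum_congr rfl fun j _ => Finset.sum_congr rfl fun k _ => ?_
        ring }
  have hker : LinearMap.ker f ≠ ⊥ := by
    apply LinearMap.ker_ne_bot_of_finrank_lt
    rw [Module.finrank_fintype_fun_eq_card, Module.finrank_fintype_fun_eq_card]
    exact hcon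
  obtain ⟨a, ha, ha0⟩ := Submodule.exists_mem_ne_zero_of_ne_bot hker
  rw [LinearMap.mem_ker] at ha
  have h1 := h a ha0
  rw [hform_eq hA] at h1
  have h2 : 0 ≤ ∑ i, hA.eigenvalues i * ‖∑ j, (U j i : ℂ) * (∑ k, a k • R k) j‖ ^ 2 := by
    refine Finset.sum_nonneg fun i _ => ?_
    by_cases hi : hA.eigenvalues i < 0
    · have h3 : ∑ j, (U j i : ℂ) * (∑ k, a k • R k) j = 0 := congrFun ha ⟨i, hi⟩
      rw [h3]
      simp
    · push Not at hi
      positivity
  linarith

end Pool.Agent.Helper76.LW
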