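import Pool.Agent.Helper76.LW.CoreF
import Pool.Agent.Helper76.LW.Conv
import Pool.Agent.Helper76.LW.LinAlg

set_option autoImplicit false

/-!
# The number of negative eigenvalues and the points off the line
-/

namespace Pool.Agent.Helper76.LW

open Complex Filter Topology Polynomial
open scoped ComplexConjugate

variable {ι : Type*} {u : ι → ℂ} {m : ι → ℝ}

/-- the polynomial in `u` attached to a vector -/
noncomputable def RP (D : ℕ) (a : Fin (D + 1) → ℂ) : ℂ[X] :=
  ∑ j : Fin (D + 1), Polynomial.C (a j) * ((X - Polynomial.C (1 / 2)) ^ (j : ℕ) *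
    (X + Polynomial.C (1 / 2)) ^ (D - (j : ℕ)))

lemma RP_natDegree (D : ℕ) (a : Fin (D + 1) → ℂ) : (RP D a).natDegree ≤ D := by
  unfold RP
  refine Polynomial.natDegree_sum_le_of_forall_le _ _ fun j _ => ?_
  have hj : (j : ℕ) ≤ D := Nat.lt_succ_iff.mp j.2
  refine (Polynomial.natDegree_C_mul_le _ _).trans (Polynomial.natDegree_mul_le.trans ?_)
  have h1 : ((X - Polynomial.C (1 / 2 : ℂ)) ^ (j : ℕ)).natDegree ≤ (j : ℕ) := by
    refine Polynomial.natDegree_pow_le.trans ?_
    rw [Polynomial.natDegree_X_sub_C, mul_one]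
  have h2 : ((X + Polynomial.C (1 / 2 : ℂ)) ^ (D - (j : ℕ))).natDegree ≤ D - (j : ℕ) := by
    refine Polynomial.natDegree_pow_le.trans ?_
    rw [Polynomial.natDegree_X_add_C, mul_one]
  omega

lemma RP_eval (D : ℕ) (a : Fin (D + 1) → ℂ) {v : ℂ} (hv : v + 1 / 2 ≠ 0) :
    (RP D a).eval v = (v + 1 / 2) ^ D * ∑ j : Fin (D + 1), a j * zv v ^ (j : ℕ) := by
  unfold RP
  rw [Polynomial.eval_finsetSum, Finset.mul_sum]
  refine Finset.sum_congr rfl fun j _ => ?_
  have hj : (j : ℕ) ≤ D := Nat.lt_succ_iff.mp j.2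
  simp only [Polynomial.eval_mul, Polynomial.eval_C, Polynomial.eval_pow, Polynomial.eval_sub,
    Polynomial.eval_add, Polynomial.eval_X]
  unfold zv
  have h2 : (v + 1 / 2) ^ D = (v + 1 / 2) ^ (j : ℕ) * (v + 1 / 2) ^ (D - (j : ℕ)) := by
    rw [← pow_add]
    congr 1
    omega
  rw [h2, div_pow]
  have h3 := pow_ne_zero (j : ℕ) hv
  generalize (v + 1 / 2) ^ (j : ℕ) = A at *
  generalize (v + 1 / 2) ^ (D - (j : ℕ)) = B at *
  generalize (v - 1 / 2) ^ (j : ℕ) = E at *
  field_simp

lemma RP_form (D : ℕ) (a : Fin (D + 1) → ℂ) {v : ℂ} (hv : |v.re| < 1 / 2) :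
    wv v * ((∑ j : Fin (D + 1), a j * zv v ^ (j : ℕ)) *
      conj (∑ j : Fin (D + 1), a j * zv (-conj v) ^ (j : ℕ))) = G D (RP D a) v := by
  have hv' : |(-conj v).re| < 1 / 2 := by simpa using hv
  have h1 := half_add_ne hv
  have h2 := half_add_ne hv'
  unfold G
  rw [RP_eval D a h1, RP_eval D a h2]
  rw [map_mul, map_pow, map_add, map_neg, Complex.conj_conj, conj_half]
  have h3 : (1 : ℂ) / 4 - v ^ 2 = (v + 1 / 2) * (-v + 1 / 2) := by ring
  have h4 : -v + 1 / 2 ≠ 0 := by
    intro h
    apply half_sub_ne hv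
    linear_combination -h
  unfold wv
  rw [h3, pow_succ ((v + 1 / 2) * (-v + 1 / 2)), mul_pow]
  have h5 := pow_ne_zero D h1
  have h6 := pow_ne_zero D h4
  generalize (v + 1 / 2) ^ D = A at *
  generalize (-v + 1 / 2) ^ D = B at *
  generalize (∑ j : Fin (D + 1), a j * zv v ^ (j : ℕ)) = E at *
  generalize (conj (∑ j : Fin (D + 1), a j * zv (-conj v) ^ (j : ℕ))) = F at *
  generalize (v + 1 / 2) = P at *
  generalize (-v + 1 / 2) = Q at *
  field_simp

lemma hform_tsum (C : Cf u m) {D : ℕ} (a : Fin (D + 1) → ℂ) :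
    hform (Tm u m (D + 1)) a = ∑' i, m i * (G D (RP D a) (u i)).re := by
  have h := C.hasSum_form a
  unfold hform
  rw [← h.tsum_eq]
  exact tsum_congr fun i => by rw [RP_form D a (C.re_lt i)]

/-- Upper bound for the number of negative eigenvalues. -/
theorem sig_upper (C : Cf u m) (hLB : LBc u m) : ∃ K : ℝ, 0 < K ∧ ∃ N0 : ℕ, ∀ N : ℕ, N0 ≤ N →
    {i | 0 < (u i).re ∧ |(u i).im| < K * N * Real.log N}.Finite ∧
    negEigs (Tm u m N) ≤ {i | 0 < (u i).re ∧ |(u i).im| < K * N * Real.log N}.ncard ∧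
    ((∀ i, |(u i).im| < K * N * Real.log N → (u i).re = 0) → ∀ a : Fin N → ℂ, a ≠ 0 →
      0 < hform (Tm u m N) a) := by
  classical
  obtain ⟨K, H0, hK, hcore⟩ := conv_core C hLB
  have hlim : Tendsto (fun N : ℕ => 3 * K * N * Real.log N) atTop atTop := by
    have h1 : Tendsto (fun N : ℕ => (3 * K) * (N : ℝ)) atTop atTop :=
      tendsto_natCast_atTop_atTop.const_mul_atTop (by positivity)
    have h2 : Tendsto (fun N : ℕ => Real.log N) atTop atTop :=
      Real.tendsto_log_atTop.comp tendsto_natCast_atTop_atTop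
    exact h1.atTop_mul_atTop₀ h2
  obtain ⟨N1, hN1⟩ := eventually_atTop.mp (hlim.eventually_ge_atTop H0)
  refine ⟨3 * K, by positivity, max (max N1 ⌈3 * K⌉₊) 3, fun N hN => ?_⟩
  have hNN1 : N1 ≤ N := ((le_max_left _ _).trans (le_max_left _ _)).trans hN
  have hNK : 3 * K ≤ N := (Nat.le_ceil _).trans (by
    exact_mod_cast ((le_max_right _ _).trans (le_max_left _ _)).trans hN)
  have hN3 : 3 ≤ N := (le_max_right _ _).trans hN
  have hNr : (3 : ℝ) ≤ N := by exact_mod_cast hN3
  have hlogN : 1 ≤ Real.log N := by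
    rw [Real.le_log_iff_exp_le (by linarith)]
    linarith [Real.exp_one_lt_d9]
  set H := 3 * K * N * Real.log N with hH
  have hHH0 : H0 ≤ H := hN1 N hNN1
  have hH0 : 0 < H := by positivity
  have hfin : {i | 0 < (u i).re ∧ |(u i).im| < H}.Finite :=
    (C.finite H).subset fun i hi => hi.2.le
  obtain ⟨D, rfl⟩ : ∃ D, N = D + 1 := ⟨N - 1, by omega⟩
  have hlogH : Real.log H ≤ 3 * Real.log ((D + 1 : ℕ) : ℝ) := by
    have h1 : H ≤ ((D + 1 : ℕ) : ℝ) ^ 3 := by
      have h2 : Real.log ((D + 1 : ℕ) : ℝ) ≤ ((D + 1 : ℕ) : ℝ) :=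
        (Real.log_le_sub_one_of_pos (by linarith)).trans (by linarith)
      calc H ≤ ((D + 1 : ℕ) : ℝ) * ((D + 1 : ℕ) : ℝ) * ((D + 1 : ℕ) : ℝ) := by
            rw [hH]
            gcongr
        _ = _ := by ring
    calc Real.log H ≤ Real.log (((D + 1 : ℕ) : ℝ) ^ 3) := Real.log_le_log hH0 h1
      _ = _ := by
        rw [Real.log_pow]
        norm_num
  have hKH : K * ((D + 1 : ℕ) : ℝ) * Real.log H ≤ H := by
    calc K * ((D + 1 : ℕ) : ℝ) * Real.log H ≤ K * ((D + 1 : ℕ) : ℝ) * (3 * Real.log ((D + 1 : ℕ) : ℝ)) := by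
          gcongr
      _ = H := by
        rw [hH]
        ring
  have hpos := hcore D H hHH0 hKH
  refine ⟨hfin, ?_, ?_⟩
  · have : Fintype {i | 0 < (u i).re ∧ |(u i).im| < H} := hfin.fintype
    rw [Set.ncard_eq_toFinset_card' , Set.toFinset_card]
    let φ : {i | 0 < (u i).re ∧ |(u i).im| < H} → ((Fin (D + 1) → ℂ) →ₗ[ℂ] ℂ) := fun i =>
      { toFun := fun a => (RP D a).eval (u i)
        map_add' := fun a b => by
          unfold RP
          simp only [Pi.add_apply, map_add, add_mul, Finset.sum_add_distrib, Polynomial.eval_add]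
        map_smul' := fun r a => by
          unfold RP
          simp only [Pi.smul_apply, smul_eq_mul, map_mul, RingHom.id_apply, Polynomial.eval_finsetSum,
            Polynomial.eval_mul, Finset.mul_sum, Polynomial.eval_C, mul_assoc] }
    refine negEigs_le (Tm_isHermitian _) φ fun a ha => ?_
    rw [hform_tsum C]
    by_cases hR : RP D a = 0
    · rw [hR]
      have : ∀ i, m i * (G D 0 (u i)).re = 0 := by
        intro i
        unfold G
        simp
      simp only [this]
      rw [tsum_zero]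
    · refine (hpos (RP D a) (RP_natDegree D a) hR fun i hi hre => ?_).le
      rcases lt_or_gt_of_ne hre with h | h
      · right
        obtain ⟨σ, hσ, -⟩ := C.refl
        have h1 : (u (σ i)).re = -(u i).re := by rw [hσ]; simp
        have h2 : |(u (σ i)).im| = |(u i).im| := by rw [hσ]; simp
        have h3 := ha ⟨σ i, ⟨by rw [h1]; linarith, by rw [h2]; exact hi⟩⟩
        have h4 : (RP D a).eval (u (σ i)) = 0 := h3
        rw [hσ] at h4
        exact h4
      · left
        exact ha ⟨i, ⟨h, hi⟩⟩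
  · intro hline a ha
    rw [hform_tsum C]
    refine hpos (RP D a) (RP_natDegree D a) ?_ fun i hi hre => absurd (hline i hi) hre
    intro hR
    apply ha
    set Q : ℂ[X] := ∑ j : Fin (D + 1), Polynomial.C (a j) * X ^ (j : ℕ) with hQ
    have hev : ∀ z : ℂ, Q.eval z = ∑ j, a j * z ^ (j : ℕ) := by
      intro z
      rw [hQ, Polynomial.eval_finsetSum]
      simp
    have hQ0 : Q = 0 := by
      apply Polynomial.eq_zero_of_infinite_isRoot
      have hsub : Set.range (fun t : ℝ => zv ((t : ℂ) * I)) ⊆ {z | Q.IsRoot z} := by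
        rintro _ ⟨t, rfl⟩
        show Q.eval _ = 0
        have hre : |((t : ℂ) * I).re| < 1 / 2 := by simp
        have h1 := RP_eval D a (half_add_ne hre)
        rw [hR, Polynomial.eval_zero] at h1
        rw [hev]
        exact (mul_eq_zero.mp h1.symm).resolve_left (pow_ne_zero _ (half_add_ne hre))
      refine Set.Infinite.mono hsub (Set.infinite_range_of_injective ?_)
      intro s t hst
      have h1 := zv_inj (v := (s : ℂ) * I) (w := (t : ℂ) * I) (by simp) (by simp) hst
      have h2 := mul_right_cancel₀ I_ne_zero h1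
      exact_mod_cast h2
    funext j
    have hcoef : Q.coeff (j : ℕ) = a j := by
      rw [hQ, Polynomial.finsetSum_coeff]
      simp only [Polynomial.coeff_C_mul, Polynomial.coeff_X_pow]
      rw [Finset.sum_eq_single j]
      · simp
      · intro k _ hk
        rw [if_neg, mul_zero]
        intro h
        exact hk (Fin.ext h).symm
      · simp
    rw [hQ0, Polynomial.coeff_zero] at hcoef
    exact hcoef.symm

lemma QP_comb {κ : Type*} (D : ℕ) (W : Finset κ) (a : κ → ℂ) (R : κ → ℂ[X]) (j : ℕ) :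
    (QP D (comb W a R)).coeff j = ∑ k ∈ W, a k * (QP D (R k)).coeff j := by
  unfold QP comb
  simp only [Polynomial.finsetSum_coeff, Polynomial.coeff_C_mul, mul_assoc, Finset.mul_sum]
  simp only [Finset.sum_mul, mul_assoc]
  rw [Finset.sum_comm]

lemma comb_natDegree {κ : Type*} {D : ℕ} (W : Finset κ) (a : κ → ℂ) (R : κ → ℂ[X])
    (h : ∀ k ∈ W, (R k).natDegree ≤ D) : (comb W a R).natDegree ≤ D := by
  unfold comb
  exact Polynomial.natDegree_sum_le_of_forall_le _ _ fun k hk =>
    (Polynomial.natDegree_C_mul_le _ _).trans (h k hk)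

lemma hform_pad (C : Cf u m) {D N : ℕ} (hDN : D + 1 ≤ N) {R : ℂ[X]} (hR : R.natDegree ≤ D) :
    hform (Tm u m N) (fun j : Fin N => (QP D R).coeff j) = ∑' i, m i * (G D R (u i)).re := by
  have h := C.hasSum_form (fun j : Fin N => (QP D R).coeff j)
  unfold hform
  rw [← h.tsum_eq]
  refine tsum_congr fun i => ?_
  have he : ∀ z : ℂ, ∑ j : Fin N, (QP D R).coeff j * z ^ (j : ℕ) = (QP D R).eval z := by
    intro z
    rw [Polynomial.eval_eq_sum_range' (lt_of_lt_of_le (Nat.lt_succ_of_le (QP_natDegree D R)) hDN),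
      Finset.sum_range]
  rw [he, he, form_eq hR (C.re_lt i)]

/-- Lower bound for the number of negative eigenvalues. -/
theorem sig_lower (C : Cf u m) : ∃ c : ℝ, 0 < c ∧ ∃ N0 : ℕ, ∀ N : ℕ, N0 ≤ N → ∀ W : Finset ι,
    (∀ i ∈ W, |(u i).im| ≤ c * N / Real.log N ∧ Real.exp (-(c * N / Real.log N)) ≤ (u i).re) →
    (∀ i ∈ W, ∀ j ∈ W, i ≠ j → Real.exp (-(c * N / Real.log N)) ≤ ‖u i - u j‖) →
    W.card ≤ negEigs (Tm u m N) := by
  classical
  obtain ⟨K, T0, hK, hT0, hcore⟩ := core_multi C
  have hc : 0 < min 1 (1 / (16 * K)) := by positivity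
  set c := min 1 (1 / (16 * K)) with hcdef
  have hcK : K * c ≤ 1 / 16 := by
    have : c ≤ 1 / (16 * K) := min_le_right _ _
    calc K * c ≤ K * (1 / (16 * K)) := by gcongr
      _ = 1 / 16 := by field_simp
  have hc1 : c ≤ 1 := min_le_left _ _
  have hlim : Tendsto (fun N : ℕ => c * N / Real.log N) atTop atTop := by
    have h1 : Tendsto (fun x : ℝ => x / Real.log x) atTop atTop := by
      have := Real.tendsto_pow_log_div_mul_add_atTop 1 0 1 one_ne_zero
      have h2 : Tendsto (fun x : ℝ => Real.log x / x) atTop (𝓝[>] 0) := by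
        rw [tendsto_nhdsWithin_iff]
        refine ⟨by simpa using this, ?_⟩
        filter_upwards [eventually_gt_atTop 1] with x hx
        exact div_pos (Real.log_pos hx) (by linarith)
      have h3 := h2.inv_tendsto_nhdsGT_zero
      refine h3.congr fun x => ?_
      simp
    have h2 := (h1.comp tendsto_natCast_atTop_atTop).const_mul_atTop hc
    refine h2.congr fun x => ?_
    simp only [Function.comp_apply]
    ring
  obtain ⟨N1, hN1⟩ := eventually_atTop.mp (hlim.eventually_ge_atTop (max T0 4))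
  refine ⟨c / 2, by positivity, max N1 6, fun N hN W hW hsep => ?_⟩
  set T := c * N / Real.log N with hT
  have hT2' : c / 2 * N / Real.log N = T / 2 := by
    rw [hT]
    ring
  rw [hT2'] at hW hsep
  have hTT := hN1 N ((le_max_left _ _).trans hN)
  have hTT0 : T0 ≤ T := (le_max_left _ _).trans hTT
  have hT4 : 4 ≤ T := (le_max_right _ _).trans hTT
  have hN6 : (6:ℝ) ≤ N := by exact_mod_cast (le_max_right _ _).trans hN
  have hlogT : 0 < Real.log T := Real.log_pos (by linarith)
  have hlogN : 1 ≤ Real.log N := by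
    rw [Real.le_log_iff_exp_le (by linarith)]
    linarith [Real.exp_one_lt_d9]
  have hTN : T ≤ N := by
    rw [hT, div_le_iff₀ (by linarith)]
    calc c * N ≤ 1 * N := by gcongr
      _ ≤ N * Real.log N := by nlinarith
  have hTlog : K * T * Real.log T ≤ N / 16 := by
    have h1 : Real.log T ≤ Real.log N := Real.log_le_log (by linarith) hTN
    calc K * T * Real.log T ≤ K * T * Real.log N := by gcongr
      _ = K * c * N := by
        rw [hT]
        field_simp
      _ ≤ 1 / 16 * N := by gcongr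
      _ = N / 16 := by ring
  set M := ⌈K * T * Real.log T⌉₊ with hM
  have hM1 : 0 < M := Nat.ceil_pos.mpr (by positivity)
  have hM2 : (M : ℝ) ≤ N / 16 + 1 := by
    have := Nat.ceil_lt_add_one (show 0 ≤ K * T * Real.log T by positivity)
    linarith
  have hMN : 4 * M ≤ N := by
    have : (4 * (M : ℝ)) ≤ N := by linarith
    exact_mod_cast this
  have hD : (4 * M - 1) + 1 = 4 * M := by omega
  have hexp : 4 * Real.exp (-T) ≤ Real.exp (-(T / 2)) := by
    have h1 : (4 : ℝ) ≤ Real.exp (T / 2) := by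
      have h2 : (4 : ℝ) ≤ Real.exp 2 := by
        have h9 : Real.exp 2 = Real.exp 1 ^ 2 := by
          rw [← Real.exp_nat_mul]
          norm_num
        rw [h9]
        nlinarith [Real.exp_one_gt_d9]
      exact h2.trans (Real.exp_le_exp.mpr (by linarith))
    calc 4 * Real.exp (-T) ≤ Real.exp (T / 2) * Real.exp (-T) := by gcongr
      _ = Real.exp (-(T / 2)) := by
        rw [← Real.exp_add]
        congr 1
        ring
  obtain ⟨R, hR1, hR2⟩ := hcore T hTT0 (4 * M - 1) hD W
    (fun i hi => ⟨(hW i hi).1.trans (by linarith), hexp.trans (hW i hi).2⟩)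
    (fun i hi j hj hij => hexp.trans (hsep i hi j hj hij))
  have hmain := le_negEigs (A := Tm u m N) (Tm_isHermitian N) (κ := W)
    (fun k => fun j : Fin N => (QP (4 * M - 1) (R k)).coeff j) (fun a ha => by
      set a' : ι → ℂ := fun i => if hi : i ∈ W then a ⟨i, hi⟩ else 0 with ha'
      have hex : ∃ i ∈ W, a' i ≠ 0 := by
        by_contra hall
        push Not at hall
        apply ha
        funext k
        have := hall k.1 k.2
        rw [ha'] at this
        simp only [k.2, dif_pos] at this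
        exact this
      have h1 := hR2 a' hex
      rw [← hform_pad C (show (4 * M - 1) + 1 ≤ N by omega) (comb_natDegree W a' R hR1)] at h1
      convert h1 using 2
      funext j
      rw [QP_comb, Finset.sum_apply]
      simp only [Pi.smul_apply, smul_eq_mul]
      rw [← Finset.sum_coe_sort W (fun k => a' k * (QP (4 * M - 1) (R k)).coeff (j : ℕ))]
      refine Finset.sum_congr rfl fun k _ => ?_
      rw [ha']
      simp only [k.2, dif_pos])
  rwa [Fintype.card_coe] at hmain

end Pool.Agent.Helper76.LW
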