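import Mathlib

set_option autoImplicit false

/-!
# Configurations of zeros and the effective Li-Weil criterion: combinatorial part
-/

namespace Pool.Agent.Helper76.LW

open Complex Filter Topology Polynomial
open scoped ComplexConjugate

/-- a configuration of points `u i` (zeros minus `1/2`) with multiplicities `m i` -/
structure Cf {ι : Type*} (u : ι → ℂ) (m : ι → ℝ) : Prop where
  one_le : ∀ i, 1 ≤ m i
  re_lt : ∀ i, |(u i).re| < 1 / 2
  sum2 : Summable fun i => m i / (1 + |(u i).im|) ^ 2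
  refl : ∃ σ : ι ≃ ι, (∀ i, u (σ i) = -conj (u i)) ∧ ∀ i, m (σ i) = m i
  cj : ∃ γ : ι ≃ ι, (∀ i, u (γ i) = conj (u i)) ∧ ∀ i, m (γ i) = m i
  low : ∃ κ : ℝ, 0 < κ ∧ ∀ i, κ ≤ ‖1 / 2 - u i‖
  loc : ∃ B : ℝ, 0 < B ∧ ∀ (n : ℤ) (S : Finset ι), (∀ i ∈ S, ⌊(u i).im⌋ = n) →
    ∑ i ∈ S, m i ≤ B * Real.log (2 + |(n : ℝ)|)

/-- the terms of the form -/
noncomputable def G (D : ℕ) (R : ℂ[X]) (v : ℂ) : ℂ :=
  R.eval v * conj (R.eval (-conj v)) / (1 / 4 - v ^ 2) ^ (D + 1)

lemma G_refl (D : ℕ) (R : ℂ[X]) (v : ℂ) : G D R (-conj v) = conj (G D R v) := by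
  unfold G
  have h4 : conj (4 : ℂ) = 4 := by
    have : (4 : ℂ) = ((4 : ℝ) : ℂ) := by push_cast; rfl
    rw [this, Complex.conj_ofReal]
  simp only [map_div₀, map_mul, map_pow, map_sub, map_neg, map_one, Complex.conj_conj, neg_neg]
  rw [h4]
  ring

variable {ι : Type*} {u : ι → ℂ} {m : ι → ℝ}

lemma Cf.m_nonneg (C : Cf u m) (i : ι) : 0 ≤ m i := by linarith [C.one_le i]

/-- only finitely many points in a bounded region -/
lemma Cf.finite (C : Cf u m) (R : ℝ) : {i | |(u i).im| ≤ R}.Finite := by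
  by_cases hR : 0 ≤ R
  · have h := C.sum2.tendsto_cofinite_zero
    have h2 : ∀ᶠ i in cofinite, m i / (1 + |(u i).im|) ^ 2 < 1 / (1 + R) ^ 2 :=
      h.eventually_lt_const (by positivity)
    rw [Filter.eventually_cofinite] at h2
    refine h2.subset fun i hi => ?_
    simp only [Set.mem_ofPred_eq, not_lt] at hi ⊢
    have h1 := C.one_le i
    have h0 := abs_nonneg (u i).im
    gcongr
  · convert Set.finite_empty
    ext i
    simp only [Set.mem_ofPred_eq, Set.mem_empty_iff_false, iff_false, not_le]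
    linarith [abs_nonneg (u i).im, not_le.mp hR]

/-- the number of points in a unit interval -/
lemma Cf.unit_count (C : Cf u m) : ∃ B : ℝ, 0 < B ∧ ∀ T : ℝ, 2 ≤ T → ∀ (a : ℝ) (S : Finset ι),
    (∀ i ∈ S, a ≤ (u i).im ∧ (u i).im ≤ a + 1 ∧ |(u i).im| ≤ 16 * T) →
    (S.card : ℝ) ≤ 2 * (B * Real.log T) := by
  classical
  obtain ⟨B, hB, h⟩ := C.loc
  refine ⟨6 * B, by positivity, fun T hT a S hS => ?_⟩
  have hlog : 0 < Real.log T := Real.log_pos (by linarith)
  have key : ∀ (n : ℤ) (S : Finset ι), (∀ i ∈ S, ⌊(u i).im⌋ = n ∧ |(u i).im| ≤ 16 * T) →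
      (S.card : ℝ) ≤ 6 * B * Real.log T := by
    intro n S hS
    rcases S.eq_empty_or_nonempty with rfl | ⟨i, hi⟩
    · simp
      positivity
    have h1 := h n S fun i hi => (hS i hi).1
    have h2 : (S.card : ℝ) ≤ ∑ i ∈ S, m i := by
      rw [← nsmul_one, ← Finset.sum_const]
      exact Finset.sum_le_sum fun i _ => C.one_le i
    have h3 : |(n : ℝ)| ≤ 16 * T + 1 := by
      have h4 := (hS i hi).1
      have h5 := (hS i hi).2
      rw [abs_le] at h5 ⊢
      have h6 := Int.floor_le (u i).im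
      have h7 := Int.lt_floor_add_one (u i).im
      rw [h4] at h6 h7
      constructor <;> linarith
    have h4 : Real.log (2 + |(n : ℝ)|) ≤ 6 * Real.log T := by
      rw [← Real.log_rpow (by linarith)]
      apply Real.log_le_log (by positivity)
      have : T ^ (6 : ℝ) = T ^ 6 := by exact_mod_cast Real.rpow_natCast T 6
      rw [this]
      have e1 : (2:ℝ) ^ 5 ≤ T ^ 5 := by gcongr
      have e2 : T ^ 6 = T ^ 5 * T := by ring
      rw [e2]
      nlinarith [hT, e1]
    calc (S.card : ℝ) ≤ B * Real.log (2 + |(n : ℝ)|) := h2.trans h1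
      _ ≤ B * (6 * Real.log T) := by gcongr
      _ = _ := by ring
  have hsub : S ⊆ (S.filter fun i => ⌊(u i).im⌋ = ⌊a⌋) ∪ (S.filter fun i => ⌊(u i).im⌋ = ⌊a⌋ + 1) := by
    intro i hi
    rw [Finset.mem_union, Finset.mem_filter, Finset.mem_filter]
    obtain ⟨h1, h2, -⟩ := hS i hi
    have h3 : ⌊a⌋ ≤ ⌊(u i).im⌋ := Int.floor_le_floor h1
    have h4 : ⌊(u i).im⌋ ≤ ⌊a⌋ + 1 := by
      rw [← Int.floor_add_one]
      exact Int.floor_le_floor h2
    have : ⌊(u i).im⌋ = ⌊a⌋ ∨ ⌊(u i).im⌋ = ⌊a⌋ + 1 := by omega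
    tauto
  have h1 := (Finset.card_le_card hsub).trans (Finset.card_union_le _ _)
  have h2 := key ⌊a⌋ (S.filter fun i => ⌊(u i).im⌋ = ⌊a⌋) fun i hi =>
    ⟨(Finset.mem_filter.mp hi).2, (hS i (Finset.mem_filter.mp hi).1).2.2⟩
  have h3 := key (⌊a⌋ + 1) (S.filter fun i => ⌊(u i).im⌋ = ⌊a⌋ + 1) fun i hi =>
    ⟨(Finset.mem_filter.mp hi).2, (hS i (Finset.mem_filter.mp hi).1).2.2⟩
  have h4 : (S.card : ℝ) ≤ ((S.filter fun i => ⌊(u i).im⌋ = ⌊a⌋).card : ℝ) +
      ((S.filter fun i => ⌊(u i).im⌋ = ⌊a⌋ + 1).card : ℝ) := by exact_mod_cast h1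
  linarith

/-- the counting hypothesis at level `T` with constant `b` -/
def UC (u : ι → ℂ) (T b : ℝ) : Prop := ∀ (a : ℝ) (S : Finset ι),
    (∀ i ∈ S, a ≤ (u i).im ∧ (u i).im ≤ a + 1 ∧ |(u i).im| ≤ 16 * T) → (S.card : ℝ) ≤ 2 * b

/-- points at distance between `t` and `t + 1` from a real number -/
lemma UC.ring {T b : ℝ} (h : UC u T b) (y t : ℝ) (S : Finset ι)
    (hS : ∀ i ∈ S, t ≤ |(u i).im - y| ∧ |(u i).im - y| ≤ t + 1 ∧ |(u i).im| ≤ 16 * T) :
    (S.card : ℝ) ≤ 4 * b := by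
  classical
  have h1 := h (y + t) (S.filter fun i => y ≤ (u i).im) fun i hi => by
    rw [Finset.mem_filter] at hi
    obtain ⟨h1, h2, h3⟩ := hS i hi.1
    rw [abs_of_nonneg (by linarith [hi.2])] at h1 h2
    exact ⟨by linarith, by linarith, h3⟩
  have h2 := h (y - t - 1) (S.filter fun i => ¬ y ≤ (u i).im) fun i hi => by
    rw [Finset.mem_filter, not_le] at hi
    obtain ⟨h1, h2, h3⟩ := hS i hi.1
    rw [abs_of_neg (by linarith [hi.2])] at h1 h2
    exact ⟨by linarith, by linarith, h3⟩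
  have h3 := Finset.card_filter_add_card_filter_not (s := S) (fun i => y ≤ (u i).im)
  have h4 : (S.card : ℝ) = ((S.filter fun i => y ≤ (u i).im).card : ℝ) +
      ((S.filter fun i => ¬ y ≤ (u i).im).card : ℝ) := by exact_mod_cast h3.symm
  linarith

/-- summing a function of the distance -/
lemma UC.sum_le {T b : ℝ} (h : UC u T b) (hb : 0 ≤ b) (y : ℝ) (f : ι → ℝ) (g : ℕ → ℝ)
    (hg : ∀ n, 0 ≤ g n) (S : Finset ι) (L : ℕ)
    (hS : ∀ i ∈ S, |(u i).im| ≤ 16 * T ∧ ⌊|(u i).im - y|⌋₊ < L ∧ f i ≤ g ⌊|(u i).im - y|⌋₊) :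
    ∑ i ∈ S, f i ≤ 4 * b * ∑ n ∈ Finset.range L, g n := by
  classical
  have h1 : ∑ i ∈ S, f i = ∑ n ∈ Finset.range L, ∑ i ∈ S.filter (fun i => ⌊|(u i).im - y|⌋₊ = n), f i := by
    rw [Finset.sum_fiberwise_of_maps_to]
    intro i hi
    rw [Finset.mem_range]
    exact (hS i hi).2.1
  rw [h1, Finset.mul_sum]
  refine Finset.sum_le_sum fun n _ => ?_
  have h2 : ∑ i ∈ S.filter (fun i => ⌊|(u i).im - y|⌋₊ = n), f i ≤
      ∑ i ∈ S.filter (fun i => ⌊|(u i).im - y|⌋₊ = n), g n := by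
    refine Finset.sum_le_sum fun i hi => ?_
    rw [Finset.mem_filter] at hi
    have := (hS i hi.1).2.2
    rwa [hi.2] at this
  refine h2.trans ?_
  rw [Finset.sum_const, nsmul_eq_mul]
  have h3 : ((S.filter (fun i => ⌊|(u i).im - y|⌋₊ = n)).card : ℝ) ≤ 4 * b := by
    refine h.ring y n _ fun i hi => ?_
    rw [Finset.mem_filter] at hi
    have h0 := abs_nonneg ((u i).im - y)
    have h4 := Nat.floor_le h0
    have h5 := Nat.lt_floor_add_one |(u i).im - y|
    rw [hi.2] at h4 h5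
    exact ⟨h4, h5.le, (hS i hi.1).1⟩
  exact mul_le_mul_of_nonneg_right h3 (hg n)

/-- the total number of points up to height `16 T` -/
lemma UC.card_le {T b : ℝ} (h : UC u T b) (hb : 0 ≤ b) (hT : 2 ≤ T) (S : Finset ι)
    (hS : ∀ i ∈ S, |(u i).im| ≤ 16 * T) : (S.card : ℝ) ≤ 4 * b * (16 * T + 1) := by
  have h1 := h.sum_le hb 0 (fun _ => (1:ℝ)) (fun _ => 1) (fun _ => zero_le_one) S (⌊16 * T⌋₊ + 1)
    (fun i hi => ⟨hS i hi, by
      rw [sub_zero]
      exact Nat.lt_succ_of_le (Nat.floor_le_floor (hS i hi)), le_rfl⟩)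
  simp only [Finset.sum_const, Finset.card_range, nsmul_eq_mul, mul_one] at h1
  refine h1.trans ?_
  have h2 := Nat.floor_le (show (0:ℝ) ≤ 16 * T by linarith)
  push_cast
  gcongr

/-- `∑_{1 ≤ n < L} log max(1, T / n) ≤ T` -/
lemma sum_log_le {T : ℝ} (hT : 0 < T) (L : ℕ) :
    ∑ n ∈ (Finset.range L).filter (fun n => n ≠ 0), Real.log (max 1 (T / n)) ≤ T := by
  classical
  have h1 : ∑ n ∈ (Finset.range L).filter (fun n => n ≠ 0), Real.log (max 1 (T / n)) ≤
      ∑ n ∈ Finset.Icc 1 ⌊T⌋₊, Real.log (T / n) := by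
    have hsub : ∑ n ∈ (Finset.range L).filter (fun n => n ≠ 0), Real.log (max 1 (T / n)) =
        ∑ n ∈ ((Finset.range L).filter (fun n => n ≠ 0)).filter (fun n => n ≤ ⌊T⌋₊), Real.log (T / n) := by
      rw [← Finset.sum_filter_add_sum_filter_not ((Finset.range L).filter (fun n => n ≠ 0)) (fun n => n ≤ ⌊T⌋₊)]
      have hz : ∑ n ∈ ((Finset.range L).filter (fun n => n ≠ 0)).filter (fun n => ¬ n ≤ ⌊T⌋₊),
          Real.log (max 1 (T / n)) = 0 := by
        refine Finset.sum_eq_zero fun n hn => ?_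
        simp only [Finset.mem_filter, not_le] at hn
        have h3 : T < n := (Nat.floor_lt hT.le).mp hn.2
        have hn0 : (0:ℝ) < n := by linarith
        rw [max_eq_left (by rw [div_le_one hn0]; exact h3.le), Real.log_one]
      rw [hz, add_zero]
      refine Finset.sum_congr rfl fun n hn => ?_
      simp only [Finset.mem_filter] at hn
      have hn0 : (0:ℝ) < n := by
        have : 0 < n := Nat.pos_of_ne_zero hn.1.2
        exact_mod_cast this
      have h3 : (n:ℝ) ≤ T := (Nat.le_floor_iff hT.le).mp hn.2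
      rw [max_eq_right (by rw [le_div_iff₀ hn0]; linarith)]
    rw [hsub]
    refine Finset.sum_le_sum_of_subset_of_nonneg (fun n hn => ?_) (fun n hn _ => ?_)
    · simp only [Finset.mem_filter, Finset.mem_Icc] at hn ⊢
      exact ⟨Nat.pos_of_ne_zero hn.1.2, hn.2⟩
    · rw [Finset.mem_Icc] at hn
      have hn0 : (0:ℝ) < n := by exact_mod_cast hn.1
      have h3 : (n:ℝ) ≤ T := (Nat.le_floor_iff hT.le).mp hn.2
      exact Real.log_nonneg (by rw [le_div_iff₀ hn0]; linarith)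
  refine h1.trans ?_
  have h2 : ∀ k : ℕ, ∑ n ∈ Finset.Icc 1 k, Real.log (T / n) = Real.log (T ^ k / k.factorial) := by
    intro k
    induction k with
    | zero => simp
    | succ k ih =>
      rw [Finset.sum_Icc_succ_top (by omega), ih, ← Real.log_mul (by positivity) (by positivity)]
      congr 1
      rw [Nat.factorial_succ]
      push_cast
      field_simp
      ring
  rw [h2]
  have h3 : T ^ ⌊T⌋₊ / (⌊T⌋₊.factorial : ℝ) ≤ Real.exp T := Real.pow_div_factorial_le_exp T hT.le _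
  calc Real.log (T ^ ⌊T⌋₊ / (⌊T⌋₊.factorial : ℝ)) ≤ Real.log (Real.exp T) :=
        Real.log_le_log (by positivity) h3
    _ = T := Real.log_exp T

/-- lower bound for a product of distances -/
lemma UC.prod_ge {T b ro y : ℝ} (h : UC u T b) (hb : 0 ≤ b) (hT : 2 ≤ T) (hy : |y| ≤ T) (hro : 0 < ro)
    (hro1 : ro ≤ T) (d : ι → ℝ) (S : Finset ι)
    (hS : ∀ i ∈ S, |(u i).im| ≤ 16 * T ∧ ro ≤ d i ∧ |(u i).im - y| ≤ d i) :
    T ^ S.card * Real.exp (-(4 * b * (Real.log (T / ro) + T))) ≤ ∏ i ∈ S, d i := by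
  classical
  have hT0 : 0 < T := by linarith
  have hlr : 0 ≤ Real.log (T / ro) := Real.log_nonneg (by rw [le_div_iff₀ hro]; linarith)
  set g : ℕ → ℝ := fun n => if n = 0 then Real.log (T / ro) else Real.log (max 1 (T / n)) with hg
  have hg0 : ∀ n, 0 ≤ g n := by
    intro n
    simp only [hg]
    split_ifs
    · exact hlr
    · exact Real.log_nonneg (le_max_left _ _)
  have h1 := h.sum_le hb y (fun i => Real.log (max 1 (T / d i))) g hg0 S (⌊17 * T⌋₊ + 1)
    (fun i hi => by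
      obtain ⟨h1, h2, h3⟩ := hS i hi
      refine ⟨h1, ?_, ?_⟩
      · apply Nat.lt_succ_of_le
        apply Nat.floor_le_floor
        calc |(u i).im - y| ≤ |(u i).im| + |y| := abs_sub _ _
          _ ≤ 17 * T := by linarith
      · have hd : 0 < d i := lt_of_lt_of_le hro h2
        simp only [hg]
        split_ifs with h0
        · apply Real.log_le_log (by positivity)
          rw [max_le_iff]
          constructor
          · rw [le_div_iff₀ hro]; linarith
          · gcongr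
        · have hn : 0 < ⌊|(u i).im - y|⌋₊ := Nat.pos_of_ne_zero h0
          have hn' : (0:ℝ) < ⌊|(u i).im - y|⌋₊ := by exact_mod_cast hn
          have h4 := Nat.floor_le (abs_nonneg ((u i).im - y))
          apply Real.log_le_log (by positivity)
          apply max_le_max le_rfl
          gcongr
          linarith)
  have h2 : ∑ n ∈ Finset.range (⌊17 * T⌋₊ + 1), g n ≤ Real.log (T / ro) + T := by
    rw [← Finset.sum_filter_add_sum_filter_not (Finset.range (⌊17 * T⌋₊ + 1)) (fun n => n ≠ 0)]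
    have h3 : ∑ n ∈ (Finset.range (⌊17 * T⌋₊ + 1)).filter (fun n => n ≠ 0), g n ≤ T := by
      refine le_trans (le_of_eq ?_) (sum_log_le hT0 (⌊17 * T⌋₊ + 1))
      refine Finset.sum_congr rfl fun n hn => ?_
      rw [Finset.mem_filter] at hn
      simp [hg, hn.2]
    have h4 : ∑ n ∈ (Finset.range (⌊17 * T⌋₊ + 1)).filter (fun n => ¬ n ≠ 0), g n ≤ Real.log (T / ro) := by
      have : (Finset.range (⌊17 * T⌋₊ + 1)).filter (fun n => ¬ n ≠ 0) = {0} := by
        ext n
        simp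
      rw [this]
      simp [hg]
    linarith
  have h3 : ∑ i ∈ S, Real.log (max 1 (T / d i)) ≤ 4 * b * (Real.log (T / ro) + T) :=
    h1.trans (by gcongr)
  have h4 : ∏ i ∈ S, (T * Real.exp (-(Real.log (max 1 (T / d i))))) ≤ ∏ i ∈ S, d i := by
    refine Finset.prod_le_prod (fun i _ => by positivity) fun i hi => ?_
    have hd : 0 < d i := lt_of_lt_of_le hro (hS i hi).2.1
    rw [Real.exp_neg, Real.exp_log (by positivity), ← div_eq_mul_inv, div_le_iff₀ (by positivity)]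
    have : T / d i ≤ max 1 (T / d i) := le_max_right _ _
    calc T = d i * (T / d i) := by field_simp
      _ ≤ _ := by gcongr
  refine le_trans ?_ h4
  rw [Finset.prod_mul_distrib, Finset.prod_const, ← Real.exp_sum, Finset.sum_neg_distrib]
  gcongr

/-- a scale at which there is no zero in an annulus around the point `p` -/
lemma UC.scale {T b h' η : ℝ} (h : UC u T b) (hT : 2 ≤ T) (p : ℂ) (hp : |p.im| ≤ T) (hh : 0 < h')
    (hh1 : h' ≤ 1) (hη : 0 < η) (hη1 : η ≤ 1) (hfin : {i | |(u i).im| ≤ 16 * T}.Finite) :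
    ∃ k : ℕ, (k : ℝ) ≤ 4 * b ∧ ∀ i, ‖u i - p‖ ≤ η ^ k * h' → ‖u i - p‖ ≤ η ^ (k + 1) * h' := by
  classical
  set F : Finset ι := hfin.toFinset.filter fun i => |(u i).im - p.im| ≤ 1 with hF
  have hFc : (F.card : ℝ) ≤ 4 * b := by
    refine h.ring p.im 0 F fun i hi => ?_
    rw [hF, Finset.mem_filter, Set.Finite.mem_toFinset] at hi
    exact ⟨abs_nonneg _, by linarith [hi.2], hi.1⟩
  by_contra hcon
  push Not at hcon
  have h1 : ∀ k : ℕ, k ≤ F.card → ∃ i, ‖u i - p‖ ≤ η ^ k * h' ∧ η ^ (k + 1) * h' < ‖u i - p‖ :=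
    fun k hk => hcon k (le_trans (by exact_mod_cast hk) hFc)
  haveI : Nonempty ι := ⟨(h1 0 (Nat.zero_le _)).choose⟩
  choose! f hf1 hf2 using h1
  have hmaps : ∀ k ∈ Finset.range (F.card + 1), f k ∈ F := by
    intro k hk
    rw [Finset.mem_range, Nat.lt_succ_iff] at hk
    have h2 := hf1 k hk
    have h3 : η ^ k * h' ≤ 1 := mul_le_one₀ (pow_le_one₀ hη.le hη1) hh.le hh1
    have h4 : |(u (f k)).im - p.im| ≤ 1 := by
      have := Complex.abs_im_le_norm (u (f k) - p)
      rw [Complex.sub_im] at this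
      linarith
    rw [hF, Finset.mem_filter, Set.Finite.mem_toFinset]
    refine ⟨?_, h4⟩
    show |(u (f k)).im| ≤ 16 * T
    have : |(u (f k)).im| ≤ |(u (f k)).im - p.im| + |p.im| := by
      calc |(u (f k)).im| = |((u (f k)).im - p.im) + p.im| := by ring_nf
        _ ≤ _ := abs_add_le _ _
    linarith
  obtain ⟨a, ha, c, hc, hac, hfac⟩ := Finset.exists_ne_map_eq_of_card_lt_of_maps_to
    (by rw [Finset.card_range]; omega) hmaps
  rw [Finset.mem_range, Nat.lt_succ_iff] at ha hc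
  have aux : ∀ a c : ℕ, a ≤ F.card → c ≤ F.card → a < c → f a = f c → False := by
    intro a c ha hc hlt he
    have h2 := hf2 a ha
    have h3 := hf1 c hc
    rw [← he] at h3
    have h4 : η ^ c ≤ η ^ (a + 1) := pow_le_pow_of_le_one hη.le hη1 hlt
    have h5 : η ^ c * h' ≤ η ^ (a + 1) * h' := by gcongr
    linarith
  rcases lt_or_gt_of_ne hac with hlt | hlt
  · exact aux a c ha hc hlt hfac
  · exact aux c a hc ha hlt hfac.symm

end Pool.Agent.Helper76.LW
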