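import Pool.Agent.Helper76.LW.Multi
import Pool.Agent.Helper76.LW.Final

set_option autoImplicit false

/-!
# Off-line points and negative subspaces
-/

namespace Pool.Agent.Helper76.LW

open Complex Filter Topology Polynomial
open scoped ComplexConjugate

variable {ι : Type*} {u : ι → ℂ} {m : ι → ℝ}

lemma eventually_N3M (B S0 : ℝ) (hB : 0 < B) : ∀ᶠ T : ℝ in atTop, ∀ M : ℕ,
    (68 * B + 10) * T * Real.log T ≤ M →
    M * (36 * T ^ 4 * Real.exp (2 * T + 2 * EE T (B * Real.log T) - 3 * M)) * S0 < 1 := by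
  have hx : Tendsto (fun T : ℝ => Real.log T ^ 2 / T) atTop (𝓝 0) := by
    have := Real.tendsto_pow_log_div_mul_add_atTop 1 0 2 one_ne_zero
    simpa using this
  have hx2 : Tendsto (fun T : ℝ => 96 * B ^ 2 * (Real.log T ^ 2 / T)) atTop (𝓝 (96 * B ^ 2 * 0)) :=
    hx.const_mul _
  rw [mul_zero] at hx2
  have hz : Tendsto (fun T : ℝ => 36 * (T ^ 4 * Real.exp (-T)) * |S0|) atTop (𝓝 (36 * 0 * |S0|)) :=
    ((Real.tendsto_pow_mul_exp_neg_atTop_nhds_zero 4).const_mul 36).mul_const _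
  rw [mul_zero, zero_mul] at hz
  filter_upwards [hx2.eventually_le_const (show (0:ℝ) < 1 by norm_num),
    hz.eventually_lt_const (show (0:ℝ) < 1 by norm_num), eventually_ge_atTop (Real.exp 1)] with T h1 h2 h3
  intro M hM
  have hT0 : 0 < T := (Real.exp_pos 1).trans_le h3
  have hl1 : 1 ≤ Real.log T := by
    rw [Real.le_log_iff_exp_le hT0]
    exact h3
  have hlT : Real.log T ≤ T := (Real.log_le_sub_one_of_pos hT0).trans (by linarith)
  have h4 : 96 * B ^ 2 * Real.log T ^ 2 ≤ T := by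
    rw [← mul_div_assoc, div_le_one hT0] at h1
    exact h1
  have h5 : 2 * T + 2 * EE T (B * Real.log T) - 2 * M ≤ -T := by
    unfold EE
    have h6 : 96 * B ^ 2 * Real.log T ^ 2 * Real.log T ≤ T * Real.log T := by gcongr
    have h7 : T ≤ T * Real.log T := le_mul_of_one_le_right hT0.le hl1
    have h8 : B * Real.log T * Real.log T ≤ B * T * Real.log T := by gcongr
    have h9 : 0 ≤ B * T * Real.log T := by positivity
    nlinarith
  have hMe : (M : ℝ) * Real.exp (2 * T + 2 * EE T (B * Real.log T) - 3 * M) ≤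
      Real.exp (2 * T + 2 * EE T (B * Real.log T) - 2 * M) := by
    have h6 : (M : ℝ) ≤ Real.exp M := by linarith [Real.add_one_le_exp (M : ℝ)]
    calc (M : ℝ) * Real.exp (2 * T + 2 * EE T (B * Real.log T) - 3 * M) ≤
        Real.exp M * Real.exp (2 * T + 2 * EE T (B * Real.log T) - 3 * M) := by gcongr
      _ = _ := by
        rw [← Real.exp_add]
        congr 1
        ring
  calc M * (36 * T ^ 4 * Real.exp (2 * T + 2 * EE T (B * Real.log T) - 3 * M)) * S0 ≤
      M * (36 * T ^ 4 * Real.exp (2 * T + 2 * EE T (B * Real.log T) - 3 * M)) * |S0| := by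
        gcongr
        exact le_abs_self S0
    _ = 36 * T ^ 4 * (M * Real.exp (2 * T + 2 * EE T (B * Real.log T) - 3 * M)) * |S0| := by ring
    _ ≤ 36 * T ^ 4 * Real.exp (2 * T + 2 * EE T (B * Real.log T) - 2 * M) * |S0| := by gcongr
    _ ≤ 36 * T ^ 4 * Real.exp (-T) * |S0| := by gcongr
    _ = 36 * (T ^ 4 * Real.exp (-T)) * |S0| := by ring
    _ < 1 := h2

/-- separated off-line points give negative subspaces -/
theorem core_multi (C : Cf u m) : ∃ K T0 : ℝ, 0 < K ∧ 2 ≤ T0 ∧ ∀ T : ℝ, T0 ≤ T → ∀ D : ℕ,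
    D + 1 = 4 * ⌈K * T * Real.log T⌉₊ → ∀ W : Finset ι,
    (∀ i ∈ W, |(u i).im| ≤ T ∧ 4 * Real.exp (-T) ≤ (u i).re) →
    (∀ i ∈ W, ∀ j ∈ W, i ≠ j → 4 * Real.exp (-T) ≤ ‖u i - u j‖) →
    ∃ R : ι → ℂ[X], (∀ i ∈ W, (R i).natDegree ≤ D) ∧ ∀ a : ι → ℂ, (∃ i ∈ W, a i ≠ 0) →
      ∑' i, m i * (G D (comb W a R) (u i)).re < 0 := by
  obtain ⟨B, hB, hcount⟩ := C.unit_count
  obtain ⟨κ, hκ, hlow⟩ := C.low
  have hK : 0 < 68 * B + 10 := by positivity
  have h2 := eventually_N2 (68 * B + 10) κ hK hκ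
  have h3 := eventually_N3M B (∑' i, m i / (1 + |(u i).im|) ^ 2) hB
  obtain ⟨T1, hT1⟩ := eventually_atTop.mp (h2.and h3)
  refine ⟨68 * B + 10, max T1 2, hK, le_max_right _ _, fun T hT D hD W hW hsep => ?_⟩
  obtain ⟨N2, N3⟩ := hT1 T ((le_max_left _ _).trans hT)
  have hT2 : 2 ≤ T := (le_max_right _ _).trans hT
  have hlog : 0 < Real.log T := Real.log_pos (by linarith)
  have hlog2 : (1:ℝ) / 2 ≤ Real.log T := by
    have := Real.log_two_gt_d9
    have h5 := Real.log_le_log (by norm_num) hT2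
    linarith
  set M := ⌈(68 * B + 10) * T * Real.log T⌉₊ with hM
  have hM1 : (68 * B + 10) * T * Real.log T ≤ M := Nat.le_ceil _
  have hM2 : (M : ℝ) ≤ (68 * B + 10) * T * Real.log T + 1 := (Nat.ceil_lt_add_one (by positivity)).le
  have hMge : 2 ≤ M := by
    have h5 : (2:ℝ) ≤ M := by
      refine le_trans ?_ hM1
      have h6 : (0:ℝ) ≤ 68 * B * T * Real.log T := by positivity
      have h7 : (1:ℝ) ≤ T * Real.log T := by nlinarith
      nlinarith
    exact_mod_cast h5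
  have N1 : 4 * (B * Real.log T) * (16 * T + 1) ≤ M := by
    refine le_trans ?_ hM1
    have h6 : B * Real.log T ≤ B * Real.log T * T := le_mul_of_one_le_right (by positivity) (by linarith)
    have h7 : (0:ℝ) ≤ T * Real.log T := by positivity
    nlinarith
  obtain ⟨R, hR1, hR2⟩ := multi C (hcount T hT2) (by positivity) hT2 hκ hlow hD hMge N1
    (N2 M hM2) (N3 M hM1) W hW hsep
  exact ⟨R, hR1, fun a ha => (hR2 a ha).2⟩

end Pool.Agent.Helper76.LW
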