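import Pool.Agent.Helper76.LW.Final

set_option autoImplicit false

/-!
# The Toeplitz matrix of a configuration
-/

namespace Pool.Agent.Helper76.LW

open Complex Filter Topology Polynomial
open scoped ComplexConjugate

/-- `1 - 1/ρ` for `ρ = v + 1/2` -/
noncomputable def zv (v : ℂ) : ℂ := (v - 1 / 2) / (v + 1 / 2)

/-- `1/(ρ(1-ρ))` for `ρ = v + 1/2` -/
noncomputable def wv (v : ℂ) : ℂ := 1 / (1 / 4 - v ^ 2)

/-- the Li-type coefficients of a configuration -/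
noncomputable def lic {ι : Type*} (u : ι → ℂ) (m : ι → ℝ) (n : ℕ) : ℝ :=
  ∑' i, m i * (1 - zv (u i) ^ n).re

/-- their second differences -/
noncomputable def tc {ι : Type*} (u : ι → ℂ) (m : ι → ℝ) (a : ℤ) : ℝ :=
  lic u m (a + 1).natAbs + lic u m (a - 1).natAbs - 2 * lic u m a.natAbs

/-- the Toeplitz matrix -/
noncomputable def Tm {ι : Type*} (u : ι → ℂ) (m : ι → ℝ) (N : ℕ) : Matrix (Fin N) (Fin N) ℝ :=
  Matrix.of fun j k => tc u m ((j : ℤ) - (k : ℤ))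

lemma conj_half : conj (1 / 2 : ℂ) = 1 / 2 := by
  have : (1 / 2 : ℂ) = ((1 / 2 : ℝ) : ℂ) := by push_cast; rfl
  rw [this, Complex.conj_ofReal]

lemma conj_quarter : conj (1 / 4 : ℂ) = 1 / 4 := by
  have : (1 / 4 : ℂ) = ((1 / 4 : ℝ) : ℂ) := by push_cast; rfl
  rw [this, Complex.conj_ofReal]

lemma half_add_ne {v : ℂ} (hv : |v.re| < 1 / 2) : v + 1 / 2 ≠ 0 := by
  intro h0
  have hp := abs_lt.mp hv
  have := congrArg Complex.re h0
  simp at this
  linarith [hp.1]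

lemma half_sub_ne {v : ℂ} (hv : |v.re| < 1 / 2) : v - 1 / 2 ≠ 0 := by
  intro h0
  have hp := abs_lt.mp hv
  have := congrArg Complex.re h0
  simp at this
  linarith [hp.2]

lemma zv_eq' {v : ℂ} (h : v + 1 / 2 ≠ 0) : zv v = 1 - 1 / (v + 1 / 2) := by
  have h2 : zv v = ((v + 1 / 2) - 1) / (v + 1 / 2) := by
    unfold zv
    congr 1
    ring
  rw [h2, sub_div, div_self h]

lemma zv_ne {v : ℂ} (hv : |v.re| < 1 / 2) : zv v ≠ 0 := div_ne_zero (half_sub_ne hv) (half_add_ne hv)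

lemma zv_refl (v : ℂ) : zv (-conj v) = (conj (zv v))⁻¹ := by
  unfold zv
  rw [map_div₀, map_sub, map_add, conj_half, inv_div, ← neg_div_neg_eq]
  congr 1 <;> ring

lemma zv_cj (v : ℂ) : zv (conj v) = conj (zv v) := by
  unfold zv
  rw [map_div₀, map_sub, map_add, conj_half]

lemma wv_refl (v : ℂ) : wv (-conj v) = conj (wv v) := by
  unfold wv
  rw [map_div₀, map_sub, map_pow, map_one, conj_quarter, neg_sq]

lemma wv_cj (v : ℂ) : wv (conj v) = conj (wv v) := by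
  unfold wv
  rw [map_div₀, map_sub, map_pow, map_one, conj_quarter]

lemma wv_eq {v : ℂ} (hv : |v.re| < 1 / 2) : wv v = 2 - zv v - (zv v)⁻¹ := by
  have h1 := half_add_ne hv
  have h2 := half_sub_ne hv
  have h3 := quarter_ne hv
  unfold wv zv
  rw [inv_div]
  have h4 : (1 : ℂ) / 4 - v ^ 2 = -((v + 1 / 2) * (v - 1 / 2)) := by ring
  rw [h4] at h3 ⊢
  rw [div_eq_iff h3]
  have h5 : (v - 1 / 2) / (v + 1 / 2) * (v + 1 / 2) = v - 1 / 2 := div_mul_cancel₀ _ h1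
  have h6 : (v + 1 / 2) / (v - 1 / 2) * (v - 1 / 2) = v + 1 / 2 := div_mul_cancel₀ _ h2
  linear_combination (v - 1 / 2) * (-h5) + (v + 1 / 2) * (-h6)

lemma wz_eq {v : ℂ} (hv : |v.re| < 1 / 2) (n : ℤ) :
    wv v * zv v ^ n = 2 * zv v ^ n - zv v ^ (n + 1) - zv v ^ (n - 1) := by
  rw [wv_eq hv, zpow_add_one₀ (zv_ne hv), zpow_sub_one₀ (zv_ne hv)]
  ring

variable {ι : Type*} {u : ι → ℂ} {m : ι → ℝ}

lemma low_growth {κ x y : ℝ} (hκ : 0 < κ) (_hx : 0 ≤ x) (h1 : κ ≤ y) (h2 : x ≤ y) :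
    κ / (1 + κ) * (1 + x) ≤ y := by
  rw [div_mul_eq_mul_div, div_le_iff₀ (by positivity)]
  nlinarith

lemma Cf.wv_le (C : Cf u m) : ∃ K : ℝ, 0 ≤ K ∧ ∀ i, ‖wv (u i)‖ ≤ K / (1 + |(u i).im|) ^ 2 := by
  obtain ⟨κ, hκ, hlow⟩ := C.low
  refine ⟨((κ / (1 + κ)) ^ 2)⁻¹, by positivity, fun i => ?_⟩
  have h1 : κ / (1 + κ) * (1 + |(u i).im|) ≤ ‖1 / 2 - u i‖ := by
    apply low_growth hκ (abs_nonneg _) (hlow i)
    have := Complex.abs_im_le_norm (1 / 2 - u i)
    simpa using this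
  have h2 : κ / (1 + κ) * (1 + |(u i).im|) ≤ ‖1 / 2 + u i‖ := by
    apply low_growth hκ (abs_nonneg _) (C.low' hlow i)
    have := Complex.abs_im_le_norm (1 / 2 + u i)
    simpa using this
  have h3 : (κ / (1 + κ) * (1 + |(u i).im|)) ^ 2 ≤ ‖1 / 4 - u i ^ 2‖ := by
    rw [quarter_sub, norm_mul, sq]
    gcongr
  unfold wv
  rw [norm_div, norm_one]
  calc 1 / ‖1 / 4 - u i ^ 2‖ ≤ 1 / (κ / (1 + κ) * (1 + |(u i).im|)) ^ 2 := by gcongr
    _ = _ := by
      rw [mul_pow, one_div, mul_inv, div_eq_mul_inv (((κ / (1 + κ)) ^ 2)⁻¹)]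

lemma Cf.zv_le (C : Cf u m) : ∃ K : ℝ, 1 ≤ K ∧ ∀ i, ‖zv (u i)‖ ≤ K ∧ ‖(zv (u i))⁻¹‖ ≤ K := by
  obtain ⟨κ, hκ, hlow⟩ := C.low
  have hpos : 0 ≤ 1 / κ := by positivity
  have hb : ∀ i, ‖zv (u i)‖ ≤ 1 + 1 / κ := by
    intro i
    have h1 := half_add_ne (C.re_lt i)
    have h2 : zv (u i) = 1 - 1 / (u i + 1 / 2) := zv_eq' h1
    have h3 := C.low' hlow i
    rw [add_comm] at h3
    rw [h2]
    calc ‖1 - 1 / (u i + 1 / 2)‖ ≤ ‖(1 : ℂ)‖ + ‖1 / (u i + 1 / 2)‖ := norm_sub_le _ _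
      _ = 1 + 1 / ‖u i + 1 / 2‖ := by rw [norm_div, norm_one]
      _ ≤ 1 + 1 / κ := by gcongr
  refine ⟨1 + 1 / κ, by linarith, fun i => ⟨hb i, ?_⟩⟩
  obtain ⟨σ, hσ, -⟩ := C.refl
  have h1 := hb (σ i)
  rw [hσ, zv_refl, norm_inv, Complex.norm_conj, ← norm_inv] at h1
  exact h1

lemma zpow_norm_le {z : ℂ} {K : ℝ} (_hK : 1 ≤ K) (h1 : ‖z‖ ≤ K) (h2 : ‖z⁻¹‖ ≤ K) (n : ℤ) :
    ‖z ^ n‖ ≤ K ^ n.natAbs := by
  rcases n.natAbs_eq with h | h
  · rw [h, zpow_natCast, Int.natAbs_natCast, norm_pow]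
    gcongr
  · rw [h, zpow_neg, zpow_natCast, Int.natAbs_neg, Int.natAbs_natCast, ← inv_pow, norm_pow]
    gcongr

lemma Cf.summable_wz (C : Cf u m) (n : ℤ) :
    Summable fun i => (m i : ℂ) * (wv (u i) * zv (u i) ^ n) := by
  obtain ⟨K, hK0, hK⟩ := C.wv_le
  obtain ⟨L, hL1, hL⟩ := C.zv_le
  refine Summable.of_norm_bounded (C.sum2.mul_left (K * L ^ n.natAbs)) fun i => ?_
  have hm := C.m_nonneg i
  rw [norm_mul, norm_mul, Complex.norm_real, Real.norm_of_nonneg hm]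
  have h1 := hK i
  have h2 := zpow_norm_le hL1 (hL i).1 (hL i).2 n
  calc m i * (‖wv (u i)‖ * ‖zv (u i) ^ n‖) ≤ m i * (K / (1 + |(u i).im|) ^ 2 * L ^ n.natAbs) := by
        gcongr
    _ = _ := by ring

/-- the terms of the Li coefficients, for integer exponents -/
noncomputable def FF (u : ι → ℂ) (m : ι → ℝ) (n : ℤ) (i : ι) : ℝ := m i * (1 - zv (u i) ^ n).re

lemma Cf.summable_wz_re (C : Cf u m) (n : ℤ) :
    Summable fun i => m i * (wv (u i) * zv (u i) ^ n).re := by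
  have := Complex.reCLM.summable (C.summable_wz n)
  refine this.congr fun i => ?_
  simp [Complex.mul_re]

lemma Cf.FF_rec (C : Cf u m) (n : ℤ) (i : ι) :
    FF u m (n + 1) i = 2 * FF u m n i - FF u m (n - 1) i + m i * (wv (u i) * zv (u i) ^ n).re := by
  unfold FF
  rw [wz_eq (C.re_lt i)]
  simp only [Complex.sub_re, Complex.one_re, Complex.mul_re, Complex.re_ofNat, Complex.im_ofNat, zero_mul,
    sub_zero]
  ring

lemma Cf.FF_neg (C : Cf u m) {σ : ι ≃ ι} (h1 : ∀ i, u (σ i) = -conj (u i)) (h2 : ∀ i, m (σ i) = m i)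
    (n : ℤ) (i : ι) : FF u m (-n) i = FF u m n (σ i) := by
  unfold FF
  rw [h1, h2, zv_refl, inv_zpow', ← map_zpow₀, Complex.sub_re, Complex.sub_re, Complex.conj_re]

lemma inv_re_nonneg {v : ℂ} (h : 0 ≤ v.re) : 0 ≤ (v⁻¹).re := by
  rw [Complex.inv_re]
  exact div_nonneg h (Complex.normSq_nonneg v)

lemma Cf.FF_one_nonneg (C : Cf u m) (i : ι) : 0 ≤ FF u m 1 i := by
  unfold FF
  apply mul_nonneg (C.m_nonneg i)
  rw [zpow_one]
  have h1 := half_add_ne (C.re_lt i)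
  have h2 : 1 - zv (u i) = (u i + 1 / 2)⁻¹ := by
    rw [zv_eq' h1]
    ring
  rw [h2]
  apply inv_re_nonneg
  have := (abs_lt.mp (C.re_lt i)).1
  simp
  linarith

lemma Cf.summable_FF_nat (C : Cf u m) (n : ℕ) :
    Summable (FF u m n) ∧ Summable (FF u m (n + 1)) := by
  induction n with
  | zero =>
    constructor
    · have : FF u m ((0 : ℕ) : ℤ) = fun _ => 0 := by
        funext i
        simp [FF]
      rw [this]
      exact summable_zero
    · obtain ⟨σ, hσ1, hσ2⟩ := C.refl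
      refine Summable.of_nonneg_of_le (fun i => ?_) (fun i => ?_) (C.summable_wz_re 0)
      · simpa using C.FF_one_nonneg i
      · have h1 := C.FF_rec 0 i
        have h0 : FF u m 0 i = 0 := by simp [FF]
        rw [h0, zero_sub, C.FF_neg hσ1 hσ2] at h1
        have h2 := C.FF_one_nonneg (σ i)
        simp only [Nat.cast_zero]
        linarith
  | succ n ih =>
    refine ⟨by simpa using ih.2, ?_⟩
    have h1 := ((ih.2.mul_left 2).sub ih.1).add (C.summable_wz_re (n + 1))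
    refine h1.congr fun i => ?_
    have h2 := C.FF_rec (n + 1) i
    rw [add_sub_cancel_right] at h2
    push_cast
    exact h2.symm

lemma Cf.summable_FF (C : Cf u m) (n : ℤ) : Summable (FF u m n) := by
  rcases n.natAbs_eq with h | h
  · rw [h]
    exact (C.summable_FF_nat _).1
  · obtain ⟨σ, hσ1, hσ2⟩ := C.refl
    rw [h]
    have h1 := (Equiv.summable_iff σ).mpr (C.summable_FF_nat n.natAbs).1
    refine h1.congr fun i => ?_
    rw [C.FF_neg hσ1 hσ2]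
    rfl

lemma Cf.tsum_FF (C : Cf u m) (n : ℤ) : ∑' i, FF u m n i = lic u m n.natAbs := by
  have h0 : ∀ k : ℕ, ∑' i, FF u m (k : ℤ) i = lic u m k := by
    intro k
    unfold lic FF
    simp only [zpow_natCast]
  rcases n.natAbs_eq with h | h
  · nth_rewrite 1 [h]
    exact h0 _
  · obtain ⟨σ, hσ1, hσ2⟩ := C.refl
    nth_rewrite 1 [h]
    rw [← h0]
    have h1 := σ.tsum_eq (FF u m (n.natAbs : ℤ))
    rw [← h1]
    exact tsum_congr fun i => C.FF_neg hσ1 hσ2 _ i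

lemma Cf.tsum_wz_re (C : Cf u m) (n : ℤ) :
    ∑' i, m i * (wv (u i) * zv (u i) ^ n).re = tc u m n := by
  unfold tc
  rw [← C.tsum_FF, ← C.tsum_FF, ← C.tsum_FF, ← tsum_mul_left,
    ← (C.summable_FF (n + 1)).tsum_add (C.summable_FF (n - 1)),
    ← ((C.summable_FF (n + 1)).add (C.summable_FF (n - 1))).tsum_sub ((C.summable_FF n).mul_left 2)]
  refine tsum_congr fun i => ?_
  rw [C.FF_rec n i]
  ring

lemma Cf.tsum_wz_im (C : Cf u m) (n : ℤ) :
    ∑' i, m i * (wv (u i) * zv (u i) ^ n).im = 0 := by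
  obtain ⟨γ, h1, h2⟩ := C.cj
  have h3 := γ.tsum_eq (fun i => m i * (wv (u i) * zv (u i) ^ n).im)
  have h4 : ∀ i, m (γ i) * (wv (u (γ i)) * zv (u (γ i)) ^ n).im =
      -(m i * (wv (u i) * zv (u i) ^ n).im) := by
    intro i
    rw [h1, h2, zv_cj, wv_cj, ← map_zpow₀, ← map_mul, Complex.conj_im]
    ring
  simp only [h4] at h3
  rw [tsum_neg] at h3
  linarith

lemma Cf.hasSum_wz (C : Cf u m) (n : ℤ) :
    HasSum (fun i => (m i : ℂ) * (wv (u i) * zv (u i) ^ n)) (tc u m n : ℂ) := by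
  have h := (C.summable_wz n).hasSum
  convert h using 1
  apply Complex.ext
  · rw [Complex.re_tsum (C.summable_wz n), Complex.ofReal_re, ← C.tsum_wz_re]
    refine tsum_congr fun i => ?_
    rw [Complex.re_ofReal_mul]
  · rw [Complex.im_tsum (C.summable_wz n), Complex.ofReal_im, ← C.tsum_wz_im n]
    refine tsum_congr fun i => ?_
    rw [Complex.im_ofReal_mul]

/-- the form in terms of the points -/
lemma Cf.hasSum_form (C : Cf u m) {N : ℕ} (a : Fin N → ℂ) :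
    HasSum (fun i => m i * (wv (u i) * ((∑ j, a j * zv (u i) ^ (j : ℕ)) *
      conj (∑ j, a j * zv (-conj (u i)) ^ (j : ℕ)))).re)
      (∑ j, ∑ k, (a j * conj (a k)).re * Tm u m N j k) := by
  have h1 : HasSum (fun i => ∑ j : Fin N, ∑ k : Fin N, a j * conj (a k) *
      ((m i : ℂ) * (wv (u i) * zv (u i) ^ ((j : ℤ) - (k : ℤ)))))
      (∑ j : Fin N, ∑ k : Fin N, a j * conj (a k) * (tc u m ((j : ℤ) - (k : ℤ)) : ℂ)) :=
    hasSum_sum fun j _ => hasSum_sum fun k _ => (C.hasSum_wz _).mul_left _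
  have h2 := Complex.hasSum_re h1
  convert h2 using 1
  · funext i
    rw [← Complex.re_ofReal_mul]
    congr 1
    rw [map_sum, Finset.sum_mul_sum, Finset.mul_sum, Finset.mul_sum]
    refine Finset.sum_congr rfl fun j _ => ?_
    rw [Finset.mul_sum, Finset.mul_sum]
    refine Finset.sum_congr rfl fun k _ => ?_
    rw [map_mul, zv_refl, map_pow, map_inv₀, Complex.conj_conj, zpow_sub₀ (zv_ne (C.re_lt i)),
      zpow_natCast, zpow_natCast, inv_pow, div_eq_mul_inv]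
    ring
  · rw [Complex.re_sum]
    refine Finset.sum_congr rfl fun j _ => ?_
    rw [Complex.re_sum]
    refine Finset.sum_congr rfl fun k _ => ?_
    rw [Complex.re_mul_ofReal]
    rfl

lemma Tm_symm (N : ℕ) (j k : Fin N) : Tm u m N j k = Tm u m N k j := by
  show tc u m ((j : ℤ) - (k : ℤ)) = tc u m ((k : ℤ) - (j : ℤ))
  unfold tc
  rw [← Int.natAbs_neg ((k : ℤ) - (j : ℤ) + 1), ← Int.natAbs_neg ((k : ℤ) - (j : ℤ) - 1),
    ← Int.natAbs_neg ((k : ℤ) - (j : ℤ))]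
  ring_nf

lemma Tm_isHermitian (N : ℕ) : (Tm u m N).IsHermitian := by
  rw [Matrix.IsHermitian]
  ext j k
  simp only [Matrix.conjTranspose_apply, star_trivial]
  exact Tm_symm N k j

lemma psd_re {N : ℕ} (h : (Tm u m N).PosSemidef) (a : Fin N → ℂ) :
    0 ≤ ∑ j, ∑ k, (a j * conj (a k)).re * Tm u m N j k := by
  have hx := h.dotProduct_mulVec_nonneg (fun j => (a j).re)
  have hy := h.dotProduct_mulVec_nonneg (fun j => (a j).im)
  have : ∑ j, ∑ k, (a j * conj (a k)).re * Tm u m N j k =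
      star (fun j => (a j).re) ⬝ᵥ ((Tm u m N).mulVec fun j => (a j).re) +
      star (fun j => (a j).im) ⬝ᵥ ((Tm u m N).mulVec fun j => (a j).im) := by
    simp only [dotProduct, Matrix.mulVec, Finset.mul_sum, ← Finset.sum_add_distrib]
    refine Finset.sum_congr rfl fun j _ => Finset.sum_congr rfl fun k _ => ?_
    simp only [Complex.mul_re, Complex.conj_re, Complex.conj_im, Pi.star_apply, star_trivial]
    ring
  rw [this]
  exact add_nonneg hx hy

lemma Tm_sub {N M : ℕ} (hNM : N ≤ M) (h : (Tm u m M).PosSemidef) : (Tm u m N).PosSemidef := by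
  have := h.submatrix (Fin.castLE hNM)
  convert this using 1
  ext j k
  rfl

end Pool.Agent.Helper76.LW
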