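import Pool.Agent.Helper76.LW.Samp3
import Pool.Agent.Helper76.LW.Mat

set_option autoImplicit false

/-!
# The terms of the form at high zeros
-/

namespace Pool.Agent.Helper76.LW

open Complex Filter Topology Polynomial
open scoped ComplexConjugate

/-- the real-type variable attached to a point -/
noncomputable def xv (H : ℝ) (v : ℂ) : ℂ := I * H / v

lemma xv_re (H : ℝ) (v : ℂ) : (xv H v).re = H * v.im / Complex.normSq v := by
  unfold xv
  rw [div_eq_mul_inv, Complex.inv_def]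
  simp only [Complex.mul_re, Complex.mul_im, Complex.I_re, Complex.I_im, Complex.ofReal_re, Complex.ofReal_im,
    Complex.conj_re, Complex.conj_im]
  ring

lemma xv_im (H : ℝ) (v : ℂ) : (xv H v).im = H * v.re / Complex.normSq v := by
  unfold xv
  rw [div_eq_mul_inv, Complex.inv_def]
  simp only [Complex.mul_re, Complex.mul_im, Complex.I_re, Complex.I_im, Complex.ofReal_re, Complex.ofReal_im,
    Complex.conj_re, Complex.conj_im]
  ring

/-- the reversed polynomial -/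
noncomputable def PP (D : ℕ) (H : ℝ) (R : ℂ[X]) : ℂ[X] :=
  ∑ k ∈ Finset.range (D + 1), Polynomial.C (R.coeff (D - k) * (1 / (I * H)) ^ k) * X ^ k

lemma PP_natDegree (D : ℕ) (H : ℝ) (R : ℂ[X]) : (PP D H R).natDegree ≤ D := by
  unfold PP
  refine Polynomial.natDegree_sum_le_of_forall_le _ _ fun k hk => ?_
  have hk' : k ≤ D := Nat.lt_succ_iff.mp (Finset.mem_range.mp hk)
  exact (Polynomial.natDegree_C_mul_X_pow_le _ _).trans hk'

lemma PP_eval {D : ℕ} {H : ℝ} {R : ℂ[X]} (hR : R.natDegree ≤ D) (hH : H ≠ 0) {v : ℂ} (hv : v ≠ 0) :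
    R.eval v = v ^ D * (PP D H R).eval (xv H v) := by
  unfold PP xv
  rw [Polynomial.eval_finsetSum, Polynomial.eval_eq_sum_range' (Nat.lt_succ_of_le hR),
    ← Finset.sum_range_reflect, Finset.mul_sum]
  refine Finset.sum_congr rfl fun k hk => ?_
  have hk' : k ≤ D := Nat.lt_succ_iff.mp (Finset.mem_range.mp hk)
  have hIH : I * (H : ℂ) ≠ 0 := mul_ne_zero I_ne_zero (by exact_mod_cast hH)
  simp only [Polynomial.eval_mul, Polynomial.eval_C, Polynomial.eval_pow, Polynomial.eval_X]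
  have h1 : D + 1 - 1 - k = D - k := by omega
  rw [h1]
  have h2 : v ^ D = v ^ (D - k) * v ^ k := by
    rw [← pow_add]
    congr 1
    omega
  have h3 : (1 / (I * (H : ℂ))) ^ k * (I * H / v) ^ k = (v ^ k)⁻¹ := by
    rw [← mul_pow, ← inv_pow]
    congr 1
    rw [one_div, mul_div_assoc', inv_mul_cancel₀ hIH, one_div]
  rw [h2]
  have h4 : v ^ k ≠ 0 := pow_ne_zero _ hv
  calc R.coeff (D - k) * v ^ (D - k) = v ^ (D - k) * v ^ k * (R.coeff (D - k) * (v ^ k)⁻¹) := by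
        field_simp
    _ = _ := by
        rw [← h3]
        ring

/-- the terms of the form in the new variable -/
lemma G_eq {D : ℕ} {H : ℝ} {R : ℂ[X]} (hR : R.natDegree ≤ D) (hH : H ≠ 0) {v : ℂ} (hv : v ≠ 0)
    (hq : (1 : ℂ) / 4 - v ^ 2 ≠ 0) :
    G D R v = (xv H v / H) ^ 2 / (1 + (xv H v / H) ^ 2 / 4) ^ (D + 1) *
      ((PP D H R).eval (xv H v) * conj ((PP D H R).eval (conj (xv H v)))) := by
  have hHc : (H : ℂ) ≠ 0 := by exact_mod_cast hH
  have hv' : -conj v ≠ 0 := by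
    rw [neg_ne_zero]
    rwa [Ne, map_eq_zero]
  have h1 := PP_eval (R := R) hR hH hv
  have h2 := PP_eval (R := R) hR hH hv'
  have h3 : xv H (-conj v) = conj (xv H v) := by
    unfold xv
    rw [map_div₀, map_mul, Complex.conj_I, Complex.conj_ofReal, ← neg_div_neg_eq]
    simp
  rw [h3] at h2
  have h4 : (xv H v / H) ^ 2 = -1 / v ^ 2 := by
    unfold xv
    rw [div_div, mul_comm v, ← div_div, mul_div_cancel_right₀ _ hHc, div_pow, I_sq]
  unfold G
  rw [h1, h2, map_mul, map_pow, map_neg, Complex.conj_conj, h4]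
  have h5 : 1 + -1 / v ^ 2 / 4 = (1 / 4 - v ^ 2) * (-1 / v ^ 2) := by
    field_simp
    ring
  rw [h5, mul_pow (1 / 4 - v ^ 2)]
  have h6 : (-1 / v ^ 2) ^ (D + 1) ≠ 0 := pow_ne_zero _ (div_ne_zero (by norm_num) (pow_ne_zero _ hv))
  have h7 : (1 / 4 - v ^ 2) ^ (D + 1) ≠ 0 := pow_ne_zero _ hq
  have h8 : v ^ D * (-v) ^ D * (-1 / v ^ 2) ^ (D + 1) = -1 / v ^ 2 := by
    rw [← mul_pow, pow_succ, ← mul_assoc, ← mul_pow]
    have : v * -v * (-1 / v ^ 2) = 1 := by
      field_simp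
    rw [this, one_pow, one_mul]
  rw [div_mul_eq_mul_div, div_eq_div_iff h7 (mul_ne_zero h7 h6)]
  linear_combination ((PP D H R).eval (xv H v) * conj ((PP D H R).eval (conj (xv H v)))) *
    (1 / 4 - v ^ 2) ^ (D + 1) * h8

lemma normSq_ge (v : ℂ) : v.im ^ 2 ≤ Complex.normSq v := by
  rw [Complex.normSq_apply]
  nlinarith [sq_nonneg v.re]

lemma xv_re_le {H : ℝ} (hH : 0 < H) {v : ℂ} (ht : v.im ≠ 0) : |(xv H v).re| ≤ H / |v.im| := by
  have h1 := normSq_ge v
  have h2 : 0 < |v.im| := abs_pos.mpr ht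
  have h3 : 0 < v.im ^ 2 := by positivity
  rw [xv_re, abs_div, abs_mul, abs_of_pos hH, abs_of_pos (h3.trans_le h1),
    div_le_div_iff₀ (h3.trans_le h1) h2]
  calc H * |v.im| * |v.im| = H * v.im ^ 2 := by
        rw [mul_assoc, ← sq, sq_abs]
    _ ≤ H * Complex.normSq v := by gcongr

lemma xv_im_le {H : ℝ} (hH : 0 < H) {v : ℂ} (hv : |v.re| < 1 / 2) (ht : v.im ≠ 0) :
    |(xv H v).im| ≤ H / (2 * v.im ^ 2) := by
  have h1 := normSq_ge v
  have h3 : 0 < v.im ^ 2 := by positivity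
  rw [xv_im, abs_div, abs_mul, abs_of_pos hH, abs_of_pos (h3.trans_le h1),
    div_le_div_iff₀ (h3.trans_le h1) (by positivity)]
  calc H * |v.re| * (2 * v.im ^ 2) ≤ H * (1 / 2) * (2 * v.im ^ 2) := by gcongr
    _ = H * v.im ^ 2 := by ring
    _ ≤ H * Complex.normSq v := by gcongr

/-- the weight is nearly real -/
lemma weight_near {D : ℕ} {H : ℝ} (hH : 4 ≤ H) (hD : ((D + 1 : ℕ) : ℝ) ≤ H) {v : ℂ} (hv : |v.re| < 1 / 2)
    (ht : H / 2 ≤ |v.im|) :
    ∃ e : ℂ, ‖e‖ ≤ 8 / H ∧ (xv H v / H) ^ 2 / (1 + (xv H v / H) ^ 2 / 4) ^ (D + 1) =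
      ((((xv H v).re / H) ^ 2 : ℝ) : ℂ) * (1 + e) := by
  have hH0 : 0 < H := by linarith
  have hHc : (H : ℂ) ≠ 0 := by exact_mod_cast hH0.ne'
  have htpos : 0 < |v.im| := by linarith
  have ht0 : v.im ≠ 0 := abs_pos.mp htpos
  have hv0 : v ≠ 0 := by
    intro h
    rw [h] at ht0
    simp at ht0
  have hN0 : 0 < Complex.normSq v := Complex.normSq_pos.mpr hv0
  have hNt := normSq_ge v
  have hx : xv H v = ((xv H v).re : ℂ) * (1 + I * (v.re / v.im : ℝ)) := by
    apply Complex.ext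
    · simp only [Complex.mul_re, Complex.ofReal_re, Complex.ofReal_im, Complex.add_re, Complex.one_re,
        Complex.I_re, Complex.I_im]
      ring
    · simp only [Complex.mul_im, Complex.ofReal_re, Complex.ofReal_im, Complex.add_im, Complex.one_im,
        Complex.I_re, Complex.I_im, Complex.add_re]
      rw [xv_re, xv_im]
      field_simp
      ring
  have n1 : Near (1 + I * (v.re / v.im : ℝ)) (1 / H) := by
    apply Near.of_le
    rw [add_sub_cancel_left, norm_mul, Complex.norm_I, one_mul, Complex.norm_real, norm_div,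
      Real.norm_eq_abs, Real.norm_eq_abs, div_le_div_iff₀ htpos hH0]
    nlinarith
  have n2 := n1.pow 2
  have hnorm : ‖xv H v / H‖ ^ 2 ≤ 4 / H ^ 2 := by
    unfold xv
    rw [mul_div_right_comm, mul_div_cancel_right₀ _ hHc, norm_div, Complex.norm_I, div_pow, one_pow,
      ← Complex.normSq_eq_norm_sq, div_le_div_iff₀ hN0 (by positivity)]
    have : (H / 2) ^ 2 ≤ |v.im| ^ 2 := by gcongr
    rw [sq_abs] at this
    nlinarith
  have hy : ‖(xv H v / H) ^ 2 / 4‖ ≤ 1 / H ^ 2 := by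
    rw [norm_div, norm_pow]
    have : ‖(4 : ℂ)‖ = 4 := by simp
    rw [this, div_le_iff₀ (by norm_num)]
    calc ‖xv H v / H‖ ^ 2 ≤ 4 / H ^ 2 := hnorm
      _ = 1 / H ^ 2 * 4 := by ring
  set y := (xv H v / H) ^ 2 / 4 with hydef
  have hH2 : 1 / H ^ 2 ≤ 1 / 16 := by
    apply one_div_le_one_div_of_le (by norm_num)
    nlinarith
  have hy1 : 1 / 2 ≤ ‖1 + y‖ := by
    have h1 : ‖(1 : ℂ)‖ - ‖-y‖ ≤ ‖1 - -y‖ := norm_sub_norm_le _ _
    rw [norm_neg, norm_one, sub_neg_eq_add] at h1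
    linarith
  have hy0 : 1 + y ≠ 0 := by
    rw [← norm_pos_iff]
    linarith
  have n3 : Near ((1 + y)⁻¹) (2 / H ^ 2) := by
    apply Near.of_le
    have h1 : (1 + y)⁻¹ - 1 = -y / (1 + y) := by
      field_simp
      ring
    rw [h1, norm_div, norm_neg, div_le_iff₀ (by linarith)]
    calc ‖y‖ ≤ 1 / H ^ 2 := hy
      _ = 2 / H ^ 2 * (1 / 2) := by ring
      _ ≤ 2 / H ^ 2 * ‖1 + y‖ := by gcongr
  have n4 := n3.pow (D + 1)
  have n5 := n2.mul n4
  have hle : ((2 : ℕ) : ℝ) * (1 / H) + ((D + 1 : ℕ) : ℝ) * (2 / H ^ 2) ≤ 4 / H := by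
    have h1 : ((D + 1 : ℕ) : ℝ) * (2 / H ^ 2) ≤ H * (2 / H ^ 2) := by gcongr
    have h2 : H * (2 / H ^ 2) = 2 / H := by
      field_simp
    push_cast at h1 ⊢
    have h3 : (2 : ℝ) * (1 / H) + 2 / H = 4 / H := by ring
    linarith
  have n6 := n5.mono hle
  refine ⟨(1 + I * (v.re / v.im : ℝ)) ^ 2 * ((1 + y)⁻¹) ^ (D + 1) - 1, ?_, ?_⟩
  · unfold Near at n6
    refine n6.trans ?_
    have h1 : 4 / H ≤ 1 := by
      rw [div_le_one hH0]
      exact hH
    have h2 := Real.abs_exp_sub_one_le (x := 4 / H) (by rw [abs_of_pos (by positivity)]; exact h1)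
    rw [abs_of_pos (show 0 < 4 / H by positivity)] at h2
    have h3 := le_abs_self (Real.exp (4 / H) - 1)
    have h4 : 8 / H = 2 * (4 / H) := by ring
    linarith
  · rw [add_sub_cancel]
    rw [inv_pow, div_eq_mul_inv]
    rw [← mul_assoc]
    congr 1
    nth_rewrite 1 [hx]
    push_cast
    ring

/-- lower bound for the real part of the terms at high points -/
lemma far_lower {D : ℕ} {H : ℝ} {R : ℂ[X]} (hR : R.natDegree ≤ D) (hH : 4 ≤ H)
    (hD : ((D + 1 : ℕ) : ℝ) ≤ H) {v : ℂ} (hv : |v.re| < 1 / 2) (ht : H / 2 ≤ |v.im|) {M ε : ℝ}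
    (hε : ε ≤ 1) (hM : 0 ≤ M) (h1 : ‖(PP D H R).eval ((xv H v).re : ℂ)‖ ≤ M)
    (h2 : ‖(PP D H R).eval (xv H v) - (PP D H R).eval ((xv H v).re : ℂ)‖ ≤ ε * M)
    (h3 : ‖(PP D H R).eval (conj (xv H v)) - (PP D H R).eval ((xv H v).re : ℂ)‖ ≤ ε * M) :
    ((xv H v).re / H) ^ 2 * (‖(PP D H R).eval ((xv H v).re : ℂ)‖ ^ 2 - (32 / H + 3 * ε) * M ^ 2) ≤
      (G D R v).re := by
  have hH0 : 0 < H := by linarith
  have htpos : 0 < |v.im| := by linarith
  have ht0 : v.im ≠ 0 := abs_pos.mp htpos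
  have hv0 : v ≠ 0 := by
    intro h
    rw [h] at ht0
    simp at ht0
  obtain ⟨e, he, hw⟩ := weight_near hH hD hv ht
  rw [G_eq hR hH0.ne' hv0 (quarter_ne hv), hw, mul_assoc, Complex.re_ofReal_mul]
  gcongr
  set p := (PP D H R).eval ((xv H v).re : ℂ) with hp
  set p1 := (PP D H R).eval (xv H v) - p with hp1
  set p2 := (PP D H R).eval (conj (xv H v)) - p with hp2
  have e1 : (PP D H R).eval (xv H v) = p + p1 := by rw [hp1]; ring
  have e2 : (PP D H R).eval (conj (xv H v)) = p + p2 := by rw [hp2]; ring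
  rw [e1, e2]
  have hpp : p * conj p = ((‖p‖ ^ 2 : ℝ) : ℂ) := by
    rw [Complex.mul_conj, Complex.normSq_eq_norm_sq]
  have hexp : (1 + e) * ((p + p1) * conj (p + p2)) =
      ((‖p‖ ^ 2 : ℝ) : ℂ) + (p1 * conj p + p * conj p2 + p1 * conj p2 + e * ((p + p1) * conj (p + p2))) := by
    rw [← hpp, map_add]
    ring
  rw [hexp, Complex.add_re, Complex.ofReal_re]
  have hε0 : 0 ≤ ε * M := (norm_nonneg _).trans h2
  have hεM : ε * M ≤ M := by nlinarith
  have b1 : ‖p1 * conj p‖ ≤ (ε * M) * M := by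
    rw [norm_mul, Complex.norm_conj]
    gcongr
  have b2 : ‖p * conj p2‖ ≤ M * (ε * M) := by
    rw [norm_mul, Complex.norm_conj]
    gcongr
  have b3 : ‖p1 * conj p2‖ ≤ (ε * M) * M := by
    rw [norm_mul, Complex.norm_conj]
    gcongr
    exact h3.trans hεM
  have b4 : ‖p + p1‖ ≤ 2 * M := (norm_add_le _ _).trans (by linarith)
  have b5 : ‖p + p2‖ ≤ 2 * M := (norm_add_le _ _).trans (by linarith)
  have b6 : ‖e * ((p + p1) * conj (p + p2))‖ ≤ 8 / H * ((2 * M) * (2 * M)) := by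
    rw [norm_mul, norm_mul, Complex.norm_conj]
    gcongr
  have b7 : ‖p1 * conj p + p * conj p2 + p1 * conj p2 + e * ((p + p1) * conj (p + p2))‖ ≤
      (32 / H + 3 * ε) * M ^ 2 := by
    refine (norm_add_le _ _).trans ?_
    have := norm_add₃_le (a := p1 * conj p) (b := p * conj p2) (c := p1 * conj p2)
    have e3 : (32 / H + 3 * ε) * M ^ 2 = ε * M * M + M * (ε * M) + ε * M * M + 8 / H * ((2 * M) * (2 * M)) := by
      ring
    rw [e3]
    linarith
  have b8 := (abs_le.mp ((Complex.abs_re_le_norm _).trans b7)).1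
  linarith

end Pool.Agent.Helper76.LW
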