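import Pool.Agent.Helper76.LW.Far

set_option autoImplicit false

/-!
# Masses of the cells
-/

namespace Pool.Agent.Helper76.LW

open Complex Filter Topology Polynomial
open scoped ComplexConjugate

variable {ι : Type*} {u : ι → ℂ} {m : ι → ℝ}

/-- lower bound for the number of points in short intervals -/
def LBc (u : ι → ℂ) (m : ι → ℝ) : Prop :=
  ∃ c C0 T0 : ℝ, 0 < c ∧ 1 ≤ C0 ∧ 2 ≤ T0 ∧ ∀ T : ℝ, T0 ≤ T → ∀ L : ℝ, C0 * Real.log T ≤ L → L ≤ T →
    ∃ S : Finset ι, (∀ i ∈ S, T ≤ (u i).im ∧ (u i).im ≤ T + L) ∧ c * L * Real.log T ≤ ∑ i ∈ S, m i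

/-- the weight of a point -/
noncomputable def wt (H : ℝ) (v : ℂ) : ℝ := ((xv H v).re / H) ^ 2

lemma normSq_le' {v : ℂ} (hv : |v.re| < 1 / 2) : Complex.normSq v ≤ v.im ^ 2 + 1 / 4 := by
  rw [Complex.normSq_apply]
  have : v.re ^ 2 ≤ (1 / 2) ^ 2 := by
    rw [← sq_abs]
    have := abs_nonneg v.re
    gcongr
  nlinarith

lemma xv_re_gt {H : ℝ} (hH : 0 < H) {v : ℂ} (hv : |v.re| < 1 / 2) (ht : 1 ≤ |v.im|) :
    H / (|v.im| + 1) < |(xv H v).re| := by
  have h1 := normSq_le' hv
  have h2 := normSq_ge v
  have h3 : 0 < v.im ^ 2 := by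
    rw [← sq_abs]
    positivity
  have h4 : 0 < Complex.normSq v := h3.trans_le h2
  rw [xv_re, abs_div, abs_mul, abs_of_pos hH, abs_of_pos h4, div_lt_div_iff₀ (by positivity) h4]
  have h5 : Complex.normSq v < |v.im| * (|v.im| + 1) := by
    have h6 : v.im ^ 2 = |v.im| ^ 2 := (sq_abs _).symm
    rw [h6] at h1
    nlinarith
  calc H * Complex.normSq v < H * (|v.im| * (|v.im| + 1)) := by gcongr
    _ = _ := by ring

lemma wt_le {H : ℝ} (hH : 0 < H) {v : ℂ} (ht : v.im ≠ 0) : wt H v ≤ 1 / |v.im| ^ 2 := by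
  have h1 := xv_re_le hH ht
  unfold wt
  rw [← sq_abs, abs_div, abs_of_pos hH]
  have h2 : |(xv H v).re| / H ≤ 1 / |v.im| := by
    rw [div_le_iff₀ hH]
    calc |(xv H v).re| ≤ H / |v.im| := h1
      _ = 1 / |v.im| * H := by ring
  calc (|(xv H v).re| / H) ^ 2 ≤ (1 / |v.im|) ^ 2 := by
        have := abs_nonneg (xv H v).re
        gcongr
    _ = _ := by rw [div_pow, one_pow]

lemma log_bounds {H : ℝ} (hH : 200000 ≤ H) {n : ℕ} (hn : 1 ≤ n) (hnH : (n : ℝ) ≤ H) :
    1 ≤ Real.log H ∧ Real.log (H / dl n) ≤ 3 * Real.log H := by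
  have hnr : (1 : ℝ) ≤ n := by exact_mod_cast hn
  have hH0 : 0 < H := by linarith
  constructor
  · rw [Real.le_log_iff_exp_le hH0]
    linarith [Real.exp_one_lt_d9]
  · have h1 : H / dl n = 200000 * n * H := by
      rw [dl]
      field_simp
    rw [h1]
    have h2 : 200000 * n * H ≤ H ^ 3 := by
      calc 200000 * n * H ≤ H * H * H := by gcongr
        _ = H ^ 3 := by ring
    calc Real.log (200000 * n * H) ≤ Real.log (H ^ 3) := Real.log_le_log (by positivity) h2
      _ = 3 * Real.log H := by
        rw [Real.log_pow]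
        norm_num

/-- every cell on the positive side has enough mass -/
lemma mass_lower (C : Cf u m) (hLB : LBc u m) : ∃ c1 K0 H0 : ℝ, 0 < c1 ∧ 0 < K0 ∧
    ∀ n : ℕ, 1 ≤ n → ∀ H : ℝ, H0 ≤ H → (n : ℝ) ≤ H → K0 * n * Real.log H ≤ H → ∀ k : ℕ, k < 400000 * n →
      ∃ F : Finset ι, (∀ i ∈ F, H / 2 ≤ (u i).im ∧ k * dl n < (xv H (u i)).re ∧
        (xv H (u i)).re < (k + 1) * dl n) ∧
        c1 * (dl n / H * Real.log H) ≤ ∑ i ∈ F, m i * wt H (u i) := by
  obtain ⟨c, C0, T0, hc, hC0, hT0, hS⟩ := hLB
  refine ⟨c / 9, 800000 * (3 * C0 + 4), max (2 * T0) 200000, by positivity, by positivity, ?_⟩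
  intro n hn H hH hnH hK k hk
  have hHT : 2 * T0 ≤ H := (le_max_left _ _).trans hH
  have hH2 : 200000 ≤ H := (le_max_right _ _).trans hH
  have hnr : (1 : ℝ) ≤ n := by exact_mod_cast hn
  have hH0 : 0 < H := by linarith
  obtain ⟨hlog1, hlogA⟩ := log_bounds hH2 hn hnH
  have hd0 := dl_pos hn
  set δ := dl n with hδ
  set A := H / δ with hA
  have hA0 : 0 < A := by positivity
  have hAδ : A * δ = H := by rw [hA]; field_simp
  have hδ1 : δ ≤ 1 / 200000 := by
    rw [hδ, dl]
    apply one_div_le_one_div_of_le (by norm_num)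
    linarith
  have hAH : 200000 * H ≤ A := by
    rw [hA, le_div_iff₀ hd0]
    nlinarith
  have hkδ : ((k : ℝ) + 1) * δ ≤ 2 := by
    have h1 : (k : ℝ) + 1 ≤ 400000 * n := by exact_mod_cast hk
    calc ((k : ℝ) + 1) * δ ≤ 400000 * n * δ := by gcongr
      _ = 2 * (200000 * n * δ) := by ring
      _ = 2 := by rw [hδ, dl_mul hn]; norm_num
  have hHδ : 3 * C0 * Real.log H + 4 ≤ H * δ / 4 := by
    have h1 : H * δ / 4 = H / (800000 * n) := by
      rw [hδ, dl]
      field_simp
      norm_num
    rw [h1, le_div_iff₀ (by positivity)]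
    have h2 : (3 * C0 * Real.log H + 4) * (800000 * n) ≤ 800000 * (3 * C0 + 4) * n * Real.log H := by
      have : (3 * C0 * Real.log H + 4) ≤ (3 * C0 + 4) * Real.log H := by nlinarith
      calc (3 * C0 * Real.log H + 4) * (800000 * n) ≤ ((3 * C0 + 4) * Real.log H) * (800000 * n) := by gcongr
        _ = _ := by ring
    linarith
  have hgen : ∀ i, 1 ≤ (u i).im → H / ((u i).im + 1) < (xv H (u i)).re ∧ (xv H (u i)).re ≤ H / (u i).im := by
    intro i hi
    have h0 : 0 < (u i).im := by linarith
    have h1 := xv_re_gt hH0 (C.re_lt i) (by rw [abs_of_pos h0]; exact hi)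
    have h2 := xv_re_le hH0 (v := u i) h0.ne'
    have h3 : 0 < (xv H (u i)).re := by
      rw [xv_re]
      have : 0 < Complex.normSq (u i) := lt_of_lt_of_le (by positivity) (normSq_ge (u i))
      positivity
    rw [abs_of_pos h0, abs_of_pos h3] at h1 h2
    exact ⟨h1, h2⟩
  rcases Nat.eq_zero_or_pos k with hk0 | hk0
  · -- the cell at the origin
    subst hk0
    obtain ⟨S, hS1, hS2⟩ := hS (A + 1) (by linarith) A (by
      have h1 : Real.log (A + 1) ≤ 3 * Real.log H + 1 := by
        have h2 : Real.log (A + 1) ≤ Real.log (A * Real.exp 1) := by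
          apply Real.log_le_log (by positivity)
          nlinarith [Real.exp_one_gt_d9]
        rw [Real.log_mul hA0.ne' (Real.exp_pos 1).ne', Real.log_exp] at h2
        linarith
      have h2 : C0 * Real.log (A + 1) ≤ C0 * (3 * Real.log H + 1) := by gcongr
      nlinarith) (by linarith)
    refine ⟨S, fun i hi => ?_, ?_⟩
    · obtain ⟨h1, h2⟩ := hS1 i hi
      obtain ⟨h3, h4⟩ := hgen i (by linarith)
      have h5 : 0 < H / ((u i).im + 1) := by
        have : 0 < (u i).im + 1 := by linarith
        positivity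
      refine ⟨by linarith, ?_, ?_⟩
      · push_cast
        linarith
      · push_cast
        rw [zero_add, one_mul]
        refine h4.trans_lt ?_
        rw [div_lt_iff₀ (by linarith), mul_comm, ← div_lt_iff₀ hd0]
        linarith
    · have h5 : c / 9 * (δ / H * Real.log H) ≤ (δ / 3 / H) ^ 2 * (c * A * Real.log (A + 1)) := by
        have h6 : Real.log H ≤ Real.log (A + 1) := Real.log_le_log hH0 (by linarith)
        have h7 : (δ / 3 / H) ^ 2 * (c * A * Real.log (A + 1)) = c / 9 * (δ / H * Real.log (A + 1)) := by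
          generalize Real.log (A + 1) = ℓ
          rw [hA]
          field_simp
          ring
        rw [h7]
        gcongr
      refine h5.trans ?_
      calc (δ / 3 / H) ^ 2 * (c * A * Real.log (A + 1)) ≤ (δ / 3 / H) ^ 2 * ∑ i ∈ S, m i := by gcongr
        _ = ∑ i ∈ S, m i * (δ / 3 / H) ^ 2 := by rw [Finset.mul_sum]; exact Finset.sum_congr rfl fun i _ => mul_comm _ _
        _ ≤ ∑ i ∈ S, m i * wt H (u i) := by
          refine Finset.sum_le_sum fun i hi => ?_
          obtain ⟨h1, h2⟩ := hS1 i hi
          obtain ⟨h3, h4⟩ := hgen i (by linarith)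
          have hm := C.m_nonneg i
          unfold wt
          gcongr
          refine le_trans ?_ h3.le
          rw [div_le_div_iff₀ (by norm_num) (by linarith)]
          have : δ * ((u i).im + 1) ≤ δ * (3 * A) := by
            gcongr
            linarith
          nlinarith
  · -- the other cells
    have hk1 : (1 : ℝ) ≤ k := by exact_mod_cast hk0
    have hL : H * δ / 4 ≤ A / (k * (k + 1)) := by
      rw [div_le_div_iff₀ (by norm_num) (by positivity)]
      have h1 : (k : ℝ) * δ ≤ 2 := by nlinarith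
      have h2 : ((k : ℝ) * δ) * ((k + 1) * δ) ≤ 2 * 2 := by gcongr
      have h3 : H * δ * (k * (k + 1)) = A * ((k * δ) * ((k + 1) * δ)) := by
        rw [← hAδ]
        ring
      rw [h3]
      nlinarith
    have hsplit : A / (k + 1) + A / (k * (k + 1)) = A / k := by
      field_simp
    have hAk : H / 2 ≤ A / (k + 1) := by
      rw [div_le_div_iff₀ (by norm_num) (by positivity)]
      nlinarith
    have hkk : A / (k * (k + 1)) ≤ A / (k + 1) := by
      apply div_le_div_of_nonneg_left hA0.le (by positivity)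
      nlinarith
    have hAk2 : A / (k + 1) ≤ A / 2 := by
      apply div_le_div_of_nonneg_left hA0.le (by norm_num)
      linarith
    obtain ⟨S, hS1, hS2⟩ := hS (A / (k + 1) + 1) (by linarith) (A / (k * (k + 1)) - 2) (by
      have h1 : Real.log (A / (k + 1) + 1) ≤ 3 * Real.log H := by
        refine le_trans (Real.log_le_log (by positivity) ?_) hlogA
        linarith
      have h2 : C0 * Real.log (A / (k + 1) + 1) ≤ C0 * (3 * Real.log H) := by gcongr
      nlinarith) (by linarith)
    have hloc : ∀ i ∈ S, (k : ℝ) * δ < (xv H (u i)).re ∧ (xv H (u i)).re < (k + 1) * δ := by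
      intro i hi
      obtain ⟨h1, h2⟩ := hS1 i hi
      obtain ⟨h3, h4⟩ := hgen i (by linarith)
      constructor
      · refine lt_of_le_of_lt ?_ h3
        rw [le_div_iff₀ (by linarith)]
        have h5 : (u i).im + 1 ≤ A / k := by linarith
        calc (k : ℝ) * δ * ((u i).im + 1) ≤ k * δ * (A / k) := by gcongr
          _ = H := by
            rw [← hAδ]
            field_simp
      · refine lt_of_le_of_lt h4 ?_
        rw [div_lt_iff₀ (by linarith)]
        have h5 : A / (k + 1) < (u i).im := by linarith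
        calc H = (k + 1) * δ * (A / (k + 1)) := by
              rw [← hAδ]
              field_simp
          _ < (k + 1) * δ * (u i).im := by gcongr
    refine ⟨S, fun i hi => ⟨?_, (hloc i hi).1, (hloc i hi).2⟩, ?_⟩
    · obtain ⟨h1, h2⟩ := hS1 i hi
      linarith
    · have h5 : c / 9 * (δ / H * Real.log H) ≤
          (k * δ / H) ^ 2 * (c * (A / (k * (k + 1)) - 2) * Real.log (A / (k + 1) + 1)) := by
        have h6 : Real.log H / 2 ≤ Real.log (A / (k + 1) + 1) := by
          have h7 : Real.log (H / 2) ≤ Real.log (A / (k + 1) + 1) := by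
            apply Real.log_le_log (by positivity)
            linarith
          rw [Real.log_div hH0.ne' (by norm_num)] at h7
          have h8 : Real.log 4 ≤ Real.log H := Real.log_le_log (by norm_num) (by linarith)
          have h9 : Real.log 4 = 2 * Real.log 2 := by
            rw [show (4 : ℝ) = 2 ^ 2 by norm_num, Real.log_pow]
            norm_num
          linarith
        have h7 : A / (2 * (k * (k + 1))) ≤ A / (k * (k + 1)) - 2 := by
          have h8 : A / (2 * (k * (k + 1))) = A / (k * (k + 1)) / 2 := by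
            field_simp
          rw [h8]
          nlinarith
        have h8 : (k * δ / H) ^ 2 * (c * (A / (2 * (k * (k + 1)))) * (Real.log H / 2)) =
            c / 4 * (k / (k + 1)) * (δ / H * Real.log H) := by
          rw [hA]
          field_simp
          norm_num
        have h9 : (1 : ℝ) / 2 ≤ k / (k + 1) := by
          rw [div_le_div_iff₀ (by norm_num) (by positivity)]
          linarith
        have h10 : 0 ≤ δ / H * Real.log H := by positivity
        have h11 : 0 ≤ A / (k * (k + 1)) - 2 := by nlinarith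
        calc c / 9 * (δ / H * Real.log H) ≤ c / 4 * (k / (k + 1)) * (δ / H * Real.log H) := by
              gcongr
              nlinarith
          _ = (k * δ / H) ^ 2 * (c * (A / (2 * (k * (k + 1)))) * (Real.log H / 2)) := h8.symm
          _ ≤ _ := by gcongr
      refine h5.trans ?_
      calc (k * δ / H) ^ 2 * (c * (A / (k * (k + 1)) - 2) * Real.log (A / (k + 1) + 1)) ≤
            (k * δ / H) ^ 2 * ∑ i ∈ S, m i := by gcongr
        _ = ∑ i ∈ S, m i * (k * δ / H) ^ 2 := by
          rw [Finset.mul_sum]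
          exact Finset.sum_congr rfl fun i _ => mul_comm _ _
        _ ≤ ∑ i ∈ S, m i * wt H (u i) := by
          refine Finset.sum_le_sum fun i hi => ?_
          have hm := C.m_nonneg i
          unfold wt
          gcongr
          exact (hloc i hi).1.le

end Pool.Agent.Helper76.LW
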