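import Pool.Agent.Helper76.LW.Mass

set_option autoImplicit false

/-!
# Upper bounds for the masses of the cells
-/

namespace Pool.Agent.Helper76.LW

open Complex Filter Topology Polynomial
open scoped ComplexConjugate

variable {ι : Type*} {u : ι → ℂ} {m : ι → ℝ}

lemma tel {q : ℕ} (hq : 3 ≤ q) : Real.log (2 + q) / ((q : ℝ) - 1) ^ 2 ≤
    4 * ((Real.log q + 2) / q - (Real.log ((q : ℝ) + 1) + 2) / (q + 1)) := by
  have hq3 : (3 : ℝ) ≤ q := by exact_mod_cast hq
  have hq0 : (0 : ℝ) < q := by linarith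
  have h1 : Real.log ((q : ℝ) + 1) ≤ Real.log q + 1 / q := by
    have h2 : Real.log (((q : ℝ) + 1) / q) ≤ ((q : ℝ) + 1) / q - 1 := Real.log_le_sub_one_of_pos (by positivity)
    rw [Real.log_div (by positivity) (by positivity)] at h2
    have h3 : ((q : ℝ) + 1) / q - 1 = 1 / q := by
      field_simp
      ring
    linarith
  have h2 : Real.log (2 + q) ≤ Real.log q + 1 := by
    have h2 : Real.log ((2 + (q : ℝ)) / q) ≤ (2 + (q : ℝ)) / q - 1 := Real.log_le_sub_one_of_pos (by positivity)
    rw [Real.log_div (by positivity) (by positivity)] at h2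
    have h3 : (2 + (q : ℝ)) / q - 1 = 2 / q := by
      field_simp
      ring
    have h4 : 2 / (q : ℝ) ≤ 1 := by
      rw [div_le_one hq0]
      linarith
    linarith
  have hlog : 0 ≤ Real.log q := Real.log_nonneg (by linarith)
  have h3 : (Real.log q + 1) / (q * (q + 1)) ≤ (Real.log q + 2) / q - (Real.log ((q : ℝ) + 1) + 2) / (q + 1) := by
    rw [div_sub_div _ _ hq0.ne' (by positivity)]
    gcongr
    have h4 : (q : ℝ) * (Real.log (q + 1) + 2) ≤ q * (Real.log q + 1 / q + 2) := by gcongr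
    have h5 : (q : ℝ) * (Real.log q + 1 / q + 2) = q * Real.log q + 1 + 2 * q := by
      field_simp
    nlinarith
  have h4 : Real.log (2 + q) / ((q : ℝ) - 1) ^ 2 ≤ 4 * ((Real.log q + 1) / (q * (q + 1))) := by
    rw [← mul_div_assoc, div_le_div_iff₀ (by nlinarith) (by positivity)]
    have h5 : (q : ℝ) * (q + 1) ≤ 4 * (q - 1) ^ 2 := by nlinarith
    calc Real.log (2 + q) * (q * (q + 1)) ≤ (Real.log q + 1) * (4 * (q - 1) ^ 2) := by gcongr
      _ = _ := by ring
  linarith

lemma log_sum_Ico {q0 : ℕ} (hq0 : 3 ≤ q0) (N : ℕ) (hN : q0 ≤ N) :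
    ∑ q ∈ Finset.Ico q0 N, Real.log (2 + q) / ((q : ℝ) - 1) ^ 2 ≤
      4 * ((Real.log q0 + 2) / q0 - (Real.log N + 2) / N) := by
  induction N, hN using Nat.le_induction with
  | base => simp
  | succ N hN ih =>
    rw [Finset.sum_Ico_succ_top hN]
    have := tel (hq0.trans hN)
    push_cast
    linarith

lemma log_sum {q0 : ℕ} (hq0 : 3 ≤ q0) (Q : Finset ℕ) (hQ : ∀ q ∈ Q, q0 ≤ q) :
    ∑ q ∈ Q, Real.log (2 + q) / ((q : ℝ) - 1) ^ 2 ≤ 4 * ((Real.log q0 + 2) / q0) := by
  have hsub : Q ⊆ Finset.Ico q0 (max q0 (Q.sup id + 1)) := by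
    intro q hq
    rw [Finset.mem_Ico]
    refine ⟨hQ q hq, ?_⟩
    have : q ≤ Q.sup id := Finset.le_sup (f := id) hq
    exact lt_of_lt_of_le (Nat.lt_succ_of_le this) (le_max_right _ _)
  have h1 := log_sum_Ico hq0 (max q0 (Q.sup id + 1)) (le_max_left _ _)
  have h2 : ∑ q ∈ Q, Real.log (2 + q) / ((q : ℝ) - 1) ^ 2 ≤
      ∑ q ∈ Finset.Ico q0 (max q0 (Q.sup id + 1)), Real.log (2 + q) / ((q : ℝ) - 1) ^ 2 := by
    apply Finset.sum_le_sum_of_subset_of_nonneg hsub
    intro q _ _
    apply div_nonneg _ (by positivity)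
    apply Real.log_nonneg
    linarith [(Nat.cast_nonneg q : (0:ℝ) ≤ q)]
  have h3 : 0 ≤ (Real.log ((max q0 (Q.sup id + 1) : ℕ) : ℝ) + 2) / ((max q0 (Q.sup id + 1) : ℕ) : ℝ) := by
    have : 0 ≤ Real.log ((max q0 (Q.sup id + 1) : ℕ) : ℝ) := Real.log_natCast_nonneg _
    positivity
  linarith

/-- grouping by unit intervals -/
lemma group_sum (C : Cf u m) {B : ℝ} (hloc : ∀ (n : ℤ) (S : Finset ι), (∀ i ∈ S, ⌊(u i).im⌋ = n) →
    ∑ i ∈ S, m i ≤ B * Real.log (2 + |(n : ℝ)|)) (S : Finset ι) (w : ι → ℝ) (g : ℤ → ℝ)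
    (hg : ∀ j ∈ S.image (fun i => ⌊(u i).im⌋), 0 ≤ g j) (hw : ∀ i ∈ S, w i ≤ g ⌊(u i).im⌋) :
    ∑ i ∈ S, m i * w i ≤ ∑ j ∈ S.image (fun i => ⌊(u i).im⌋), B * Real.log (2 + |(j : ℝ)|) * g j := by
  classical
  rw [← Finset.sum_fiberwise_of_maps_to (g := fun i => ⌊(u i).im⌋) (t := S.image fun i => ⌊(u i).im⌋)
    (fun i hi => Finset.mem_image_of_mem _ hi)]
  refine Finset.sum_le_sum fun j hj => ?_
  calc ∑ i ∈ S with ⌊(u i).im⌋ = j, m i * w i ≤ ∑ i ∈ S with ⌊(u i).im⌋ = j, m i * g j := by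
        refine Finset.sum_le_sum fun i hi => ?_
        rw [Finset.mem_filter] at hi
        have h1 := hw i hi.1
        rw [hi.2] at h1
        have := C.m_nonneg i
        gcongr
    _ = (∑ i ∈ S with ⌊(u i).im⌋ = j, m i) * g j := by rw [Finset.sum_mul]
    _ ≤ (B * Real.log (2 + |(j : ℝ)|)) * g j := by
        apply mul_le_mul_of_nonneg_right _ (hg j hj)
        exact hloc j _ fun i hi => (Finset.mem_filter.mp hi).2

/-- integers in an interval -/
lemma card_int {a b : ℝ} (hab : a ≤ b) (Q : Finset ℤ) (hQ : ∀ j ∈ Q, a ≤ (j : ℝ) ∧ (j : ℝ) ≤ b) :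
    (Q.card : ℝ) ≤ b - a + 1 := by
  have hsub : Q ⊆ Finset.Icc ⌈a⌉ ⌊b⌋ := by
    intro j hj
    rw [Finset.mem_Icc]
    exact ⟨Int.ceil_le.mpr (hQ j hj).1, Int.le_floor.mpr (hQ j hj).2⟩
  have h1 := Finset.card_le_card hsub
  rw [Int.card_Icc] at h1
  have h2 : ((⌊b⌋ + 1 - ⌈a⌉).toNat : ℝ) ≤ b - a + 1 := by
    rcases le_or_gt 0 (⌊b⌋ + 1 - ⌈a⌉) with h | h
    · have h3 : (((⌊b⌋ + 1 - ⌈a⌉).toNat : ℤ) : ℝ) = ((⌊b⌋ + 1 - ⌈a⌉ : ℤ) : ℝ) := by
        rw [Int.toNat_of_nonneg h]
      rw [Int.cast_natCast] at h3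
      rw [h3]
      push_cast
      have h4 := Int.floor_le b
      have h5 := Int.le_ceil a
      linarith
    · rw [Int.toNat_of_nonpos h.le]
      simp
      linarith
  have h3 : (Q.card : ℝ) ≤ ((⌊b⌋ + 1 - ⌈a⌉).toNat : ℝ) := by exact_mod_cast h1
  exact h3.trans h2

/-- no cell has too much mass -/
lemma mass_upper (C : Cf u m) : ∃ C1 H1 : ℝ, 0 < C1 ∧ ∀ n : ℕ, 1 ≤ n → ∀ H : ℝ, H1 ≤ H → (n : ℝ) ≤ H →
    ∀ k : ℕ, k < 400000 * n → ∀ S : Finset ι, (∀ i ∈ S, H ≤ |(u i).im| ∧ k * dl n ≤ |(xv H (u i)).re| ∧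
      |(xv H (u i)).re| ≤ (k + 1) * dl n) → ∑ i ∈ S, m i * wt H (u i) ≤ C1 * (dl n / H * Real.log H) := by
  classical
  obtain ⟨B, hB, hloc⟩ := C.loc
  refine ⟨100000000 * B, 200000, by positivity, ?_⟩
  intro n hn H hH hnH k hk S hS
  have hnr : (1 : ℝ) ≤ n := by exact_mod_cast hn
  have hH0 : 0 < H := by linarith
  obtain ⟨hlog1, hlogA⟩ := log_bounds hH hn hnH
  have hd0 := dl_pos hn
  set δ := dl n with hδ
  set A := H / δ with hA
  have hA0 : 0 < A := by positivity
  have hAδ : A * δ = H := by rw [hA]; field_simp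
  have hδ1 : δ ≤ 1 / 200000 := by
    rw [hδ, dl]
    apply one_div_le_one_div_of_le (by norm_num)
    linarith
  have hAH : 200000 * H ≤ A := by
    rw [hA, le_div_iff₀ hd0]
    nlinarith
  have hkδ : ((k : ℝ) + 1) * δ ≤ 2 := by
    have h1 : (k : ℝ) + 1 ≤ 400000 * n := by exact_mod_cast hk
    calc ((k : ℝ) + 1) * δ ≤ 400000 * n * δ := by gcongr
      _ = 2 * (200000 * n * δ) := by ring
      _ = 2 := by rw [hδ, dl_mul hn]; norm_num
  have hlogA3 : Real.log (4 + A) ≤ 4 * Real.log H := by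
    have h1 : Real.log (4 + A) ≤ Real.log (A * Real.exp 1) := by
      apply Real.log_le_log (by positivity)
      nlinarith [Real.exp_one_gt_d9]
    rw [Real.log_mul hA0.ne' (Real.exp_pos 1).ne', Real.log_exp] at h1
    linarith
  have hlow : ∀ i ∈ S, A / (k + 1) - 1 ≤ |(u i).im| := by
    intro i hi
    obtain ⟨h1, h2, h3⟩ := hS i hi
    have h4 := xv_re_gt hH0 (C.re_lt i) (by linarith : 1 ≤ |(u i).im|)
    have h5 : H / (|(u i).im| + 1) < (k + 1) * δ := lt_of_lt_of_le h4 h3
    rw [div_lt_iff₀ (by linarith)] at h5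
    have h6 : A / (k + 1) < |(u i).im| + 1 := by
      rw [div_lt_iff₀ (by positivity)]
      rw [← hAδ] at h5
      have : A * δ < ((|(u i).im| + 1) * (k + 1)) * δ := by
        calc A * δ < (k + 1) * δ * (|(u i).im| + 1) := h5
          _ = _ := by ring
      exact lt_of_mul_lt_mul_right this hd0.le
    linarith
  rcases Nat.eq_zero_or_pos k with hk0 | hk0
  · -- the cell at the origin
    subst hk0
    have hg : ∀ j ∈ S.image (fun i => ⌊(u i).im⌋), (0 : ℝ) ≤ 1 / (|(j : ℝ)| - 1) ^ 2 := fun j _ => by positivity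
    have habs : ∀ i ∈ S, A - 2 ≤ |((⌊(u i).im⌋ : ℤ) : ℝ)| ∧ |((⌊(u i).im⌋ : ℤ) : ℝ)| - 1 ≤ |(u i).im| := by
      intro i hi
      have h1 := hlow i hi
      push_cast at h1
      rw [zero_add, div_one] at h1
      have h2 := Int.floor_le (u i).im
      have h3 := Int.lt_floor_add_one (u i).im
      have h4 : |(u i).im - ((⌊(u i).im⌋ : ℤ) : ℝ)| ≤ 1 := by
        rw [abs_le]
        constructor <;> linarith
      have h5 := abs_sub_abs_le_abs_sub (u i).im ((⌊(u i).im⌋ : ℤ) : ℝ)
      have h6 := abs_sub_abs_le_abs_sub ((⌊(u i).im⌋ : ℤ) : ℝ) (u i).im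
      rw [abs_sub_comm] at h6
      constructor <;> linarith
    have hw : ∀ i ∈ S, wt H (u i) ≤ 1 / (|((⌊(u i).im⌋ : ℤ) : ℝ)| - 1) ^ 2 := by
      intro i hi
      obtain ⟨h1, h2⟩ := habs i hi
      have h3 : 0 < |(u i).im| := by linarith [(hS i hi).1]
      have h4 : 0 < |((⌊(u i).im⌋ : ℤ) : ℝ)| - 1 := by linarith
      refine (wt_le hH0 (abs_pos.mp h3)).trans ?_
      apply one_div_le_one_div_of_le (by positivity)
      gcongr
    refine (group_sum C hloc S (fun i => wt H (u i)) _ hg hw).trans ?_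
    -- the sum over integers
    set J := S.image (fun i => ⌊(u i).im⌋) with hJ
    have hJabs : ∀ j ∈ J, A - 2 ≤ |(j : ℝ)| := by
      intro j hj
      rw [hJ, Finset.mem_image] at hj
      obtain ⟨i, hi, rfl⟩ := hj
      exact (habs i hi).1
    have hfib : ∑ j ∈ J, B * Real.log (2 + |(j : ℝ)|) * (1 / (|(j : ℝ)| - 1) ^ 2) ≤
        ∑ q ∈ J.image Int.natAbs, 2 * B * (Real.log (2 + q) / ((q : ℝ) - 1) ^ 2) := by
      rw [← Finset.sum_fiberwise_of_maps_to (g := Int.natAbs) (t := J.image Int.natAbs)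
        (fun j hj => Finset.mem_image_of_mem _ hj)]
      refine Finset.sum_le_sum fun q hq => ?_
      have hval : ∀ j ∈ J.filter (fun j => j.natAbs = q), B * Real.log (2 + |(j : ℝ)|) * (1 / (|(j : ℝ)| - 1) ^ 2) =
          B * (Real.log (2 + q) / ((q : ℝ) - 1) ^ 2) := by
        intro j hj
        rw [Finset.mem_filter] at hj
        have h1 : |(j : ℝ)| = (q : ℝ) := by
          rw [← hj.2, Nat.cast_natAbs]
          push_cast
          rfl
        rw [h1]
        ring
      rw [Finset.sum_congr rfl hval, Finset.sum_const, nsmul_eq_mul]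
      have hcard : ((J.filter (fun j => j.natAbs = q)).card : ℝ) ≤ 2 := by
        have h1 : J.filter (fun j => j.natAbs = q) ⊆ {(q : ℤ), -(q : ℤ)} := by
          intro j hj
          rw [Finset.mem_filter] at hj
          rw [Finset.mem_insert, Finset.mem_singleton]
          exact Int.natAbs_eq_iff.mp hj.2
        have h2 := (Finset.card_le_card h1).trans Finset.card_le_two
        exact_mod_cast h2
      have h3 : 0 ≤ B * (Real.log (2 + q) / ((q : ℝ) - 1) ^ 2) := by
        apply mul_nonneg hB.le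
        apply div_nonneg _ (by positivity)
        apply Real.log_nonneg
        linarith [(Nat.cast_nonneg q : (0:ℝ) ≤ q)]
      nlinarith
    refine hfib.trans ?_
    rw [← Finset.mul_sum]
    set q0 := ⌊A / 2⌋₊ with hq0
    have hq0A : (q0 : ℝ) ≤ A / 2 := Nat.floor_le (by positivity)
    have hq0B : A / 2 < q0 + 1 := Nat.lt_floor_add_one _
    have hq3 : 3 ≤ q0 := by
      have : (3 : ℝ) ≤ q0 := by linarith
      exact_mod_cast this
    have hsum := log_sum hq3 (J.image Int.natAbs) (by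
      intro q hq
      rw [Finset.mem_image] at hq
      obtain ⟨j, hj, rfl⟩ := hq
      have h1 := hJabs j hj
      have h2 : ((j.natAbs : ℕ) : ℝ) = |(j : ℝ)| := by
        rw [Nat.cast_natAbs]
        push_cast
        rfl
      have h3 : (q0 : ℝ) ≤ ((j.natAbs : ℕ) : ℝ) := by
        rw [h2]
        linarith
      exact_mod_cast h3)
    have hq0pos : (0 : ℝ) < q0 := by linarith
    have h1 : (Real.log q0 + 2) / q0 ≤ 20 * (δ / H * Real.log H) := by
      have h2 : Real.log q0 ≤ 3 * Real.log H := (Real.log_le_log hq0pos (by linarith)).trans hlogA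
      have h3 : A / 4 ≤ q0 := by linarith
      have h4 : δ / H = 1 / A := by
        rw [hA]
        field_simp
      calc (Real.log q0 + 2) / q0 ≤ (5 * Real.log H) / (A / 4) := by
            gcongr
            linarith
        _ = 20 * (1 / A * Real.log H) := by
          field_simp
          norm_num
        _ = _ := by rw [h4]
    have h5 : 0 ≤ δ / H * Real.log H := by positivity
    calc 2 * B * ∑ q ∈ J.image Int.natAbs, Real.log (2 + q) / ((q : ℝ) - 1) ^ 2 ≤
          2 * B * (4 * (20 * (δ / H * Real.log H))) := by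
          gcongr
          refine hsum.trans ?_
          gcongr
      _ = 160 * B * (δ / H * Real.log H) := by ring
      _ ≤ 100000000 * B * (δ / H * Real.log H) := by
          gcongr
          norm_num
  · -- the other cells
    have hk1 : (1 : ℝ) ≤ k := by exact_mod_cast hk0
    have hupp : ∀ i ∈ S, |(u i).im| ≤ A / k := by
      intro i hi
      obtain ⟨h1, h2, h3⟩ := hS i hi
      have h4 : 0 < |(u i).im| := by linarith
      have h5 := h2.trans (xv_re_le hH0 (abs_pos.mp h4))
      rw [le_div_iff₀ h4] at h5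
      rw [le_div_iff₀ (by positivity)]
      rw [← hAδ] at h5
      have : (|(u i).im| * k) * δ ≤ A * δ := by
        calc |(u i).im| * k * δ = k * δ * |(u i).im| := by ring
          _ ≤ _ := h5
      exact le_of_mul_le_mul_right this hd0
    set W := (((k : ℝ) + 1) * δ / H) ^ 2 with hW
    have hW0 : 0 ≤ W := by positivity
    have hw : ∀ i ∈ S, wt H (u i) ≤ W := by
      intro i hi
      obtain ⟨h1, h2, h3⟩ := hS i hi
      unfold wt
      rw [← sq_abs, abs_div, abs_of_pos hH0, hW]
      gcongr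
    refine (group_sum C hloc S (fun i => wt H (u i)) (fun _ => W) (fun _ _ => hW0) hw).trans ?_
    set J := S.image (fun i => ⌊(u i).im⌋) with hJ
    have hsplit : A / k - A / (k + 1) = A / (k * (k + 1)) := by
      field_simp
      ring
    have hterm : ∀ j ∈ J, B * Real.log (2 + |(j : ℝ)|) * W ≤ B * (4 * Real.log H) * W := by
      intro j hj
      rw [hJ, Finset.mem_image] at hj
      obtain ⟨i, hi, rfl⟩ := hj
      have h1 := hupp i hi
      have h2 := Int.floor_le (u i).im
      have h3 := Int.lt_floor_add_one (u i).im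
      have h4 : |((⌊(u i).im⌋ : ℤ) : ℝ)| ≤ |(u i).im| + 1 := by
        have h5 : |(u i).im - ((⌊(u i).im⌋ : ℤ) : ℝ)| ≤ 1 := by
          rw [abs_le]
          constructor <;> linarith
        have h6 := abs_sub_abs_le_abs_sub ((⌊(u i).im⌋ : ℤ) : ℝ) (u i).im
        rw [abs_sub_comm] at h6
        linarith
      have h5 : A / k ≤ A := div_le_self hA0.le hk1
      have h6 : Real.log (2 + |((⌊(u i).im⌋ : ℤ) : ℝ)|) ≤ 4 * Real.log H := by
        refine le_trans (Real.log_le_log (by positivity) ?_) hlogA3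
        linarith
      gcongr
    have hcard : (J.card : ℝ) ≤ 2 * (A / (k * (k + 1)) + 4) := by
      rw [← Finset.card_filter_add_card_filter_not (s := J) (fun j => 0 ≤ j)]
      push_cast
      have hc1 : ((J.filter (fun j => 0 ≤ j)).card : ℝ) ≤ A / (k * (k + 1)) + 4 := by
        have := card_int (a := A / (k + 1) - 2) (b := A / k) (by
          have : 0 ≤ A / (k * (k + 1)) := by positivity
          linarith) (J.filter (fun j => 0 ≤ j)) (by
          intro j hj
          rw [Finset.mem_filter, hJ, Finset.mem_image] at hj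
          obtain ⟨⟨i, hi, rfl⟩, hj0⟩ := hj
          have h0 : 0 ≤ (u i).im := Int.floor_nonneg.mp hj0
          have h1 := hupp i hi
          have h1' := hlow i hi
          rw [abs_of_nonneg h0] at h1 h1'
          have h2 := Int.floor_le (u i).im
          have h3 := Int.lt_floor_add_one (u i).im
          constructor <;> linarith)
        linarith
      have hc2 : ((J.filter (fun j => ¬ 0 ≤ j)).card : ℝ) ≤ A / (k * (k + 1)) + 4 := by
        have := card_int (a := -(A / k) - 1) (b := -(A / (k + 1)) + 1) (by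
          have : 0 ≤ A / (k * (k + 1)) := by positivity
          linarith) (J.filter (fun j => ¬ 0 ≤ j)) (by
          intro j hj
          rw [Finset.mem_filter, hJ, Finset.mem_image] at hj
          obtain ⟨⟨i, hi, rfl⟩, hj0⟩ := hj
          have h0 : (u i).im < 0 := by
            by_contra hc
            push Not at hc
            exact hj0 (Int.floor_nonneg.mpr hc)
          have h1 := hupp i hi
          have h1' := hlow i hi
          rw [abs_of_neg h0] at h1 h1'
          have h2 := Int.floor_le (u i).im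
          have h3 := Int.lt_floor_add_one (u i).im
          constructor <;> linarith)
        linarith
      linarith
    refine (Finset.sum_le_sum hterm).trans ?_
    rw [Finset.sum_const, nsmul_eq_mul]
    have h1 : (A / (k * (k + 1))) * W ≤ 2 * (δ / H) := by
      have h2 : (A / (k * (k + 1))) * W = (k + 1) / k * (δ / H) := by
        rw [hW, hA]
        field_simp
      rw [h2]
      gcongr
      rw [div_le_iff₀ (by positivity)]
      linarith
    have h2 : W ≤ 800000 * (δ / H) := by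
      have h3 : W ≤ (2 / H) ^ 2 := by
        rw [hW]
        gcongr
      have h4 : (2 / H) ^ 2 = 4 * (1 / H) * (1 / H) := by ring
      have h5 : 1 / H ≤ 200000 * δ := by
        have h6 : 200000 * δ = 1 / n := by
          rw [hδ, dl]
          field_simp
        rw [h6]
        exact one_div_le_one_div_of_le (by linarith) hnH
      calc W ≤ 4 * (1 / H) * (1 / H) := by rw [← h4]; exact h3
        _ ≤ 4 * (200000 * δ) * (1 / H) := by gcongr
        _ = _ := by ring
    have h5 : 0 ≤ δ / H * Real.log H := by positivity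
    calc (J.card : ℝ) * (B * (4 * Real.log H) * W) ≤
          (2 * (A / (k * (k + 1)) + 4)) * (B * (4 * Real.log H) * W) := by gcongr
      _ = 8 * B * Real.log H * ((A / (k * (k + 1))) * W + 4 * W) := by ring
      _ ≤ 8 * B * Real.log H * (2 * (δ / H) + 4 * (800000 * (δ / H))) := by gcongr
      _ = 25600016 * B * (δ / H * Real.log H) := by ring
      _ ≤ 100000000 * B * (δ / H * Real.log H) := by
          gcongr
          norm_num

end Pool.Agent.Helper76.LW
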