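import Pool.Agent.Helper76.LW.Main

set_option autoImplicit false

/-!
# Subspaces on which the form is negative
-/

namespace Pool.Agent.Helper76.LW

open Complex Filter Topology Polynomial
open scoped ComplexConjugate

variable {ι : Type*} {u : ι → ℂ} {m : ι → ℝ}

lemma G_smul (D : ℕ) (R : ℂ[X]) (c v : ℂ) :
    G D (Polynomial.C c * R) v = ((‖c‖ ^ 2 : ℝ) : ℂ) * G D R v := by
  unfold G
  rw [eval_mul, eval_mul, eval_C, eval_C, map_mul, ← Complex.normSq_eq_norm_sq, ← Complex.mul_conj]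
  ring

/-- pointwise bound for the test polynomial at high points -/
lemma tail_half {T h E : ℝ} {M : ℕ} (hT : 2 ≤ T) (hM : 2 ≤ M) {α p : ℂ}
    (hpT : |p.im| ≤ T) (hpre : |p.re| < 1 / 2) (hh : 0 < h) (hα : ‖α‖ = 1) (S : Finset ι)
    (hre : ∀ i, |(u i).re| < 1 / 2) (hS : ∀ i ∈ S, |(u i).im| ≤ 16 * T) (hcard : S.card ≤ M)
    {D : ℕ} (hD : D + 1 = 4 * M)
    (P1 : T ^ S.card * Real.exp (-E) ≤ ∏ i ∈ S, ‖p - u i‖)
    (P2 : T ^ S.card * Real.exp (-E) ≤ ∏ i ∈ S, ‖-conj p - u i‖) {v : ℂ} (hv : |v.re| < 1 / 2)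
    (hvT : 16 * T ≤ |v.im|) :
    ‖(lin α p h * QQ u S).eval v‖ ^ 2 ≤ |v.im| ^ (8 * M) *
      (‖(∏ i ∈ S, (p - u i)) * conj (∏ i ∈ S, (-conj p - u i)) / (1 / 4 - p ^ 2) ^ (D + 1)‖ *
        (36 * T ^ 4 * Real.exp (2 * E - 3 * M) / h ^ 2)) / (1 + |v.im|) ^ 2 := by
  set Y := |v.im| with hY
  have hT0 : 0 < T := by linarith
  have hY0 : 0 < Y := by linarith
  have hlinv : ‖(lin α p h).eval v‖ ≤ 3 * Y / h := by
    have h1 := norm_le_half_add v hv
    have h2 := norm_le_half_add p hpre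
    refine (lin_norm_le hh hα (Y := 3 / 2 * Y) (by linarith) (by linarith)).trans (le_of_eq ?_)
    ring
  have hQ : ‖(QQ u S).eval v‖ ≤ (3 * Y) ^ S.card := by
    rw [QQ_eval, norm_prod]
    calc ∏ i ∈ S, ‖v - u i‖ ≤ ∏ _i ∈ S, (3 * Y) := by
          refine Finset.prod_le_prod (fun i _ => norm_nonneg _) fun i hi => ?_
          exact norm_sub_le_three hv (hre i) hT hvT (hS i hi)
      _ = (3 * Y) ^ S.card := by rw [Finset.prod_const]
  have hGv : ‖(lin α p h * QQ u S).eval v‖ ^ 2 ≤ (3 * Y) ^ 2 * (3 * Y) ^ (2 * S.card) / h ^ 2 := by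
    rw [eval_mul, norm_mul]
    calc (‖(lin α p h).eval v‖ * ‖(QQ u S).eval v‖) ^ 2 ≤ (3 * Y / h * (3 * Y) ^ S.card) ^ 2 := by gcongr
      _ = _ := by
        rw [mul_comm 2 S.card, pow_mul]
        ring
  have hV : T ^ (2 * S.card) / (1 + T) ^ (8 * M) * Real.exp (-(2 * E)) ≤
      ‖(∏ i ∈ S, (p - u i)) * conj (∏ i ∈ S, (-conj p - u i)) / (1 / 4 - p ^ 2) ^ (D + 1)‖ := by
    rw [norm_div, norm_mul, Complex.norm_conj, norm_prod, norm_prod, norm_pow]
    have h3 : 0 < ‖(1 : ℂ) / 4 - p ^ 2‖ := norm_pos_iff.mpr (quarter_ne hpre)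
    have h4 : ‖(1 : ℂ) / 4 - p ^ 2‖ ^ (D + 1) ≤ (1 + T) ^ (8 * M) := by
      rw [hD, show (1 + T) ^ (8 * M) = ((1 + T) ^ 2) ^ (4 * M) by rw [← pow_mul]; congr 1; ring]
      have h5 := norm_quarter_le p hpre
      have h6 : (1 + |p.im|) ^ 2 ≤ (1 + T) ^ 2 := by gcongr
      exact pow_le_pow_left₀ (norm_nonneg _) (h5.trans h6) _
    calc T ^ (2 * S.card) / (1 + T) ^ (8 * M) * Real.exp (-(2 * E)) =
          (T ^ S.card * Real.exp (-E)) * (T ^ S.card * Real.exp (-E)) / (1 + T) ^ (8 * M) := by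
          rw [two_mul S.card, pow_add, two_mul, neg_add, Real.exp_add]
          ring
      _ ≤ (∏ i ∈ S, ‖p - u i‖) * (∏ i ∈ S, ‖-conj p - u i‖) / ‖(1 : ℂ) / 4 - p ^ 2‖ ^ (D + 1) := by gcongr
  have h1 := num2 hT hvT hM hcard
  have hYY : (0:ℝ) < (1 + Y) ^ 2 := by positivity
  have hY8 : (0:ℝ) < Y ^ (8 * M) := by positivity
  have h2 : (3 * Y) ^ 2 * (3 * Y) ^ (2 * S.card) ≤
      Y ^ (8 * M) * (36 * T ^ 4 * Real.exp (-(3 * M)) * (T ^ (2 * S.card) / (1 + T) ^ (8 * M))) / (1 + Y) ^ 2 := by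
    rw [le_div_iff₀ hYY]
    rw [div_mul_eq_mul_div, div_le_iff₀ hY8] at h1
    linarith
  have hexp : Real.exp (-(3 * M)) = Real.exp (-(2 * E)) * Real.exp (2 * E - 3 * M) := by
    rw [← Real.exp_add]
    congr 1
    ring
  calc ‖(lin α p h * QQ u S).eval v‖ ^ 2 ≤ (3 * Y) ^ 2 * (3 * Y) ^ (2 * S.card) / h ^ 2 := hGv
    _ ≤ (Y ^ (8 * M) * (36 * T ^ 4 * Real.exp (-(3 * M)) * (T ^ (2 * S.card) / (1 + T) ^ (8 * M))) /
          (1 + Y) ^ 2) / h ^ 2 := by gcongr
    _ = Y ^ (8 * M) * ((T ^ (2 * S.card) / (1 + T) ^ (8 * M) * Real.exp (-(2 * E))) *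
        (36 * T ^ 4 * Real.exp (2 * E - 3 * M) / h ^ 2)) / (1 + Y) ^ 2 := by
        rw [hexp]
        ring
    _ ≤ _ := by gcongr

/-- the test polynomial of one point -/
theorem single (C : Cf u m) {T b κ : ℝ} {M D : ℕ} (huc : UC u T b) (hb : 0 ≤ b) (hT : 2 ≤ T) (hκ : 0 < κ)
    (hlow : ∀ i, κ ≤ ‖1 / 2 - u i‖) (hD : D + 1 = 4 * M) (hM : 2 ≤ M) (N1 : 4 * b * (16 * T + 1) ≤ M)
    (N2 : (2 * M + 2) * (T ^ 3)⁻¹ + 4 * M * ((1 + T) / κ ^ 2 * (T ^ 3)⁻¹) ≤ 1 / 4)
    (i0 : ι) (hy : |(u i0).im| ≤ T) (hh : 4 * Real.exp (-T) ≤ (u i0).re) :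
    ∃ (R : ℂ[X]) (ro : ℝ), R.natDegree ≤ D ∧ 0 < ro ∧ ro ≤ Real.exp (-T) ∧
      (G D R (u i0)).re = -1 ∧ (∀ i, ‖u i - u i0‖ ≤ ro → (G D R (u i)).re ≤ 0) ∧
      (∀ i, |(u i).im| ≤ 16 * T → ro < ‖u i - u i0‖ → ro < ‖u i - (-conj (u i0))‖ → R.eval (u i) = 0) ∧
      (∀ v : ℂ, |v.re| < 1 / 2 → 16 * T < |v.im| → ‖R.eval v‖ ^ 2 ≤ |v.im| ^ (8 * M) *
        (36 * T ^ 4 * Real.exp (2 * T + 2 * EE T b - 3 * M)) / (1 + |v.im|) ^ 2) := by
  classical
  set p := u i0 with hp
  set h := p.re with hhdef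
  have hT0 : 0 < T := by linarith
  have hexp0 : 0 < Real.exp (-T) := Real.exp_pos _
  have hexp1 : Real.exp (-T) ≤ 1 := Real.exp_le_one_iff.mpr (by linarith)
  have hh' : Real.exp (-T) ≤ h := by linarith
  have hh0 : 0 < h := hexp0.trans_le hh'
  have hpre : |p.re| < 1 / 2 := C.re_lt i0
  have hh1 : h < 1 / 2 := (abs_lt.mp hpre).2
  set η := (T ^ 3)⁻¹ with hη
  have hη0 : 0 < η := by positivity
  have hη1 : η ≤ 1 := by
    rw [hη]
    apply inv_le_one_of_one_le₀
    exact one_le_pow₀ (by linarith)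
  obtain ⟨k, hk, hann⟩ := huc.scale hT p hy hexp0 hexp1 hη0 hη1 (C.finite _)
  set ro := η ^ k * Real.exp (-T) with hro
  have hro0 : 0 < ro := by positivity
  have hroe : ro ≤ Real.exp (-T) := by
    rw [hro]
    exact mul_le_of_le_one_left hexp0.le (pow_le_one₀ hη0.le hη1)
  have hroh : ro ≤ h := hroe.trans hh'
  have hann' : ∀ i, ‖u i - p‖ ≤ ro → ‖u i - p‖ ≤ η * ro := by
    intro i hi
    have := hann i hi
    rw [hro, ← mul_assoc, ← pow_succ']
    exact this
  set S : Finset ι := (C.finite (16 * T)).toFinset.filter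
    (fun i => ro < ‖u i - p‖ ∧ ro < ‖u i - (-conj p)‖) with hS
  have hSmem : ∀ i, i ∈ S ↔ |(u i).im| ≤ 16 * T ∧ ro < ‖u i - p‖ ∧ ro < ‖u i - (-conj p)‖ := by
    intro i
    rw [hS, Finset.mem_filter, Set.Finite.mem_toFinset]
    rfl
  have hS16 : ∀ i ∈ S, |(u i).im| ≤ 16 * T := fun i hi => ((hSmem i).mp hi).1
  have hcard : S.card ≤ M := by
    have := (huc.card_le hb hT S hS16).trans N1
    exact_mod_cast this
  -- lower bounds for the products
  set E := 4 * b * (Real.log (T / ro) + T) with hE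
  have hroT : ro ≤ T := by linarith
  have P1 : T ^ S.card * Real.exp (-E) ≤ ∏ i ∈ S, ‖p - u i‖ := by
    refine huc.prod_ge hb hT hy hro0 hroT (fun i => ‖p - u i‖) S fun i hi => ?_
    obtain ⟨h1, h2, -⟩ := (hSmem i).mp hi
    refine ⟨h1, ?_, ?_⟩
    · show ro ≤ ‖p - u i‖
      rw [norm_sub_rev]
      exact h2.le
    · show |(u i).im - p.im| ≤ ‖p - u i‖
      rw [norm_sub_rev, ← Complex.sub_im]
      exact Complex.abs_im_le_norm _
  have P2 : T ^ S.card * Real.exp (-E) ≤ ∏ i ∈ S, ‖-conj p - u i‖ := by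
    refine huc.prod_ge hb hT hy hro0 hroT (fun i => ‖-conj p - u i‖) S fun i hi => ?_
    obtain ⟨h1, -, h2⟩ := (hSmem i).mp hi
    refine ⟨h1, ?_, ?_⟩
    · show ro ≤ ‖-conj p - u i‖
      rw [norm_sub_rev]
      exact h2.le
    · show |(u i).im - p.im| ≤ ‖-conj p - u i‖
      rw [norm_sub_rev]
      have h3 : (u i - -conj p).im = (u i).im - p.im := by
        simp
        ring
      rw [← h3]
      exact Complex.abs_im_le_norm _
  -- nonvanishing
  have hQ1 : ∏ i ∈ S, (p - u i) ≠ 0 := by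
    rw [← norm_pos_iff, norm_prod]
    exact lt_of_lt_of_le (by positivity) P1
  have hQ2 : ∏ i ∈ S, (-conj p - u i) ≠ 0 := by
    rw [← norm_pos_iff, norm_prod]
    exact lt_of_lt_of_le (by positivity) P2
  have hq := quarter_ne hpre
  set V : ℂ := (∏ i ∈ S, (p - u i)) * conj (∏ i ∈ S, (-conj p - u i)) / (1 / 4 - p ^ 2) ^ (D + 1) with hV
  have hV0 : V ≠ 0 := by
    rw [hV]
    refine div_ne_zero (mul_ne_zero hQ1 ?_) (pow_ne_zero _ hq)
    rwa [Ne, map_eq_zero]
  have hVn : 0 < ‖V‖ := norm_pos_iff.mpr hV0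
  obtain ⟨α, hα, hαV⟩ := exists_unit hV0
  have hα0 : α ≠ 0 := by
    intro h0
    rw [h0] at hα
    simp at hα
  have hGp : G D (lin α p h * QQ u S) p = -(‖V‖ : ℂ) := by
    rw [← hαV, hV]
    unfold G
    rw [eval_mul, eval_mul, QQ_eval, QQ_eval, lin_p hh0 rfl, lin_p' hh0 rfl, one_mul]
    ring
  -- near the zero `p`
  have hnear : ∀ i, ‖u i - p‖ ≤ ro → (G D (lin α p h * QQ u S) (u i)).re ≤ 0 := by
    intro i hi
    have hi' := hann' i hi
    have hqi := quarter_ne (C.re_lt i)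
    rw [G_ratio hh0 rfl hα0 S hQ1 hQ2 hq hqi, hGp]
    have hηh : ‖u i - p‖ ≤ η * h := hi'.trans (by gcongr)
    obtain ⟨n1, n2⟩ := lin_near hh0 rfl hα hηh
    have n3 : Near (∏ j ∈ S, ((u i - u j) / (p - u j))) (S.card * η) := by
      refine Near.prod S _ fun j hj => Near.of_le ?_
      have h2 : ro < ‖p - u j‖ := by
        rw [norm_sub_rev]
        exact ((hSmem j).mp hj).2.1
      have h3 : p - u j ≠ 0 := by
        rw [← norm_pos_iff]
        linarith
      have e1 : (u i - u j) / (p - u j) - 1 = (u i - p) / (p - u j) := by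
        field_simp
        ring
      rw [e1, norm_div, div_le_iff₀ (by linarith)]
      calc ‖u i - p‖ ≤ η * ro := hi'
        _ ≤ η * ‖p - u j‖ := by gcongr
    have n4 : Near (∏ j ∈ S, ((-conj (u i) - u j) / (-conj p - u j))) (S.card * η) := by
      refine Near.prod S _ fun j hj => Near.of_le ?_
      have h2 : ro < ‖-conj p - u j‖ := by
        rw [norm_sub_rev]
        exact ((hSmem j).mp hj).2.2
      have h3 : -conj p - u j ≠ 0 := by
        rw [← norm_pos_iff]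
        linarith
      have e1 : (-conj (u i) - u j) / (-conj p - u j) - 1 = -conj (u i - p) / (-conj p - u j) := by
        rw [map_sub]
        field_simp
        ring
      rw [e1, norm_div, norm_neg, Complex.norm_conj, div_le_iff₀ (by linarith)]
      calc ‖u i - p‖ ≤ η * ro := hi'
        _ ≤ η * ‖-conj p - u j‖ := by gcongr
    have n5 : Near ((((1 : ℂ) / 4 - p ^ 2) / (1 / 4 - u i ^ 2)) ^ (D + 1))
        ((D + 1 : ℕ) * ((1 + T) / κ ^ 2 * η)) := by
      refine Near.pow (Near.of_le ?_) _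
      have e1 : ((1 : ℂ) / 4 - p ^ 2) / (1 / 4 - u i ^ 2) - 1 = (u i - p) * (u i + p) / (1 / 4 - u i ^ 2) := by
        rw [div_sub_one hqi]
        congr 1
        ring
      rw [e1, norm_div, norm_mul]
      have h1 := C.quarter_ge hκ hlow i
      have h2 : ‖u i + p‖ ≤ 2 * (1 + T) := by
        have h3 := norm_le_half_add p hpre
        have h4 : ‖u i‖ ≤ ‖u i - p‖ + ‖p‖ := by
          calc ‖u i‖ = ‖(u i - p) + p‖ := by ring_nf
            _ ≤ _ := norm_add_le _ _
        have h5 := norm_add_le (u i) p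
        linarith
      calc ‖u i - p‖ * ‖u i + p‖ / ‖(1 : ℂ) / 4 - u i ^ 2‖ ≤ (η * (1 / 2)) * (2 * (1 + T)) / κ ^ 2 := by
            gcongr
            exact hηh.trans (by gcongr)
        _ = (1 + T) / κ ^ 2 * η := by ring
    have n := (((n1.mul n2.conj).mul n3).mul n4.conj).mul n5
    have hle : η + η + S.card * η + S.card * η + (D + 1 : ℕ) * ((1 + T) / κ ^ 2 * η) ≤ 1 / 4 := by
      refine le_trans ?_ N2
      rw [hD]
      push_cast
      have : (S.card : ℝ) ≤ M := by exact_mod_cast hcard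
      nlinarith [mul_le_mul_of_nonneg_right this hη0.le]
    have hre := n.re_nonneg hle
    have e2 : ∀ z : ℂ, (-(‖V‖ : ℂ) * z).re = -(‖V‖ * z.re) := by
      intro z
      rw [neg_mul, Complex.neg_re, Complex.re_ofReal_mul]
    rw [e2]
    have := mul_nonneg hVn.le hre
    linarith
  -- comparison of the constants
  have hEE : E ≤ EE T b := by
    rw [hE, EE]
    have hlr : Real.log (T / ro) ≤ Real.log T + 12 * b * Real.log T + T := by
      rw [Real.log_div hT0.ne' hro0.ne', hro, Real.log_mul (by positivity) hexp0.ne', Real.log_pow, hη,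
        Real.log_inv, Real.log_pow, Real.log_exp]
      have h2 : 0 ≤ Real.log T := Real.log_nonneg (by linarith)
      push_cast
      have h3 := mul_le_mul_of_nonneg_right hk h2
      nlinarith
    have : 0 ≤ 4 * b := by positivity
    gcongr
  have hh2 : 1 / h ^ 2 ≤ Real.exp (2 * T) := by
    rw [div_le_iff₀ (by positivity)]
    have h1 : Real.exp (-T) ^ 2 ≤ h ^ 2 := by gcongr
    calc (1 : ℝ) = Real.exp (2 * T) * Real.exp (-T) ^ 2 := by
          rw [← Real.exp_nat_mul, ← Real.exp_add]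
          push_cast
          rw [show 2 * T + 2 * -T = 0 by ring, Real.exp_zero]
      _ ≤ _ := by gcongr
  have hε : 36 * T ^ 4 * Real.exp (2 * E - 3 * M) / h ^ 2 ≤
      36 * T ^ 4 * Real.exp (2 * T + 2 * EE T b - 3 * M) := by
    calc 36 * T ^ 4 * Real.exp (2 * E - 3 * M) / h ^ 2 = 36 * T ^ 4 * Real.exp (2 * E - 3 * M) * (1 / h ^ 2) := by
          ring
      _ ≤ 36 * T ^ 4 * Real.exp (2 * EE T b - 3 * M) * Real.exp (2 * T) := by gcongr
      _ = _ := by
        rw [mul_assoc, ← Real.exp_add]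
        congr 2
        ring
  -- normalisation
  set c : ℂ := (((Real.sqrt ‖V‖)⁻¹ : ℝ) : ℂ) with hc
  have hcn : ‖c‖ ^ 2 = ‖V‖⁻¹ := by
    rw [hc, Complex.norm_real, Real.norm_of_nonneg (by positivity), inv_pow, Real.sq_sqrt hVn.le]
  refine ⟨Polynomial.C c * (lin α p h * QQ u S), ro, ?_, hro0, hroe, ?_, ?_, ?_, ?_⟩
  · refine (Polynomial.natDegree_C_mul_le _ _).trans (natDegree_mul_le.trans ?_)
    have h1 := lin_natDegree α p h
    rw [QQ_natDegree]
    omega
  · rw [G_smul, hGp, Complex.re_ofReal_mul, hcn, Complex.neg_re, Complex.ofReal_re]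
    field_simp
  · intro i hi
    rw [G_smul, Complex.re_ofReal_mul]
    exact mul_nonpos_of_nonneg_of_nonpos (sq_nonneg _) (hnear i hi)
  · intro i hi h1 h2
    have h3 : i ∈ S := (hSmem i).mpr ⟨hi, h1, h2⟩
    rw [eval_mul, eval_mul, QQ_eval, Finset.prod_eq_zero h3 (sub_self _), mul_zero, mul_zero]
  · intro v hv hvT
    have h1 := tail_half hT hM hy hpre hh0 hα S C.re_lt hS16 hcard hD P1 P2 hv hvT.le
    rw [← hV] at h1
    rw [eval_mul, eval_C, norm_mul, mul_pow, hcn]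
    have h2 : ‖V‖⁻¹ * ‖(lin α p h * QQ u S).eval v‖ ^ 2 ≤
        ‖V‖⁻¹ * (|v.im| ^ (8 * M) * (‖V‖ * (36 * T ^ 4 * Real.exp (2 * E - 3 * M) / h ^ 2)) / (1 + |v.im|) ^ 2) := by
      gcongr
    refine h2.trans ?_
    have h3 : ‖V‖⁻¹ * (|v.im| ^ (8 * M) * (‖V‖ * (36 * T ^ 4 * Real.exp (2 * E - 3 * M) / h ^ 2)) / (1 + |v.im|) ^ 2) =
        |v.im| ^ (8 * M) * (36 * T ^ 4 * Real.exp (2 * E - 3 * M) / h ^ 2) / (1 + |v.im|) ^ 2 := by
      field_simp
    rw [h3]
    gcongr

/-- linear combinations -/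
noncomputable def comb {κ : Type*} (W : Finset κ) (a : κ → ℂ) (R : κ → ℂ[X]) : ℂ[X] :=
  ∑ k ∈ W, Polynomial.C (a k) * R k

lemma comb_eval {κ : Type*} (W : Finset κ) (a : κ → ℂ) (R : κ → ℂ[X]) (v : ℂ) :
    (comb W a R).eval v = ∑ k ∈ W, a k * (R k).eval v := by
  unfold comb
  rw [Polynomial.eval_finsetSum]
  simp

/-- **A subspace on which the form is negative.** -/
theorem multi (C : Cf u m) {T b κ : ℝ} {M D : ℕ} (huc : UC u T b) (hb : 0 ≤ b) (hT : 2 ≤ T) (hκ : 0 < κ)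
    (hlow : ∀ i, κ ≤ ‖1 / 2 - u i‖) (hD : D + 1 = 4 * M) (hM : 2 ≤ M) (N1 : 4 * b * (16 * T + 1) ≤ M)
    (N2 : (2 * M + 2) * (T ^ 3)⁻¹ + 4 * M * ((1 + T) / κ ^ 2 * (T ^ 3)⁻¹) ≤ 1 / 4)
    (N3 : M * (36 * T ^ 4 * Real.exp (2 * T + 2 * EE T b - 3 * M)) * (∑' i, m i / (1 + |(u i).im|) ^ 2) < 1)
    (W : Finset ι) (hW : ∀ i ∈ W, |(u i).im| ≤ T ∧ 4 * Real.exp (-T) ≤ (u i).re)
    (hsep : ∀ i ∈ W, ∀ j ∈ W, i ≠ j → 4 * Real.exp (-T) ≤ ‖u i - u j‖) :
    ∃ R : ι → ℂ[X], (∀ i ∈ W, (R i).natDegree ≤ D) ∧ ∀ a : ι → ℂ, (∃ i ∈ W, a i ≠ 0) →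
      (Summable fun i => m i * (G D (comb W a R) (u i)).re) ∧
      ∑' i, m i * (G D (comb W a R) (u i)).re < 0 := by
  classical
  have hT0 : 0 < T := by linarith
  have hexp0 : 0 < Real.exp (-T) := Real.exp_pos _
  have hsing : ∀ i0 ∈ W, ∃ (R : ℂ[X]) (ro : ℝ), R.natDegree ≤ D ∧ 0 < ro ∧ ro ≤ Real.exp (-T) ∧
      (G D R (u i0)).re = -1 ∧ (∀ i, ‖u i - u i0‖ ≤ ro → (G D R (u i)).re ≤ 0) ∧
      (∀ i, |(u i).im| ≤ 16 * T → ro < ‖u i - u i0‖ → ro < ‖u i - (-conj (u i0))‖ → R.eval (u i) = 0) ∧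
      (∀ v : ℂ, |v.re| < 1 / 2 → 16 * T < |v.im| → ‖R.eval v‖ ^ 2 ≤ |v.im| ^ (8 * M) *
        (36 * T ^ 4 * Real.exp (2 * T + 2 * EE T b - 3 * M)) / (1 + |v.im|) ^ 2) :=
    fun i0 hi0 => single C huc hb hT hκ hlow hD hM N1 N2 i0 (hW i0 hi0).1 (hW i0 hi0).2
  choose! R ro h1 h2 h3 h4 h5 h6 h7 using hsing
  refine ⟨R, h1, fun a ha => ?_⟩
  obtain ⟨σ, hσu, hσm⟩ := C.refl
  set ε := 36 * T ^ 4 * Real.exp (2 * T + 2 * EE T b - 3 * M) with hε
  have hε0 : 0 < ε := by positivity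
  -- a point near `p` is killed by the other polynomials
  have hcross : ∀ p ∈ W, ∀ q ∈ W, q ≠ p → ∀ i, |(u i).im| ≤ 16 * T → ‖u i - u p‖ ≤ ro p →
      (R q).eval (u i) = 0 := by
    intro p hp q hq hqp i hi hip
    have e1 := h3 p hp
    have e2 := h3 q hq
    have e3 := hsep q hq p hp hqp
    apply h6 q hq i hi
    · have : ‖u q - u p‖ ≤ ‖u i - u q‖ + ‖u i - u p‖ := by
        calc ‖u q - u p‖ = ‖-(u i - u q) + (u i - u p)‖ := by
              congr 1
              ring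
          _ ≤ _ := by
              refine (norm_add_le _ _).trans ?_
              rw [norm_neg]
      linarith
    · have h8 : (u i).re + (u q).re ≤ ‖u i - (-conj (u q))‖ := by
        have := Complex.re_le_norm (u i - (-conj (u q)))
        simpa using this
      have h9 : (u p).re - (u i).re ≤ ‖u i - u p‖ := by
        have := Complex.abs_re_le_norm (u i - u p)
        rw [Complex.sub_re] at this
        have := neg_abs_le ((u i).re - (u p).re)
        linarith
      have h10 := (hW p hp).2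
      have h11 := (hW q hq).2
      linarith
  have hcross' : ∀ p ∈ W, ∀ q ∈ W, q ≠ p → ∀ i, |(u i).im| ≤ 16 * T → ‖u i - (-conj (u p))‖ ≤ ro p →
      (R q).eval (u i) = 0 := by
    intro p hp q hq hqp i hi hip
    have e1 := h3 p hp
    have e2 := h3 q hq
    have e3 := hsep q hq p hp hqp
    apply h6 q hq i hi
    · have h8 : (u q).re - (u i).re ≤ ‖u i - u q‖ := by
        have := Complex.abs_re_le_norm (u i - u q)
        rw [Complex.sub_re] at this
        have := neg_abs_le ((u i).re - (u q).re)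
        linarith
      have h9 : (u i).re + (u p).re ≤ ‖u i - (-conj (u p))‖ := by
        have := Complex.re_le_norm (u i - (-conj (u p)))
        simpa using this
      have h10 := (hW p hp).2
      have h11 := (hW q hq).2
      linarith
    · have h12 : ‖u q - u p‖ = ‖-conj (u q) - (-conj (u p))‖ := by
        rw [← Complex.norm_conj, map_sub]
        have : -conj (u q) - -conj (u p) = -(conj (u q) - conj (u p)) := by ring
        rw [this, norm_neg]
      have : ‖-conj (u q) - (-conj (u p))‖ ≤ ‖u i - (-conj (u q))‖ + ‖u i - (-conj (u p))‖ := by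
        calc ‖-conj (u q) - (-conj (u p))‖ = ‖-(u i - (-conj (u q))) + (u i - (-conj (u p)))‖ := by
              congr 1
              ring
          _ ≤ _ := by
              refine (norm_add_le _ _).trans ?_
              rw [norm_neg]
      linarith
  set Q := comb W a R with hQ
  have hQe := comb_eval W a R
  rw [← hQ] at hQe
  -- the value near `p`
  have hval : ∀ p ∈ W, ∀ i, |(u i).im| ≤ 16 * T → ‖u i - u p‖ ≤ ro p →
      G D Q (u i) = ((‖a p‖ ^ 2 : ℝ) : ℂ) * G D (R p) (u i) := by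
    intro p hp i hi hip
    rw [← G_smul]
    unfold G
    have g1 : Q.eval (u i) = (Polynomial.C (a p) * R p).eval (u i) := by
      rw [hQe, eval_mul, eval_C, Finset.sum_eq_single p]
      · intro q hq hqp
        rw [hcross p hp q hq hqp i hi hip, mul_zero]
      · intro h
        exact absurd hp h
    have g2 : Q.eval (-conj (u i)) = (Polynomial.C (a p) * R p).eval (-conj (u i)) := by
      rw [hQe, eval_mul, eval_C, Finset.sum_eq_single p]
      · intro q hq hqp
        have hi' : |(u (σ i)).im| ≤ 16 * T := by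
          rw [hσu]
          simpa using hi
        have hip' : ‖u (σ i) - (-conj (u p))‖ ≤ ro p := by
          rw [hσu]
          have : -conj (u i) - -conj (u p) = -conj (u i - u p) := by
            rw [map_sub]
            ring
          rw [this, norm_neg, Complex.norm_conj]
          exact hip
        have := hcross' p hp q hq hqp (σ i) hi' hip'
        rw [hσu] at this
        rw [this, mul_zero]
      · intro h
        exact absurd hp h
    rw [g1, g2]
  -- far points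
  set sa := ∑ q ∈ W, ‖a q‖ with hsa
  have hfar : ∀ v : ℂ, |v.re| < 1 / 2 → 16 * T < |v.im| →
      ‖G D Q v‖ ≤ sa ^ 2 * ε * (1 / (1 + |v.im|) ^ 2) := by
    intro v hv hvT
    have hY0 : 0 < |v.im| := by linarith
    have hb1 : ∀ w : ℂ, |w.re| < 1 / 2 → |w.im| = |v.im| →
        ‖Q.eval w‖ ≤ sa * Real.sqrt (|v.im| ^ (8 * M) * ε / (1 + |v.im|) ^ 2) := by
      intro w hw hwv
      rw [hQe, hsa, Finset.sum_mul]
      refine (norm_sum_le _ _).trans (Finset.sum_le_sum fun q hq => ?_)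
      rw [norm_mul]
      have := h7 q hq w hw (by rw [hwv]; exact hvT)
      rw [hwv] at this
      have h8 : ‖(R q).eval w‖ ≤ Real.sqrt (|v.im| ^ (8 * M) * ε / (1 + |v.im|) ^ 2) := Real.le_sqrt_of_sq_le this
      gcongr
    have hsa0 : 0 ≤ sa := Finset.sum_nonneg fun q _ => norm_nonneg _
    have g1 := hb1 v hv rfl
    have g2 := hb1 (-conj v) (by simpa using hv) (by simp)
    unfold G
    rw [norm_div, norm_mul, Complex.norm_conj, norm_pow]
    have h9 := norm_quarter_ge_im v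
    have h10 : |v.im| ^ (8 * M) ≤ ‖(1 : ℂ) / 4 - v ^ 2‖ ^ (D + 1) := by
      rw [hD, show 8 * M = 2 * (4 * M) by ring, pow_mul]
      gcongr
    have hX : 0 ≤ |v.im| ^ (8 * M) * ε / (1 + |v.im|) ^ 2 := by positivity
    calc ‖Q.eval v‖ * ‖Q.eval (-conj v)‖ / ‖(1 : ℂ) / 4 - v ^ 2‖ ^ (D + 1) ≤
        (sa * Real.sqrt (|v.im| ^ (8 * M) * ε / (1 + |v.im|) ^ 2)) *
          (sa * Real.sqrt (|v.im| ^ (8 * M) * ε / (1 + |v.im|) ^ 2)) / |v.im| ^ (8 * M) := by gcongr
      _ = sa ^ 2 * (Real.sqrt (|v.im| ^ (8 * M) * ε / (1 + |v.im|) ^ 2)) ^ 2 / |v.im| ^ (8 * M) := by ring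
      _ = sa ^ 2 * ε * (1 / (1 + |v.im|) ^ 2) := by
        rw [Real.sq_sqrt hX]
        field_simp
  have hsum := C.summable_G D Q (fun i hi => hfar (u i) (C.re_lt i) hi)
  refine ⟨hsum, ?_⟩
  -- pointwise comparison
  have hpt : ∀ i, m i * (G D Q (u i)).re ≤
      sa ^ 2 * ε * (m i / (1 + |(u i).im|) ^ 2) - (if i ∈ W then ‖a i‖ ^ 2 else 0) := by
    intro i
    have hm := C.one_le i
    have hm0 := C.m_nonneg i
    have hpos : 0 ≤ sa ^ 2 * ε * (m i / (1 + |(u i).im|) ^ 2) := by positivity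
    split_ifs with hi
    · have hi16 : |(u i).im| ≤ 16 * T := by linarith [(hW i hi).1]
      rw [hval i hi i hi16 (by rw [sub_self, norm_zero]; exact (h2 i hi).le), Complex.re_ofReal_mul, h4 i hi]
      nlinarith [sq_nonneg ‖a i‖]
    · rw [sub_zero]
      by_cases hf : 16 * T < |(u i).im|
      · have h8 := hfar (u i) (C.re_lt i) hf
        calc m i * (G D Q (u i)).re ≤ m i * (sa ^ 2 * ε * (1 / (1 + |(u i).im|) ^ 2)) := by
              gcongr
              exact (Complex.re_le_norm _).trans h8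
          _ = _ := by ring
      · rw [not_lt] at hf
        by_cases hcl : ∃ p ∈ W, ‖u i - u p‖ ≤ ro p ∨ ‖u i - (-conj (u p))‖ ≤ ro p
        · obtain ⟨p, hp, hc⟩ := hcl
          have hle : (G D Q (u i)).re ≤ 0 := by
            rcases hc with hc | hc
            · rw [hval p hp i hf hc, Complex.re_ofReal_mul]
              exact mul_nonpos_of_nonneg_of_nonpos (sq_nonneg _) (h5 p hp i hc)
            · have hi' : |(u (σ i)).im| ≤ 16 * T := by
                rw [hσu]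
                simpa using hf
              have hc' : ‖u (σ i) - u p‖ ≤ ro p := by
                rw [hσu, ← Complex.norm_conj]
                have : conj (-conj (u i) - u p) = -(u i - -conj (u p)) := by
                  simp
                  ring
                rw [this, norm_neg]
                exact hc
              have h8 := hval p hp (σ i) hi' hc'
              have h9 := h5 p hp (σ i) hc'
              have h10 : (G D Q (u (σ i))).re ≤ 0 := by
                rw [h8, Complex.re_ofReal_mul]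
                exact mul_nonpos_of_nonneg_of_nonpos (sq_nonneg _) h9
              rw [hσu, G_refl, Complex.conj_re] at h10
              exact h10
          have := mul_nonneg hm0 (neg_nonneg.mpr hle)
          linarith
        · push Not at hcl
          have hz : Q.eval (u i) = 0 := by
            rw [hQe]
            refine Finset.sum_eq_zero fun q hq => ?_
            rw [h6 q hq i hf (hcl q hq).1 (hcl q hq).2, mul_zero]
          have hG0 : G D Q (u i) = 0 := by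
            unfold G
            rw [hz, zero_mul, zero_div]
          rw [hG0, Complex.zero_re, mul_zero]
          exact hpos
  have hs1 : Summable fun i => sa ^ 2 * ε * (m i / (1 + |(u i).im|) ^ 2) := C.sum2.mul_left _
  have hs2 : HasSum (fun i => if i ∈ W then ‖a i‖ ^ 2 else 0) (∑ i ∈ W, ‖a i‖ ^ 2) := by
    have this : HasSum (fun i => if i ∈ W then ‖a i‖ ^ 2 else 0)
        (∑ i ∈ W, (if i ∈ W then ‖a i‖ ^ 2 else 0)) :=
      hasSum_sum_of_ne_finset_zero (fun i hi => by simp [hi])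
    convert this using 1
    exact Finset.sum_congr rfl fun i hi => by simp [hi]
  have hle := hsum.tsum_le_tsum hpt (hs1.sub hs2.summable)
  rw [hs1.tsum_sub hs2.summable, tsum_mul_left, hs2.tsum_eq] at hle
  refine lt_of_le_of_lt hle ?_
  -- the number of points
  have hcard : (W.card : ℝ) ≤ M := by
    refine le_trans ?_ N1
    exact huc.card_le hb hT W fun i hi => by linarith [(hW i hi).1]
  have hCS : sa ^ 2 ≤ W.card * ∑ i ∈ W, ‖a i‖ ^ 2 := by
    rw [hsa]
    exact sq_sum_le_card_mul_sum_sq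
  have hapos : 0 < ∑ i ∈ W, ‖a i‖ ^ 2 := by
    obtain ⟨i, hi, hai⟩ := ha
    have h8 : 0 < ‖a i‖ := norm_pos_iff.mpr hai
    exact Finset.sum_pos' (fun j _ => sq_nonneg _) ⟨i, hi, by positivity⟩
  set S0 := ∑' i, m i / (1 + |(u i).im|) ^ 2 with hS0
  have hS00 : 0 ≤ S0 := tsum_nonneg fun i => div_nonneg (C.m_nonneg i) (by positivity)
  have h8 : sa ^ 2 * ε * S0 ≤ (M * ∑ i ∈ W, ‖a i‖ ^ 2) * ε * S0 := by
    gcongr
    refine hCS.trans ?_
    gcongr
  have h9 : (M * ∑ i ∈ W, ‖a i‖ ^ 2) * ε * S0 = (M * ε * S0) * ∑ i ∈ W, ‖a i‖ ^ 2 := by ring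
  nlinarith

end Pool.Agent.Helper76.LW
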