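import Pool.Agent.Helper76.LW.Core

set_option autoImplicit false

/-!
# The effective Li-Weil criterion: the test polynomial
-/

namespace Pool.Agent.Helper76.LW

open Complex Filter Topology Polynomial
open scoped ComplexConjugate

/-- `x` is near `1` -/
def Near (x : ℂ) (a : ℝ) : Prop := ‖x - 1‖ ≤ Real.exp a - 1

lemma Near.of_le {x : ℂ} {a : ℝ} (h : ‖x - 1‖ ≤ a) : Near x a := by
  unfold Near
  linarith [Real.add_one_le_exp a]

lemma Near.nonneg {x : ℂ} {a : ℝ} (h : Near x a) : 0 ≤ a := by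
  unfold Near at h
  have := norm_nonneg (x - 1)
  have h1 : 1 ≤ Real.exp a := by linarith
  exact Real.one_le_exp_iff.mp h1

lemma Near.mul {x y : ℂ} {a b : ℝ} (hx : Near x a) (hy : Near y b) : Near (x * y) (a + b) := by
  have ha := hx.nonneg
  have hb := hy.nonneg
  unfold Near at *
  have e : x * y - 1 = (x - 1) * (y - 1) + (x - 1) + (y - 1) := by ring
  rw [e]
  have h1 : ‖(x - 1) * (y - 1)‖ ≤ (Real.exp a - 1) * (Real.exp b - 1) := by
    rw [norm_mul]
    have := Real.one_le_exp ha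
    gcongr
  calc ‖(x - 1) * (y - 1) + (x - 1) + (y - 1)‖ ≤ ‖(x - 1) * (y - 1)‖ + ‖x - 1‖ + ‖y - 1‖ := norm_add₃_le
    _ ≤ (Real.exp a - 1) * (Real.exp b - 1) + (Real.exp a - 1) + (Real.exp b - 1) := by gcongr
    _ = Real.exp (a + b) - 1 := by rw [Real.exp_add]; ring

lemma Near.one : Near 1 0 := by
  unfold Near
  simp

lemma Near.prod {α : Type*} (s : Finset α) (f : α → ℂ) {a : ℝ} (h : ∀ i ∈ s, Near (f i) a) :
    Near (∏ i ∈ s, f i) (s.card * a) := by
  classical
  induction s using Finset.induction_on with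
  | empty => simpa using Near.one
  | insert i s hi ih =>
    rw [Finset.prod_insert hi, Finset.card_insert_of_notMem hi]
    have h1 := (h i (Finset.mem_insert_self i s)).mul (ih fun j hj => h j (Finset.mem_insert_of_mem hj))
    convert h1 using 1
    push_cast
    ring

lemma Near.pow {x : ℂ} {a : ℝ} (h : Near x a) (n : ℕ) : Near (x ^ n) (n * a) := by
  induction n with
  | zero => simpa using Near.one
  | succ n ih =>
    rw [pow_succ]
    convert ih.mul h using 1
    push_cast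
    ring

lemma Near.conj {x : ℂ} {a : ℝ} (h : Near x a) : Near (conj x) a := by
  unfold Near at *
  rwa [← map_one (starRingEnd ℂ), ← map_sub, Complex.norm_conj]

lemma Near.mono {x : ℂ} {a b : ℝ} (h : Near x a) (hab : a ≤ b) : Near x b := by
  unfold Near at *
  have := Real.exp_le_exp.mpr hab
  linarith

lemma Near.re_nonneg {x : ℂ} {a : ℝ} (h : Near x a) (ha : a ≤ 1 / 4) : 0 ≤ x.re := by
  have h1 := h.mono ha
  unfold Near at h1
  have h2 : Real.exp (1 / 4) ≤ 2 := by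
    have h3 : Real.exp (1 / 4) ≤ Real.exp 1 ^ ((1 : ℝ) / 4) := by
      rw [← Real.exp_mul, one_mul]
    have h4 : Real.exp (1 / 4) ^ (4 : ℕ) = Real.exp 1 := by
      rw [← Real.exp_nat_mul]
      norm_num
    by_contra hc
    push Not at hc
    have h5 : (2 : ℝ) ^ 4 < Real.exp (1 / 4) ^ 4 := by gcongr
    have := Real.exp_one_lt_d9
    rw [h4] at h5
    linarith
  have h3 : ‖x - 1‖ ≤ 1 := by linarith
  have h4 := Complex.abs_re_le_norm (x - 1)
  rw [Complex.sub_re, Complex.one_re] at h4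
  have h5 := abs_le.mp (h4.trans h3)
  linarith [h5.1]

variable {ι : Type*} {u : ι → ℂ} {m : ι → ℝ}

/-- `1/4 - v^2` factors -/
lemma quarter_sub (v : ℂ) : (1 : ℂ) / 4 - v ^ 2 = (1 / 2 - v) * (1 / 2 + v) := by ring

lemma norm_half_add (v : ℂ) : ‖(1 : ℂ) / 2 + v‖ = ‖1 / 2 - (-conj v)‖ := by
  have h2 : conj (2 : ℂ) = 2 := by
    have : (2 : ℂ) = ((2 : ℝ) : ℂ) := by push_cast; rfl
    rw [this, Complex.conj_ofReal]
  rw [← Complex.norm_conj]
  congr 1
  simp only [map_add, map_div₀, map_one, h2]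
  ring

lemma norm_quarter_ge_im (v : ℂ) : |v.im| ^ 2 ≤ ‖(1 : ℂ) / 4 - v ^ 2‖ := by
  rw [quarter_sub, norm_mul, sq]
  have h1 : |v.im| ≤ ‖(1 : ℂ) / 2 - v‖ := by
    have := Complex.abs_im_le_norm ((1 : ℂ) / 2 - v)
    simpa using this
  have h2 : |v.im| ≤ ‖(1 : ℂ) / 2 + v‖ := by
    have := Complex.abs_im_le_norm ((1 : ℂ) / 2 + v)
    simpa using this
  gcongr

lemma norm_quarter_le (v : ℂ) (hv : |v.re| < 1 / 2) : ‖(1 : ℂ) / 4 - v ^ 2‖ ≤ (1 + |v.im|) ^ 2 := by
  rw [quarter_sub, norm_mul, sq]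
  have h3 := abs_lt.mp hv
  have h1 : ‖(1 : ℂ) / 2 - v‖ ≤ 1 + |v.im| := by
    refine (Complex.norm_le_abs_re_add_abs_im _).trans ?_
    have h4 : |((1 : ℂ) / 2 - v).re| ≤ 1 := by
      rw [abs_le]
      simp
      constructor <;> linarith [h3.1, h3.2]
    have h5 : |((1 : ℂ) / 2 - v).im| = |v.im| := by simp
    rw [h5]
    linarith
  have h2 : ‖(1 : ℂ) / 2 + v‖ ≤ 1 + |v.im| := by
    refine (Complex.norm_le_abs_re_add_abs_im _).trans ?_
    have h4 : |((1 : ℂ) / 2 + v).re| ≤ 1 := by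
      rw [abs_le]
      simp
      constructor <;> linarith [h3.1, h3.2]
    have h5 : |((1 : ℂ) / 2 + v).im| = |v.im| := by simp
    rw [h5]
    linarith
  gcongr

lemma norm_le_half_add (v : ℂ) (hv : |v.re| < 1 / 2) : ‖v‖ ≤ 1 / 2 + |v.im| :=
  (Complex.norm_le_abs_re_add_abs_im _).trans (by linarith)

/-- polynomial of degree one with given values at `p` and `-conj p` -/
noncomputable def lin (α p : ℂ) (h : ℝ) : ℂ[X] :=
  C (α / (2 * h)) * (X - C (-conj p)) - C ((1 : ℂ) / (2 * h)) * (X - C p)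

lemma lin_eval (α p : ℂ) (h : ℝ) (v : ℂ) :
    (lin α p h).eval v = (α * (v + conj p) - (v - p)) / (2 * h) := by
  unfold lin
  simp only [eval_sub, eval_mul, eval_C, eval_X]
  ring

lemma lin_near {α p : ℂ} {h : ℝ} (hh : 0 < h) (hp : p.re = h) (hα : ‖α‖ = 1) {v : ℂ} {e : ℝ}
    (hv : ‖v - p‖ ≤ e * h) :
    Near ((lin α p h).eval v / α) e ∧ Near ((lin α p h).eval (-conj v)) e := by
  have hα0 : α ≠ 0 := by
    intro h0
    rw [h0] at hα
    simp at hα
  have hhc : (h : ℂ) ≠ 0 := by exact_mod_cast hh.ne'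
  have hpc : p + conj p = 2 * h := by
    rw [Complex.add_conj, hp]
    push_cast
    ring
  have hn2 : ‖(2 * (h : ℂ))‖ = 2 * h := by
    rw [norm_mul, Complex.norm_real, Real.norm_of_nonneg hh.le]
    simp
  have hα2 : ‖α - 1‖ ≤ 2 := by
    calc ‖α - 1‖ ≤ ‖α‖ + ‖(1 : ℂ)‖ := norm_sub_le _ _
      _ = 2 := by rw [hα, norm_one]; norm_num
  constructor
  · apply Near.of_le
    have e1 : (lin α p h).eval v / α - 1 = (α - 1) * (v - p) / (α * (2 * h)) := by
      rw [lin_eval]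
      have e2 : v + conj p = (v - p) + 2 * h := by rw [← hpc]; ring
      rw [e2]
      field_simp
      ring
    rw [e1, norm_div, norm_mul, norm_mul, hα, one_mul, hn2, div_le_iff₀ (by positivity)]
    calc ‖α - 1‖ * ‖v - p‖ ≤ 2 * (e * h) := by gcongr
      _ = e * (2 * h) := by ring
  · apply Near.of_le
    have e1 : (lin α p h).eval (-conj v) - 1 = (1 - α) * conj (v - p) / (2 * h) := by
      rw [lin_eval, map_sub]
      have e2 : -conj v - p = -(conj v - conj p) - 2 * h := by rw [← hpc]; ring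
      rw [e2]
      field_simp
      ring
    rw [e1, norm_div, norm_mul, Complex.norm_conj, hn2, div_le_iff₀ (by positivity), norm_sub_rev]
    calc ‖α - 1‖ * ‖v - p‖ ≤ 2 * (e * h) := by gcongr
      _ = e * (2 * h) := by ring

lemma lin_norm_le {α p : ℂ} {h : ℝ} (hh : 0 < h) (hα : ‖α‖ = 1) {v : ℂ} {Y : ℝ}
    (h1 : ‖v‖ ≤ Y) (h2 : ‖p‖ ≤ Y) : ‖(lin α p h).eval v‖ ≤ 2 * Y / h := by
  have hn2 : ‖(2 * (h : ℂ))‖ = 2 * h := by
    rw [norm_mul, Complex.norm_real, Real.norm_of_nonneg hh.le]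
    simp
  rw [lin_eval, norm_div, hn2, div_le_div_iff₀ (by positivity) hh]
  have h3 : ‖α * (v + conj p) - (v - p)‖ ≤ 4 * Y := by
    calc ‖α * (v + conj p) - (v - p)‖ ≤ ‖α * (v + conj p)‖ + ‖v - p‖ := norm_sub_le _ _
      _ ≤ (‖v‖ + ‖conj p‖) + (‖v‖ + ‖p‖) := by
          rw [norm_mul, hα, one_mul]
          gcongr
          · exact norm_add_le _ _
          · exact norm_sub_le _ _
      _ ≤ (Y + Y) + (Y + Y) := by
          rw [Complex.norm_conj]
          gcongr
      _ = 4 * Y := by ring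
  calc ‖α * (v + conj p) - (v - p)‖ * h ≤ 4 * Y * h := by gcongr
    _ = 2 * Y * (2 * h) := by ring

end Pool.Agent.Helper76.LW
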