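import Mathlib

set_option autoImplicit false

/-!
# Growth of polynomials off an interval, Lipschitz bounds, and interpolation with irregular nodes
-/

namespace Pool.Agent.Helper76.LW

open Complex Filter Topology Polynomial Metric
open scoped ComplexConjugate

/-- the polynomial `w ^ n * F (w + 1 / w)` -/
noncomputable def joukG (F : ℂ[X]) (n : ℕ) (w : ℂ) : ℂ :=
  ∑ j ∈ Finset.range (n + 1), F.coeff j * (w ^ 2 + 1) ^ j * w ^ (n - j)

lemma joukG_eq {F : ℂ[X]} {n : ℕ} (hn : F.natDegree ≤ n) {w : ℂ} (hw : w ≠ 0) :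
    joukG F n w = w ^ n * F.eval (w + w⁻¹) := by
  unfold joukG
  rw [Polynomial.eval_eq_sum_range' (Nat.lt_succ_of_le hn), Finset.mul_sum]
  refine Finset.sum_congr rfl fun j hj => ?_
  have hj' : j ≤ n := Nat.lt_succ_iff.mp (Finset.mem_range.mp hj)
  have h1 : w ^ 2 + 1 = w * (w + w⁻¹) := by field_simp
  have h2 : w ^ n = w ^ j * w ^ (n - j) := by
    rw [← pow_add]
    congr 1
    omega
  rw [h1, mul_pow, h2]
  ring

lemma bw_disc {n : ℕ} {F : ℂ[X]} (hn : F.natDegree ≤ n) {M : ℝ}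
    (hM : ∀ x : ℝ, |x| ≤ 2 → ‖F.eval (x : ℂ)‖ ≤ M) {ζ : ℂ} (h0 : ζ ≠ 0) (h1 : ‖ζ‖ ≤ 1) :
    ‖F.eval (ζ + ζ⁻¹)‖ * ‖ζ‖ ^ n ≤ M := by
  have hd : Differentiable ℂ (joukG F n) := by
    unfold joukG
    fun_prop
  have key : ‖joukG F n ζ‖ ≤ M := by
    refine Complex.norm_le_of_forall_mem_frontier_norm_le (U := ball (0 : ℂ) 1) isBounded_ball
      hd.diffContOnCl (fun z hz => ?_) ?_
    · rw [frontier_ball _ one_ne_zero, mem_sphere_zero_iff_norm] at hz
      have hz0 : z ≠ 0 := by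
        intro h
        rw [h] at hz
        simp at hz
      rw [joukG_eq hn hz0, norm_mul, norm_pow, hz, one_pow, one_mul]
      have h2 : z⁻¹ = conj z := by
        rw [Complex.inv_def, Complex.normSq_eq_norm_sq, hz]
        simp
      have h3 : z + z⁻¹ = ((2 * z.re : ℝ) : ℂ) := by
        rw [h2, Complex.add_conj]
      rw [h3]
      apply hM
      rw [abs_mul, abs_two]
      have := Complex.abs_re_le_norm z
      rw [hz] at this
      linarith
    · rw [closure_ball _ one_ne_zero, mem_closedBall_zero_iff]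
      exact h1
  rw [joukG_eq hn h0, norm_mul, norm_pow] at key
  rw [mul_comm]
  exact key

/-- solving `ζ + 1/ζ = z` in the unit disc -/
lemma exists_jouk (z : ℂ) : ∃ ζ : ℂ, ζ ≠ 0 ∧ ‖ζ‖ ≤ 1 ∧ ζ + ζ⁻¹ = z := by
  obtain ⟨s, hs⟩ := IsAlgClosed.exists_pow_nat_eq (z ^ 2 - 4) (n := 2) (by norm_num)
  have hprod : ((z + s) / 2) * ((z - s) / 2) = 1 := by
    linear_combination (-1 / 4 : ℂ) * hs
  have h1 : (z + s) / 2 ≠ 0 := left_ne_zero_of_mul_eq_one hprod
  have h2 : (z - s) / 2 ≠ 0 := right_ne_zero_of_mul_eq_one hprod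
  have i1 : ((z + s) / 2)⁻¹ = (z - s) / 2 := inv_eq_of_mul_eq_one_right hprod
  have i2 : ((z - s) / 2)⁻¹ = (z + s) / 2 := by rw [← i1, inv_inv]
  by_cases h : ‖(z + s) / 2‖ ≤ 1
  · refine ⟨_, h1, h, ?_⟩
    rw [i1]
    ring
  · refine ⟨_, h2, ?_, ?_⟩
    · rw [← i1, norm_inv]
      push Not at h
      exact inv_le_one_of_one_le₀ h.le
    · rw [i2]
      ring

lemma jouk_lower {z ζ : ℂ} (h0 : ζ ≠ 0) (h1 : ‖ζ‖ ≤ 1) (h2 : ζ + ζ⁻¹ = z) (hre : |z.re| ≤ 17 / 10) :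
    1 / ‖ζ‖ ≤ 1 + 2 * |z.im| := by
  set r := ‖ζ‖ with hr
  have hr0 : 0 < r := norm_pos_iff.mpr h0
  have hN : Complex.normSq ζ = r ^ 2 := Complex.normSq_eq_norm_sq ζ
  have hN2 : ζ.re ^ 2 + ζ.im ^ 2 = r ^ 2 := by
    rw [← hN, Complex.normSq_apply]
    ring
  have hzre : z.re = ζ.re * (1 + 1 / r ^ 2) := by
    rw [← h2, Complex.add_re, Complex.inv_re, hN]
    ring
  have hzim : z.im = ζ.im * (1 - 1 / r ^ 2) := by
    rw [← h2, Complex.add_im, Complex.inv_im, hN]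
    ring
  have hrr : 1 ≤ 1 / r ^ 2 := by
    rw [le_div_iff₀ (by positivity)]
    nlinarith
  -- the real part is small
  have h3 : |ζ.re| ≤ 17 / 20 * r := by
    rw [hzre, abs_mul, abs_of_pos (show 0 < 1 + 1 / r ^ 2 by positivity)] at hre
    have h4 : 2 / r ≤ 1 + 1 / r ^ 2 := by
      have : 1 + 1 / r ^ 2 - 2 / r = (1 - 1 / r) ^ 2 := by
        field_simp
        ring
      nlinarith [sq_nonneg (1 - 1 / r)]
    have h5 : |ζ.re| * (2 / r) ≤ 17 / 10 := le_trans (by gcongr) hre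
    have h6 : |ζ.re| * (2 / r) = 2 * |ζ.re| / r := by ring
    rw [h6, div_le_iff₀ hr0] at h5
    linarith
  have h4 : 1 / 2 * r ≤ |ζ.im| := by
    have h5 : ζ.re ^ 2 ≤ (17 / 20 * r) ^ 2 := by
      rw [← sq_abs ζ.re]
      gcongr
    have h6 : (1 / 2 * r) ^ 2 ≤ |ζ.im| ^ 2 := by
      rw [sq_abs]
      nlinarith
    exact le_of_sq_le_sq h6 (abs_nonneg _)
  have h5 : 1 / 2 * r * (1 / r ^ 2 - 1) ≤ |z.im| := by
    rw [hzim, abs_mul]
    have : |1 - 1 / r ^ 2| = 1 / r ^ 2 - 1 := by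
      rw [abs_of_nonpos (by linarith)]
      ring
    rw [this]
    gcongr
  have h6 : 1 / 2 * r * (1 / r ^ 2 - 1) = 1 / 2 * (1 / r - r) := by
    field_simp
  rw [h6] at h5
  linarith

/-- growth of polynomials near the inner part of the interval -/
lemma growth {n : ℕ} {F : ℂ[X]} (hn : F.natDegree ≤ n) {M : ℝ}
    (hM : ∀ x : ℝ, |x| ≤ 2 → ‖F.eval (x : ℂ)‖ ≤ M) {z : ℂ} (hre : |z.re| ≤ 17 / 10) :
    ‖F.eval z‖ ≤ M * (1 + 2 * |z.im|) ^ n := by
  obtain ⟨ζ, h0, h1, h2⟩ := exists_jouk z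
  have h3 := jouk_lower h0 h1 h2 hre
  have h4 := bw_disc hn hM h0 h1
  rw [h2] at h4
  have hr0 : 0 < ‖ζ‖ := norm_pos_iff.mpr h0
  have hM0 : 0 ≤ M := (norm_nonneg _).trans (hM 0 (by norm_num))
  have h5 : ‖F.eval z‖ ≤ M * (1 / ‖ζ‖) ^ n := by
    rw [one_div, inv_pow, ← div_eq_mul_inv, le_div_iff₀ (by positivity)]
    exact h4
  refine h5.trans ?_
  gcongr

/-- Lipschitz bound near the inner part of the interval -/
lemma deriv_bound {n : ℕ} (hn0 : 1 ≤ n) {F : ℂ[X]} (hn : F.natDegree ≤ n) {M : ℝ}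
    (hM : ∀ x : ℝ, |x| ≤ 2 → ‖F.eval (x : ℂ)‖ ≤ M) {z : ℂ} (hre : |z.re| ≤ 16 / 10)
    (him : |z.im| ≤ 1 / n) : ‖deriv (fun w => F.eval w) z‖ ≤ 100 * n * M := by
  have hnr : (1 : ℝ) ≤ n := by exact_mod_cast hn0
  have hM0 : 0 ≤ M := (norm_nonneg _).trans (hM 0 (by norm_num))
  have hR : 0 < 1 / (10 * (n : ℝ)) := by positivity
  have hR1 : 1 / (10 * (n : ℝ)) ≤ 1 / 10 := by
    apply one_div_le_one_div_of_le (by norm_num)
    linarith
  have hb : ∀ w ∈ sphere z (1 / (10 * (n : ℝ))), ‖(fun w => F.eval w) w‖ ≤ M * 10 := by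
    intro w hw
    rw [mem_sphere_iff_norm] at hw
    have h1 : |w.re| ≤ 17 / 10 := by
      have h2 := Complex.abs_re_le_norm (w - z)
      rw [hw, Complex.sub_re] at h2
      have h3 := abs_sub_abs_le_abs_sub w.re z.re
      linarith
    have h2 : |w.im| ≤ 11 / (10 * n) := by
      have h2 := Complex.abs_im_le_norm (w - z)
      rw [hw, Complex.sub_im] at h2
      have h3 := abs_sub_abs_le_abs_sub w.im z.im
      have h4 : 11 / (10 * (n : ℝ)) = 1 / n + 1 / (10 * n) := by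
        field_simp
        norm_num
      linarith
    refine (growth hn hM h1).trans ?_
    gcongr
    have h3 : 1 + 2 * |w.im| ≤ Real.exp (22 / (10 * n)) := by
      have h4 := Real.add_one_le_exp (22 / (10 * (n : ℝ)))
      have h5 : 22 / (10 * (n : ℝ)) = 2 * (11 / (10 * n)) := by ring
      linarith
    calc (1 + 2 * |w.im|) ^ n ≤ (Real.exp (22 / (10 * n))) ^ n := by gcongr
      _ = Real.exp (22 / 10) := by
          rw [← Real.exp_nat_mul]
          congr 1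
          field_simp
      _ ≤ 10 := by
          have h6 : Real.exp (22 / 10) ^ 5 = Real.exp 1 ^ 11 := by
            rw [← Real.exp_nat_mul, ← Real.exp_nat_mul]
            norm_num
          by_contra hc
          push Not at hc
          have h7 : (10 : ℝ) ^ 5 < Real.exp (22 / 10) ^ 5 := by gcongr
          have h8 : Real.exp 1 ^ 11 ≤ 2.7182818286 ^ 11 := by
            have := Real.exp_one_lt_d9
            gcongr
          rw [h6] at h7
          norm_num at h7 h8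
          linarith
  have hd : DiffContOnCl ℂ (fun w => F.eval w) (ball z (1 / (10 * (n : ℝ)))) := by
    apply Differentiable.diffContOnCl
    exact F.differentiable
  have h := Complex.norm_deriv_le_of_forall_mem_sphere_norm_le hR hd hb
  refine h.trans (le_of_eq ?_)
  field_simp
  ring

/-- Lipschitz bound near the inner part of the interval -/
lemma lipschitz {n : ℕ} (hn0 : 1 ≤ n) {F : ℂ[X]} (hn : F.natDegree ≤ n) {M : ℝ}
    (hM : ∀ x : ℝ, |x| ≤ 2 → ‖F.eval (x : ℂ)‖ ≤ M) {z w : ℂ} (hz1 : |z.re| ≤ 16 / 10)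
    (hz2 : |z.im| ≤ 1 / n) (hw1 : |w.re| ≤ 16 / 10) (hw2 : |w.im| ≤ 1 / n) :
    ‖F.eval z - F.eval w‖ ≤ 100 * n * M * ‖z - w‖ := by
  have hconv : Convex ℝ {z : ℂ | |z.re| ≤ 16 / 10 ∧ |z.im| ≤ 1 / n} := by
    have h1 : {z : ℂ | |z.re| ≤ 16 / 10 ∧ |z.im| ≤ 1 / n} =
        (Complex.reLm ⁻¹' Set.Icc (-(16 / 10)) (16 / 10)) ∩
          (Complex.imLm ⁻¹' Set.Icc (-(1 / (n : ℝ))) (1 / n)) := by
      ext z
      simp only [Set.mem_ofPred_eq, Set.mem_inter_iff, Set.mem_preimage, Set.mem_Icc, abs_le]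
      rfl
    rw [h1]
    exact ((convex_Icc _ _).linear_preimage _).inter ((convex_Icc _ _).linear_preimage _)
  exact hconv.norm_image_sub_le_of_norm_deriv_le (f := fun w => F.eval w)
    (fun x _ => F.differentiable.differentiableAt) (fun x hx => deriv_bound hn0 hn hM hx.1 hx.2)
    ⟨hw1, hw2⟩ ⟨hz1, hz2⟩

end Pool.Agent.Helper76.LW
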