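import Pool.Agent.Helper76.LW.Samp1

set_option autoImplicit false

/-!
# A sampling inequality for polynomials with irregular nodes
-/

namespace Pool.Agent.Helper76.LW

open Complex Filter Topology Polynomial Metric
open scoped ComplexConjugate

/-- alternating cosine sums -/
lemma cos_sum (k : ℕ) (ψ : ℝ) :
    Real.cos ψ * (1 + 2 * ∑ j ∈ Finset.range k, (-1 : ℝ) ^ (j + 1) * Real.cos (2 * (j + 1) * ψ)) =
      (-1) ^ k * Real.cos ((2 * k + 1) * ψ) := by
  induction k with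
  | zero => simp
  | succ k ih =>
    rw [Finset.sum_range_succ]
    have h1 : 2 * Real.cos ψ * Real.cos (2 * (k + 1) * ψ) =
        Real.cos ((2 * (k + 1) + 1) * ψ) + Real.cos ((2 * k + 1) * ψ) := by
      have h2 : (2 * ((k : ℝ) + 1) + 1) * ψ = 2 * (k + 1) * ψ + ψ := by ring
      have h3 : (2 * (k : ℝ) + 1) * ψ = 2 * (k + 1) * ψ - ψ := by ring
      rw [h2, h3, Real.cos_add, Real.cos_sub]
      ring
    push_cast
    calc _ = Real.cos ψ * (1 + 2 * ∑ j ∈ Finset.range k, (-1 : ℝ) ^ (j + 1) * Real.cos (2 * (j + 1) * ψ)) +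
          (-1) ^ (k + 1) * (2 * Real.cos ψ * Real.cos (2 * (k + 1) * ψ)) := by ring
      _ = _ := by
        rw [ih, h1, pow_succ]
        ring

/-- a peaked polynomial of degree `2 k` on `[-4, 4]` -/
noncomputable def SP (k : ℕ) : ℂ[X] :=
  Polynomial.C (1 / (2 * k + 1 : ℂ)) * (1 + Polynomial.C 2 * ∑ j ∈ Finset.range k,
    Polynomial.C ((-1) ^ (j + 1)) * (Polynomial.Chebyshev.T ℂ (2 * ((j : ℤ) + 1))).comp
      (Polynomial.C (1 / 4) * X))

lemma SP_natDegree (k : ℕ) : (SP k).natDegree ≤ 2 * k := by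
  unfold SP
  refine (Polynomial.natDegree_C_mul_le _ _).trans ((Polynomial.natDegree_add_le _ _).trans ?_)
  rw [max_le_iff]
  constructor
  · simp
  · refine (Polynomial.natDegree_C_mul_le _ _).trans ?_
    refine Polynomial.natDegree_sum_le_of_forall_le _ _ fun j hj => ?_
    have hj' := Finset.mem_range.mp hj
    refine (Polynomial.natDegree_C_mul_le _ _).trans ?_
    refine Polynomial.natDegree_comp_le.trans ?_
    rw [Polynomial.Chebyshev.natDegree_T]
    have h1 : (Polynomial.C (1 / 4) * X : ℂ[X]).natDegree ≤ 1 := by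
      refine (Polynomial.natDegree_C_mul_le _ _).trans ?_
      simp
    calc (2 * ((j : ℤ) + 1)).natAbs * (Polynomial.C (1 / 4) * X : ℂ[X]).natDegree ≤
        (2 * ((j : ℤ) + 1)).natAbs * 1 := Nat.mul_le_mul_left _ h1
      _ ≤ 2 * k := by omega

lemma SP_eval (k : ℕ) {x : ℝ} (hx : |x| ≤ 4) :
    (SP k).eval (x : ℂ) = ((1 / (2 * k + 1) * (1 + 2 * ∑ j ∈ Finset.range k,
      (-1 : ℝ) ^ (j + 1) * Real.cos (2 * (j + 1) * Real.arccos (x / 4))) : ℝ) : ℂ) := by
  have h0 := abs_le.mp hx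
  have h1 : Real.cos (Real.arccos (x / 4)) = x / 4 := Real.cos_arccos (by linarith) (by linarith)
  unfold SP
  rw [Polynomial.eval_mul, Polynomial.eval_add, Polynomial.eval_mul, Polynomial.eval_finsetSum]
  simp only [Polynomial.eval_mul, Polynomial.eval_C, Polynomial.eval_comp, Polynomial.eval_X,
    Polynomial.eval_one]
  have h2 : ∀ j : ℕ, (Polynomial.Chebyshev.T ℂ (2 * ((j : ℤ) + 1))).eval (1 / 4 * (x : ℂ)) =
      ((Real.cos (2 * (j + 1) * Real.arccos (x / 4)) : ℝ) : ℂ) := by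
    intro j
    have h3 := Polynomial.Chebyshev.T_real_cos (Real.arccos (x / 4)) (2 * ((j : ℤ) + 1))
    have h4 := Polynomial.Chebyshev.complex_ofReal_eval_T (x / 4) (2 * ((j : ℤ) + 1))
    rw [h1] at h3
    have h5 : (1 / 4 * (x : ℂ)) = ((x / 4 : ℝ) : ℂ) := by
      push_cast
      ring
    rw [h5, ← h4, h3]
    push_cast
    rfl
  simp only [h2]
  push_cast
  rfl

lemma SP_zero (k : ℕ) : (SP k).eval 0 = 1 := by
  have h := SP_eval k (x := 0) (by norm_num)
  rw [Complex.ofReal_zero] at h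
  rw [h]
  have h1 : ∀ j : ℕ, (-1 : ℝ) ^ (j + 1) * Real.cos (2 * (j + 1) * Real.arccos (0 / 4)) = 1 := by
    intro j
    rw [zero_div, Real.arccos_zero]
    have h2 : 2 * ((j : ℝ) + 1) * (Real.pi / 2) = ((j + 1 : ℕ) : ℝ) * Real.pi := by
      push_cast
      ring
    rw [h2, Real.cos_nat_mul_pi, ← mul_pow]
    norm_num
  simp only [h1]
  rw [Finset.sum_const, Finset.card_range, nsmul_eq_mul, mul_one]
  have : (1 / (2 * (k : ℝ) + 1) * (1 + 2 * k)) = 1 := by
    have : (2 * (k : ℝ) + 1) ≠ 0 := by positivity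
    field_simp
    ring
  rw [this]
  simp

lemma SP_le_one (k : ℕ) {x : ℝ} (hx : |x| ≤ 4) : ‖(SP k).eval (x : ℂ)‖ ≤ 1 := by
  rw [SP_eval k hx, Complex.norm_real, norm_mul, Real.norm_eq_abs, Real.norm_eq_abs,
    abs_of_nonneg (by positivity), div_mul_eq_mul_div, one_mul, div_le_one (by positivity)]
  calc |1 + 2 * ∑ j ∈ Finset.range k, (-1 : ℝ) ^ (j + 1) * Real.cos (2 * (j + 1) * Real.arccos (x / 4))| ≤
      |1| + |2 * ∑ j ∈ Finset.range k, (-1 : ℝ) ^ (j + 1) * Real.cos (2 * (j + 1) * Real.arccos (x / 4))| :=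
        abs_add_le _ _
    _ ≤ 1 + 2 * ∑ j ∈ Finset.range k, (1 : ℝ) := by
        rw [abs_one, abs_mul, abs_two]
        gcongr
        refine (Finset.abs_sum_le_sum_abs _ _).trans (Finset.sum_le_sum fun j _ => ?_)
        rw [abs_mul, abs_pow, abs_neg, abs_one, one_pow, one_mul]
        exact Real.abs_cos_le_one _
    _ = 2 * k + 1 := by
        rw [Finset.sum_const, Finset.card_range, nsmul_eq_mul, mul_one]
        ring

lemma SP_decay (k : ℕ) {x : ℝ} (hx : |x| ≤ 4) : |x| * ‖(SP k).eval (x : ℂ)‖ ≤ 4 / (2 * k + 1) := by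
  have h0 := abs_le.mp hx
  have h1 : Real.cos (Real.arccos (x / 4)) = x / 4 := Real.cos_arccos (by linarith) (by linarith)
  have h2 := cos_sum k (Real.arccos (x / 4))
  rw [h1] at h2
  rw [SP_eval k hx, Complex.norm_real, Real.norm_eq_abs, ← abs_mul]
  have h3 : x * (1 / (2 * k + 1) * (1 + 2 * ∑ j ∈ Finset.range k,
      (-1 : ℝ) ^ (j + 1) * Real.cos (2 * (j + 1) * Real.arccos (x / 4)))) =
      4 / (2 * k + 1) * ((-1) ^ k * Real.cos ((2 * k + 1) * Real.arccos (x / 4))) := by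
    rw [← h2]
    ring
  rw [h3, abs_mul, abs_of_nonneg (by positivity), abs_mul, abs_pow, abs_neg, abs_one, one_pow, one_mul]
  have := Real.abs_cos_le_one ((2 * k + 1) * Real.arccos (x / 4))
  calc 4 / (2 * (k : ℝ) + 1) * |Real.cos ((2 * k + 1) * Real.arccos (x / 4))| ≤ 4 / (2 * k + 1) * 1 := by gcongr
    _ = _ := mul_one _

/-- the localising polynomial at the point `ξ` -/
noncomputable def BP (n : ℕ) (ξ : ℝ) : ℂ[X] :=
  (SP n).comp (X - Polynomial.C (ξ : ℂ)) * (1 - Polynomial.C (1 / 16) * (X - Polynomial.C (ξ : ℂ)) ^ 2) ^ (320 * n)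

lemma BP_natDegree (n : ℕ) (ξ : ℝ) : (BP n ξ).natDegree ≤ 642 * n := by
  unfold BP
  refine Polynomial.natDegree_mul_le.trans ?_
  have h1 : ((SP n).comp (X - Polynomial.C (ξ : ℂ))).natDegree ≤ 2 * n := by
    refine Polynomial.natDegree_comp_le.trans ?_
    rw [Polynomial.natDegree_X_sub_C, mul_one]
    exact SP_natDegree n
  have h2 : ((1 - Polynomial.C (1 / 16) * (X - Polynomial.C (ξ : ℂ)) ^ 2) ^ (320 * n)).natDegree ≤ 640 * n := by
    refine Polynomial.natDegree_pow_le.trans ?_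
    have h3 : (1 - Polynomial.C (1 / 16) * (X - Polynomial.C (ξ : ℂ)) ^ 2).natDegree ≤ 2 := by
      refine (Polynomial.natDegree_sub_le _ _).trans ?_
      rw [max_le_iff]
      constructor
      · simp
      · refine (Polynomial.natDegree_C_mul_le _ _).trans (Polynomial.natDegree_pow_le.trans ?_)
        rw [Polynomial.natDegree_X_sub_C]
    calc 320 * n * (1 - Polynomial.C (1 / 16) * (X - Polynomial.C (ξ : ℂ)) ^ 2).natDegree ≤ 320 * n * 2 :=
          Nat.mul_le_mul_left _ h3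
      _ = 640 * n := by ring
  omega

lemma BP_eval (n : ℕ) (ξ : ℝ) (x : ℝ) : (BP n ξ).eval (x : ℂ) =
    (SP n).eval ((x - ξ : ℝ) : ℂ) * ((1 - 1 / 16 * (x - ξ) ^ 2 : ℝ) : ℂ) ^ (320 * n) := by
  unfold BP
  simp only [Polynomial.eval_mul, Polynomial.eval_pow, Polynomial.eval_comp, Polynomial.eval_sub,
    Polynomial.eval_one, Polynomial.eval_C, Polynomial.eval_X]
  push_cast
  rfl

lemma BP_self (n : ℕ) (ξ : ℝ) : (BP n ξ).eval (ξ : ℂ) = 1 := by
  rw [BP_eval, sub_self, Complex.ofReal_zero, SP_zero]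
  simp

lemma BP_le (n : ℕ) {ξ x : ℝ} (hx : |x - ξ| ≤ 4) : ‖(BP n ξ).eval (x : ℂ)‖ ≤ ‖(SP n).eval ((x - ξ : ℝ) : ℂ)‖ := by
  rw [BP_eval, norm_mul, norm_pow, Complex.norm_real, Real.norm_eq_abs]
  have h1 : |1 - 1 / 16 * (x - ξ) ^ 2| ≤ 1 := by
    have h2 : (x - ξ) ^ 2 ≤ 16 := by
      rw [← sq_abs]
      nlinarith [abs_nonneg (x - ξ)]
    rw [abs_le]
    constructor <;> nlinarith [sq_nonneg (x - ξ)]
  calc ‖(SP n).eval ((x - ξ : ℝ) : ℂ)‖ * |1 - 1 / 16 * (x - ξ) ^ 2| ^ (320 * n) ≤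
      ‖(SP n).eval ((x - ξ : ℝ) : ℂ)‖ * 1 := by
        gcongr
        exact pow_le_one₀ (abs_nonneg _) h1
    _ = _ := mul_one _

lemma BP_le_one (n : ℕ) {ξ x : ℝ} (hx : |x - ξ| ≤ 4) : ‖(BP n ξ).eval (x : ℂ)‖ ≤ 1 :=
  (BP_le n hx).trans (SP_le_one n hx)

lemma BP_decay (n : ℕ) {ξ x : ℝ} (hx : |x - ξ| ≤ 4) :
    |x - ξ| * ‖(BP n ξ).eval (x : ℂ)‖ ≤ 4 / (2 * n + 1) := by
  refine le_trans ?_ (SP_decay n hx)
  gcongr
  exact BP_le n hx

lemma BP_far (n : ℕ) {ξ x : ℝ} (hx : |x - ξ| ≤ 4) (hx2 : 1 / 2 ≤ |x - ξ|) :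
    ‖(BP n ξ).eval (x : ℂ)‖ ≤ Real.exp (-(5 * n)) := by
  rw [BP_eval, norm_mul, norm_pow, Complex.norm_real, Real.norm_eq_abs]
  have h2 : (x - ξ) ^ 2 ≤ 16 := by
    rw [← sq_abs]
    nlinarith [abs_nonneg (x - ξ)]
  have h3 : 1 / 4 ≤ (x - ξ) ^ 2 := by
    rw [← sq_abs]
    nlinarith
  have h1 : |1 - 1 / 16 * (x - ξ) ^ 2| ≤ Real.exp (-(1 / 64)) := by
    have h4 := Real.add_one_le_exp (-(1 / 64 : ℝ))
    rw [abs_of_nonneg (by nlinarith)]
    linarith
  calc ‖(SP n).eval ((x - ξ : ℝ) : ℂ)‖ * |1 - 1 / 16 * (x - ξ) ^ 2| ^ (320 * n) ≤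
      1 * (Real.exp (-(1 / 64))) ^ (320 * n) := by
        gcongr
        exact SP_le_one n hx
    _ = Real.exp (-(5 * n)) := by
        rw [one_mul, ← Real.exp_nat_mul]
        congr 1
        push_cast
        ring

/-- products of distances of integers -/
lemma prod_dist {n j : ℕ} (hj : j ≤ n) :
    ∏ k ∈ (Finset.range (n + 1)).erase j, |(j : ℝ) - k| = (j.factorial : ℝ) * ((n - j).factorial : ℝ) := by
  have h1 : (Finset.range (n + 1)).erase j = Finset.range j ∪ Finset.Ico (j + 1) (n + 1) := by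
    ext k
    simp only [Finset.mem_erase, Finset.mem_range, Finset.mem_union, Finset.mem_Ico]
    omega
  have h2 : Disjoint (Finset.range j) (Finset.Ico (j + 1) (n + 1)) := by
    rw [Finset.disjoint_left]
    intro k hk hk2
    simp only [Finset.mem_range, Finset.mem_Ico] at hk hk2
    omega
  rw [h1, Finset.prod_union h2]
  congr 1
  · rw [← Finset.prod_range_reflect, ← Finset.prod_range_add_one_eq_factorial]
    push_cast
    refine Finset.prod_congr rfl fun k hk => ?_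
    have hk' := Finset.mem_range.mp hk
    have h3 : ((j - 1 - k : ℕ) : ℝ) = (j : ℝ) - 1 - k := by
      rw [Nat.cast_sub (by omega), Nat.cast_sub (by omega)]
      simp
    rw [h3, abs_of_nonneg (by linarith [(Nat.cast_nonneg k : (0:ℝ) ≤ k)])]
    ring
  · rw [Finset.prod_Ico_eq_prod_range, ← Finset.prod_range_add_one_eq_factorial]
    have h3 : n + 1 - (j + 1) = n - j := by omega
    rw [h3]
    push_cast
    refine Finset.prod_congr rfl fun k _ => ?_
    rw [abs_sub_comm, abs_of_nonneg (by linarith [(Nat.cast_nonneg k : (0:ℝ) ≤ k)])]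
    ring

/-- crude interpolation bound -/
lemma crude_nodes {n : ℕ} (hn0 : 1 ≤ n) {P : ℂ[X]} (hP : P.natDegree ≤ n) (b : ℕ → ℂ)
    (hb : ∀ j ≤ n, |(b j).re| ≤ 2 ∧ |(b j).im| ≤ 1)
    (hbb : ∀ i ≤ n, ∀ j ≤ n, i ≠ j → 2 * |(i : ℝ) - j| / n ≤ ‖b i - b j‖)
    {A : ℝ} (hA : ∀ j ≤ n, ‖P.eval (b j)‖ ≤ A) {x : ℝ} (hx : |x| ≤ 2) :
    ‖P.eval (x : ℂ)‖ ≤ Real.exp (4 * n) * A := by
  classical
  have hnr : (1 : ℝ) ≤ n := by exact_mod_cast hn0
  have hn1 : (0 : ℝ) < n := by linarith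
  have hA0 : 0 ≤ A := (norm_nonneg _).trans (hA 0 (Nat.zero_le _))
  have hpos : ∀ i ≤ n, ∀ j ≤ n, i ≠ j → 0 < |(i : ℝ) - j| := by
    intro i _ j _ hij
    rw [abs_pos, sub_ne_zero]
    exact_mod_cast hij
  have hinj : Set.InjOn b (Finset.range (n + 1)) := by
    intro i hi j hj hij
    by_contra hne
    have hi' : i ≤ n := Nat.lt_succ_iff.mp (Finset.mem_range.mp (Finset.mem_coe.mp hi))
    have hj' : j ≤ n := Nat.lt_succ_iff.mp (Finset.mem_range.mp (Finset.mem_coe.mp hj))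
    have h1 := hbb i hi' j hj' hne
    have h2 := hpos i hi' j hj' hne
    rw [hij, sub_self, norm_zero] at h1
    have : 0 < 2 * |(i : ℝ) - j| / n := by positivity
    linarith
  have hdeg : P.degree < (Finset.range (n + 1)).card := by
    rw [Finset.card_range]
    refine lt_of_le_of_lt Polynomial.degree_le_natDegree ?_
    exact_mod_cast Nat.lt_succ_of_le hP
  have hint := Lagrange.eq_interpolate hinj hdeg
  rw [hint, Lagrange.interpolate_apply, Polynomial.eval_finsetSum]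
  have hterm : ∀ j ∈ Finset.range (n + 1), ‖(Polynomial.C (P.eval (b j)) *
      Lagrange.basis (Finset.range (n + 1)) b j).eval (x : ℂ)‖ ≤
      A * Real.exp (3 * n) := by
    intro j hj
    have hj' : j ≤ n := Nat.lt_succ_iff.mp (Finset.mem_range.mp hj)
    rw [Polynomial.eval_mul, Polynomial.eval_C, norm_mul]
    have h1 : ‖(Lagrange.basis (Finset.range (n + 1)) b j).eval (x : ℂ)‖ ≤
        Real.exp (3 * n) := by
      unfold Lagrange.basis Lagrange.basisDivisor
      rw [Polynomial.eval_prod, norm_prod]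
      have h2 : ∀ k ∈ (Finset.range (n + 1)).erase j,
          ‖(Polynomial.C ((b j - b k)⁻¹) * (X - Polynomial.C (b k))).eval (x : ℂ)‖ ≤
          5 / 2 * n * |(j : ℝ) - k|⁻¹ := by
        intro k hk
        rw [Finset.mem_erase, Finset.mem_range] at hk
        have hk' : k ≤ n := by omega
        have e1 := hbb j hj' k hk' (Ne.symm hk.1)
        have e2 := hpos j hj' k hk' (Ne.symm hk.1)
        rw [Polynomial.eval_mul, Polynomial.eval_C, Polynomial.eval_sub, Polynomial.eval_X,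
          Polynomial.eval_C, norm_mul, norm_inv]
        have e3 : ‖(x : ℂ) - b k‖ ≤ 5 := by
          obtain ⟨g1, g2⟩ := hb k hk'
          refine (Complex.norm_le_abs_re_add_abs_im _).trans ?_
          rw [Complex.sub_re, Complex.sub_im, Complex.ofReal_re, Complex.ofReal_im, zero_sub, abs_neg]
          have := abs_sub x (b k).re
          linarith
        have e4 : ‖b j - b k‖⁻¹ ≤ (2 * |(j : ℝ) - k| / n)⁻¹ := by
          apply inv_anti₀ (by positivity) e1
        calc ‖b j - b k‖⁻¹ * ‖(x : ℂ) - b k‖ ≤ (2 * |(j : ℝ) - k| / n)⁻¹ * 5 := by gcongr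
          _ = 5 / 2 * n * |(j : ℝ) - k|⁻¹ := by
            field_simp
      have h3 : ∏ k ∈ (Finset.range (n + 1)).erase j, (5 / 2 * (n : ℝ) * |(j : ℝ) - k|⁻¹) =
          (5 / 2 * n) ^ n / ((j.factorial : ℝ) * ((n - j).factorial : ℝ)) := by
        rw [Finset.prod_mul_distrib, Finset.prod_const, Finset.card_erase_of_mem hj, Finset.card_range,
          Nat.add_sub_cancel, Finset.prod_inv_distrib, prod_dist hj']
        rfl
      refine (Finset.prod_le_prod (fun k _ => norm_nonneg _) h2).trans ?_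
      rw [h3]
      have h4 : ((n.choose j : ℕ) : ℝ) * ((j.factorial : ℝ) * ((n - j).factorial : ℝ)) = (n.factorial : ℝ) := by
        have := Nat.choose_mul_factorial_mul_factorial hj'
        rw [← mul_assoc]
        exact_mod_cast this
      have h5 : ((n.choose j : ℕ) : ℝ) ≤ 2 ^ n := by exact_mod_cast Nat.choose_le_two_pow n j
      have hf : (0 : ℝ) < (j.factorial : ℝ) * ((n - j).factorial : ℝ) := by positivity
      have hfn : (0 : ℝ) < (n.factorial : ℝ) := by positivity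
      have h6 : (5 / 2 * (n : ℝ)) ^ n / ((j.factorial : ℝ) * ((n - j).factorial : ℝ)) ≤
          5 ^ n * ((n : ℝ) ^ n / n.factorial) := by
        rw [div_le_iff₀ hf]
        have h7 : 5 ^ n * ((n : ℝ) ^ n / n.factorial) * ((j.factorial : ℝ) * ((n - j).factorial : ℝ)) =
            (5 / 2 * (n : ℝ)) ^ n * (2 ^ n * (((j.factorial : ℝ) * ((n - j).factorial : ℝ)) / n.factorial)) := by
          have : (5 : ℝ) ^ n = (5 / 2) ^ n * 2 ^ n := by
            rw [← mul_pow]
            norm_num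
          rw [this, mul_pow]
          ring
        rw [h7]
        have h8 : 1 ≤ 2 ^ n * (((j.factorial : ℝ) * ((n - j).factorial : ℝ)) / n.factorial) := by
          rw [← mul_div_assoc, le_div_iff₀ hfn, one_mul, ← h4]
          gcongr
        have h9 : 0 ≤ (5 / 2 * (n : ℝ)) ^ n := by positivity
        nlinarith
      refine h6.trans ?_
      have h7 : (n : ℝ) ^ n / n.factorial ≤ Real.exp n := Real.pow_div_factorial_le_exp _ hn1.le _
      have h8 : (5 : ℝ) ≤ Real.exp 2 := by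
        have h9 : Real.exp 2 = Real.exp 1 ^ 2 := by
          rw [← Real.exp_nat_mul]
          norm_num
        rw [h9]
        nlinarith [Real.exp_one_gt_d9]
      calc 5 ^ n * ((n : ℝ) ^ n / n.factorial) ≤ (Real.exp 2) ^ n * Real.exp n := by gcongr
        _ = Real.exp (3 * n) := by
          rw [← Real.exp_nat_mul, ← Real.exp_add]
          congr 1
          ring
    exact mul_le_mul (hA j hj') h1 (norm_nonneg _) hA0
  refine (norm_sum_le _ _).trans ((Finset.sum_le_sum hterm).trans ?_)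
  rw [Finset.sum_const, Finset.card_range, nsmul_eq_mul]
  have h1 : ((n + 1 : ℕ) : ℝ) ≤ Real.exp n := by
    push_cast
    exact Real.add_one_le_exp _
  calc ((n + 1 : ℕ) : ℝ) * (A * Real.exp (3 * n)) ≤ Real.exp n * (A * Real.exp (3 * n)) := by gcongr
    _ = Real.exp (4 * n) * A := by
      rw [mul_left_comm, ← Real.exp_add, mul_comm]
      congr 2
      ring

end Pool.Agent.Helper76.LW
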