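import Pool.Agent.Helper76.LW.Samp2

set_option autoImplicit false

/-!
# A local sampling inequality for polynomials with irregular nodes
-/

namespace Pool.Agent.Helper76.LW

open Complex Filter Topology Polynomial Metric
open scoped ComplexConjugate

/-- width of the cells -/
noncomputable def dl (n : ℕ) : ℝ := 1 / (200000 * n)

/-- number of cells -/
def NC (n : ℕ) : ℕ := 800000 * n

/-- one node over every cell, near the real axis -/
def Nodes (n : ℕ) (a : ℕ → ℂ) : Prop :=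
  ∀ c < NC n, -2 + c * dl n ≤ (a c).re ∧ (a c).re ≤ -2 + (c + 1) * dl n ∧ |(a c).im| ≤ dl n / 10

lemma dl_pos {n : ℕ} (hn : 1 ≤ n) : 0 < dl n := by
  have : (1 : ℝ) ≤ n := by exact_mod_cast hn
  unfold dl
  positivity

lemma NC_dl {n : ℕ} (hn : 1 ≤ n) : (NC n : ℝ) * dl n = 4 := by
  have : (1 : ℝ) ≤ n := by exact_mod_cast hn
  unfold dl NC
  push_cast
  field_simp
  norm_num

lemma dl_mul {n : ℕ} (hn : 1 ≤ n) : 200000 * (n : ℝ) * dl n = 1 := by
  have : (1 : ℝ) ≤ n := by exact_mod_cast hn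
  unfold dl
  field_simp

lemma dl_le {n : ℕ} (hn : 1 ≤ n) : dl n ≤ 1 / 10 := by
  have hnr : (1 : ℝ) ≤ n := by exact_mod_cast hn
  have hd := dl_mul hn
  have hd0 := dl_pos hn
  have : dl n ≤ 200000 * n * dl n / 10 := by nlinarith
  rw [hd] at this
  exact this

lemma Nodes.abs_le {n : ℕ} {a : ℕ → ℂ} (hn : 1 ≤ n) (h : Nodes n a) {c : ℕ} (hc : c < NC n) :
    |(a c).re| ≤ 2 := by
  obtain ⟨h1, h2, -⟩ := h c hc
  have h3 := dl_pos hn
  have h4 := NC_dl hn
  have h5 : ((c : ℝ) + 1) * dl n ≤ NC n * dl n := by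
    gcongr
    exact_mod_cast hc
  have h6 : (0 : ℝ) ≤ c * dl n := by positivity
  rw [_root_.abs_le]
  constructor <;> linarith

/-- crude interpolation bound for nodes in cells -/
lemma crude {n : ℕ} (hn : 1 ≤ n) {P : ℂ[X]} (hP : P.natDegree ≤ n) {a : ℕ → ℂ} (ha : Nodes n a)
    {A : ℝ} (hA : ∀ c < NC n, ‖P.eval (a c)‖ ≤ A) {x : ℝ} (hx : |x| ≤ 2) :
    ‖P.eval (x : ℂ)‖ ≤ Real.exp (4 * n) * A := by
  have hnr : (1 : ℝ) ≤ n := by exact_mod_cast hn
  have hidx : ∀ j ≤ n, 600000 * j < NC n := by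
    intro j hj
    unfold NC
    omega
  have hd := dl_mul hn
  have hd0 := dl_pos hn
  have hd1 := dl_le hn
  refine crude_nodes hn hP (fun j => a (600000 * j)) (fun j hj => ⟨ha.abs_le hn (hidx j hj), ?_⟩) ?_
    (fun j hj => hA _ (hidx j hj)) hx
  · have := (ha _ (hidx j hj)).2.2
    linarith
  have key : ∀ i ≤ n, ∀ j ≤ n, i < j → 2 * |(i : ℝ) - j| / n ≤ ‖a (600000 * i) - a (600000 * j)‖ := by
    intro i hi j hj hij
    obtain ⟨h1, h2, -⟩ := ha _ (hidx i hi)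
    obtain ⟨h3, h4, -⟩ := ha _ (hidx j hj)
    have hij' : (i : ℝ) + 1 ≤ j := by exact_mod_cast hij
    rw [abs_sub_comm, norm_sub_rev, abs_of_nonneg (by linarith)]
    have h5 : 2 * ((j : ℝ) - i) / n ≤ (a (600000 * j)).re - (a (600000 * i)).re := by
      have h6 : (a (600000 * j)).re - (a (600000 * i)).re ≥ (600000 * (j - i) - 1) * dl n := by
        push_cast at h3 h2
        nlinarith
      have h7 : 2 * ((j : ℝ) - i) / n = 400000 * (j - i) * dl n := by
        rw [dl]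
        field_simp
        ring
      rw [h7]
      nlinarith
    refine h5.trans ?_
    rw [← Complex.sub_re]
    exact Complex.re_le_norm _
  intro i hi j hj hne
  rcases lt_or_gt_of_ne hne with h | h
  · exact key i hi j hj h
  · rw [abs_sub_comm, norm_sub_rev]
    exact key j hj i hi h

/-- the localising polynomial near the real axis -/
lemma BP_complex {n : ℕ} (hn : 1 ≤ n) {ξ : ℝ} (hξ : |ξ| ≤ 1) {a : ℂ} (ha : |a.re| ≤ 2)
    (hai : |a.im| ≤ dl n / 10) : ‖(BP n ξ).eval a‖ ≤ 2 ∧ ‖a - ξ‖ * ‖(BP n ξ).eval a‖ ≤ 4 / n := by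
  have hnr : (1 : ℝ) ≤ n := by exact_mod_cast hn
  have hd := dl_mul hn
  have hd0 := dl_pos hn
  set L : ℂ[X] := Polynomial.C (ξ : ℂ) + Polynomial.C 2 * X with hL
  have hLd : L.natDegree ≤ 1 := by
    rw [hL]
    compute_degree
  have hLe : ∀ y : ℂ, L.eval y = ξ + 2 * y := by
    intro y
    rw [hL]
    simp
  set y : ℂ := (a - ξ) / 2 with hy
  have hay : a = ξ + 2 * y := by
    rw [hy]
    ring
  have hyre : y.re = (a.re - ξ) / 2 := by
    rw [hy]
    simp
  have hyim : y.im = a.im / 2 := by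
    rw [hy]
    simp
  have h1 : |y.re| ≤ 17 / 10 := by
    rw [hyre, abs_div, abs_two]
    have := abs_sub a.re ξ
    linarith
  have h2 : (1 + 2 * |y.im|) ^ (643 * n) ≤ 2 := by
    have h3 : 1 + 2 * |y.im| ≤ Real.exp (dl n / 10) := by
      have h4 := Real.add_one_le_exp (dl n / 10)
      rw [hyim, abs_div, abs_two]
      linarith
    calc (1 + 2 * |y.im|) ^ (643 * n) ≤ (Real.exp (dl n / 10)) ^ (643 * n) := by gcongr
      _ = Real.exp (643 * n * dl n / 10) := by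
        rw [← Real.exp_nat_mul]
        congr 1
        push_cast
        ring
      _ ≤ Real.exp (1 / 2) := by
        apply Real.exp_le_exp.mpr
        nlinarith
      _ ≤ 2 := by
        have h6 : Real.exp (1 / 2) ^ 2 = Real.exp 1 := by
          rw [← Real.exp_nat_mul]
          norm_num
        by_contra hc
        push Not at hc
        have h7 : (2 : ℝ) ^ 2 < Real.exp (1 / 2) ^ 2 := by gcongr
        have h8 := Real.exp_one_lt_d9
        rw [h6] at h7
        norm_num at h7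
        linarith
  have hb1 : ∀ x : ℝ, |x| ≤ 2 → ‖((BP n ξ).comp L).eval (x : ℂ)‖ ≤ 1 := by
    intro x hx
    rw [Polynomial.eval_comp, hLe]
    have h4 : (ξ : ℂ) + 2 * x = ((ξ + 2 * x : ℝ) : ℂ) := by
      push_cast
      ring
    rw [h4]
    apply BP_le_one
    rw [add_sub_cancel_left, abs_mul, abs_two]
    linarith
  have hb2 : ∀ x : ℝ, |x| ≤ 2 → ‖(Polynomial.C 2 * X * (BP n ξ).comp L).eval (x : ℂ)‖ ≤ 4 / (2 * n + 1) := by
    intro x hx
    rw [Polynomial.eval_mul, Polynomial.eval_comp, hLe, Polynomial.eval_mul, Polynomial.eval_C,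
      Polynomial.eval_X]
    have h4 : (ξ : ℂ) + 2 * x = ((ξ + 2 * x : ℝ) : ℂ) := by
      push_cast
      ring
    have h5 : (2 : ℂ) * x = ((2 * x : ℝ) : ℂ) := by
      push_cast
      ring
    rw [h4, h5, norm_mul, Complex.norm_real, Real.norm_eq_abs]
    have h6 : |(ξ + 2 * x) - ξ| ≤ 4 := by
      rw [add_sub_cancel_left, abs_mul, abs_two]
      linarith
    have h7 := BP_decay n h6
    rw [add_sub_cancel_left] at h7
    exact h7
  have hd1 : ((BP n ξ).comp L).natDegree ≤ 643 * n := by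
    refine Polynomial.natDegree_comp_le.trans ?_
    have h3 := BP_natDegree n ξ
    calc (BP n ξ).natDegree * L.natDegree ≤ (642 * n) * 1 := Nat.mul_le_mul h3 hLd
      _ ≤ 643 * n := by omega
  have hd2 : (Polynomial.C 2 * X * (BP n ξ).comp L).natDegree ≤ 643 * n := by
    refine Polynomial.natDegree_mul_le.trans ?_
    have h4 : (Polynomial.C 2 * X : ℂ[X]).natDegree ≤ 1 := by
      refine (Polynomial.natDegree_C_mul_le _ _).trans ?_
      simp
    have h5 : ((BP n ξ).comp L).natDegree ≤ 642 * n := by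
      refine Polynomial.natDegree_comp_le.trans ?_
      have h3 := BP_natDegree n ξ
      calc (BP n ξ).natDegree * L.natDegree ≤ (642 * n) * 1 := Nat.mul_le_mul h3 hLd
        _ = 642 * n := by ring
    omega
  have g1 := growth hd1 hb1 h1
  have g2 := growth hd2 hb2 h1
  rw [Polynomial.eval_comp, hLe, ← hay] at g1
  rw [Polynomial.eval_mul, Polynomial.eval_comp, hLe, ← hay, Polynomial.eval_mul, Polynomial.eval_C,
    Polynomial.eval_X, norm_mul] at g2
  have h5 : (2 : ℂ) * y = a - ξ := by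
    rw [hy]
    ring
  rw [h5] at g2
  constructor
  · linarith
  · refine g2.trans ?_
    calc 4 / (2 * (n : ℝ) + 1) * (1 + 2 * |y.im|) ^ (643 * n) ≤ 4 / (2 * n + 1) * 2 := by gcongr
      _ ≤ 4 / n := by
        rw [div_mul_eq_mul_div, div_le_div_iff₀ (by positivity) (by positivity)]
        linarith

lemma FB_natDegree {n : ℕ} {P : ℂ[X]} (hP : P.natDegree ≤ n) (ξ : ℝ) : (P * BP n ξ).natDegree ≤ 643 * n := by
  refine Polynomial.natDegree_mul_le.trans ?_
  have := BP_natDegree n ξ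
  omega

/-- the localised maximum is controlled by the values at the nodes -/
lemma samp_sup {n : ℕ} (hn : 1 ≤ n) {P : ℂ[X]} (hP : P.natDegree ≤ n) {a : ℕ → ℂ} (ha : Nodes n a)
    {ξ : ℝ} (hξ : |ξ| ≤ 1) : ∃ M : ℝ, (∀ x : ℝ, |x| ≤ 2 → ‖(P * BP n ξ).eval (x : ℂ)‖ ≤ M) ∧
      M ^ 2 ≤ ∑ c ∈ Finset.range (NC n), ‖P.eval (a c)‖ ^ 2 *
        (4 * ‖(BP n ξ).eval (a c)‖ ^ 2 + Real.exp (-(2 * n))) := by
  have hnr : (1 : ℝ) ≤ n := by exact_mod_cast hn
  have hξ' := abs_le.mp hξ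
  have hd := dl_mul hn
  have hd0 := dl_pos hn
  have hNC := NC_dl hn
  obtain ⟨x1, hx1, hmax⟩ := (isCompact_Icc (a := (-2 : ℝ)) (b := 2)).exists_isMaxOn ⟨0, by norm_num⟩
    (f := fun x : ℝ => ‖(P * BP n ξ).eval (x : ℂ)‖) (by
      apply Continuous.continuousOn
      exact ((P * BP n ξ).continuous.comp Complex.continuous_ofReal).norm)
  have hM : ∀ x : ℝ, |x| ≤ 2 → ‖(P * BP n ξ).eval (x : ℂ)‖ ≤ ‖(P * BP n ξ).eval (x1 : ℂ)‖ := by
    intro x hx
    exact hmax (abs_le.mp hx)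
  refine ⟨‖(P * BP n ξ).eval (x1 : ℂ)‖, hM, ?_⟩
  set M := ‖(P * BP n ξ).eval (x1 : ℂ)‖ with hMdef
  have hterm : ∀ c ∈ Finset.range (NC n), 0 ≤ ‖P.eval (a c)‖ ^ 2 *
        (4 * ‖(BP n ξ).eval (a c)‖ ^ 2 + Real.exp (-(2 * n))) := fun c _ => by positivity
  by_cases hcase : |x1| ≤ 3 / 2
  · -- interior point: a node is near
    have hc' := abs_le.mp hcase
    set c := ⌊(x1 + 2) / dl n⌋₊ with hc
    have hf1 : (c : ℝ) ≤ (x1 + 2) / dl n := Nat.floor_le (div_nonneg (by linarith) hd0.le)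
    have hf2 : (x1 + 2) / dl n < c + 1 := Nat.lt_floor_add_one _
    rw [le_div_iff₀ hd0] at hf1
    rw [div_lt_iff₀ hd0] at hf2
    have hcN : c < NC n := by
      have h1 : (c : ℝ) * dl n < NC n * dl n := by linarith
      have h2 : (c : ℝ) < NC n := lt_of_mul_lt_mul_right h1 hd0.le
      exact_mod_cast h2
    obtain ⟨g1, g2, g3⟩ := ha c hcN
    have hdist' : |x1 - (a c).re| ≤ dl n := by
      rw [abs_le]
      constructor <;> nlinarith
    have hdist : ‖(x1 : ℂ) - a c‖ ≤ 11 / 10 * dl n := by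
      refine (Complex.norm_le_abs_re_add_abs_im _).trans ?_
      rw [Complex.sub_re, Complex.sub_im, Complex.ofReal_re, Complex.ofReal_im, zero_sub, abs_neg]
      linarith
    have hdl : dl n ≤ 1 / 10 := dl_le hn
    have hac : |(a c).re| ≤ 16 / 10 := by
      have := abs_sub_abs_le_abs_sub (a c).re x1
      rw [abs_sub_comm] at hdist'
      linarith
    have h643 : 1 ≤ 643 * n := by omega
    have hdl643 : dl n ≤ 1 / ((643 * n : ℕ) : ℝ) := by
      rw [dl]
      apply one_div_le_one_div_of_le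
      · push_cast
        positivity
      · push_cast
        nlinarith
    have hL := lipschitz h643 (FB_natDegree hP ξ) hM (z := (x1 : ℂ)) (w := (a c))
      (by rw [Complex.ofReal_re]; linarith) (by rw [Complex.ofReal_im, abs_zero]; positivity)
      hac (by linarith)
    have hM0 : 0 ≤ M := norm_nonneg _
    have h1 : 100 * ((643 * n : ℕ) : ℝ) * M * ‖(x1 : ℂ) - a c‖ ≤ M / 2 := by
      calc 100 * ((643 * n : ℕ) : ℝ) * M * ‖(x1 : ℂ) - a c‖ ≤
          100 * ((643 * n : ℕ) : ℝ) * M * (11 / 10 * dl n) := by gcongr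
        _ = 70730 / 200000 * M * (200000 * n * dl n) := by
          push_cast
          ring
        _ ≤ M / 2 := by
          rw [hd]
          nlinarith
    have h2 : M ≤ 2 * ‖(P * BP n ξ).eval (a c)‖ := by
      have h3 : M - ‖(P * BP n ξ).eval (a c)‖ ≤
          ‖(P * BP n ξ).eval (x1 : ℂ) - (P * BP n ξ).eval (a c)‖ := norm_sub_norm_le _ _
      linarith
    rw [Polynomial.eval_mul, norm_mul] at h2
    calc M ^ 2 ≤ (2 * (‖P.eval (a c)‖ * ‖(BP n ξ).eval (a c)‖)) ^ 2 := by gcongr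
      _ = ‖P.eval (a c)‖ ^ 2 * (4 * ‖(BP n ξ).eval (a c)‖ ^ 2) := by ring
      _ ≤ ‖P.eval (a c)‖ ^ 2 * (4 * ‖(BP n ξ).eval (a c)‖ ^ 2 + Real.exp (-(2 * n))) := by
        gcongr
        linarith [Real.exp_pos (-(2 * (n : ℝ)))]
      _ ≤ _ := Finset.single_le_sum hterm (Finset.mem_range.mpr hcN)
  · -- outer point
    push Not at hcase
    have hx1' : |x1| ≤ 2 := abs_le.mpr hx1
    have hfar : 1 / 2 ≤ |x1 - ξ| := by
      have := abs_sub_abs_le_abs_sub x1 ξ
      linarith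
    have hnear : |x1 - ξ| ≤ 4 := by
      calc |x1 - ξ| ≤ |x1| + |ξ| := abs_sub _ _
        _ ≤ 4 := by linarith
    have hne : (Finset.range (NC n)).Nonempty := by
      rw [Finset.nonempty_range_iff]
      unfold NC
      omega
    obtain ⟨c, hc, hcmax⟩ := Finset.exists_max_image (Finset.range (NC n)) (fun c => ‖P.eval (a c)‖) hne
    have h1 : ‖P.eval (x1 : ℂ)‖ ≤ Real.exp (4 * n) * ‖P.eval (a c)‖ :=
      crude hn hP ha (fun c' hc' => hcmax c' (Finset.mem_range.mpr hc')) hx1'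
    have h2 := BP_far n hnear hfar
    have h3 : M ≤ Real.exp (-n) * ‖P.eval (a c)‖ := by
      rw [hMdef, Polynomial.eval_mul, norm_mul]
      calc ‖P.eval (x1 : ℂ)‖ * ‖(BP n ξ).eval (x1 : ℂ)‖ ≤
          (Real.exp (4 * n) * ‖P.eval (a c)‖) * Real.exp (-(5 * n)) := by gcongr
        _ = (Real.exp (4 * n) * Real.exp (-(5 * n))) * ‖P.eval (a c)‖ := by ring
        _ = Real.exp (-n) * ‖P.eval (a c)‖ := by
          rw [← Real.exp_add]
          congr 2
          ring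
    have hM0 : 0 ≤ M := norm_nonneg _
    calc M ^ 2 ≤ (Real.exp (-n) * ‖P.eval (a c)‖) ^ 2 := by gcongr
      _ = ‖P.eval (a c)‖ ^ 2 * Real.exp (-(2 * n)) := by
        rw [mul_pow, ← Real.exp_nat_mul, mul_comm]
        congr 2
        push_cast
        ring
      _ ≤ ‖P.eval (a c)‖ ^ 2 * (4 * ‖(BP n ξ).eval (a c)‖ ^ 2 + Real.exp (-(2 * n))) := by
        gcongr
        have : 0 ≤ 4 * ‖(BP n ξ).eval (a c)‖ ^ 2 := by positivity
        linarith
      _ ≤ _ := Finset.single_le_sum hterm hc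

/-- the local values and variation are controlled by the localised maximum -/
lemma local_lip {n : ℕ} (hn : 1 ≤ n) {P : ℂ[X]} (hP : P.natDegree ≤ n) {ξ : ℝ} (hξ : |ξ| ≤ 1) {M : ℝ}
    (hM : ∀ x : ℝ, |x| ≤ 2 → ‖(P * BP n ξ).eval (x : ℂ)‖ ≤ M) {z : ℂ} (hz : z.re = ξ) (hs : |z.im| ≤ dl n) :
    ‖P.eval (ξ : ℂ)‖ ≤ M ∧ ‖P.eval z - P.eval (ξ : ℂ)‖ ≤ 300000 * n * |z.im| * M := by
  have hnr : (1 : ℝ) ≤ n := by exact_mod_cast hn
  have hd := dl_mul hn
  have hd0 := dl_pos hn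
  have hξ2 : |ξ| ≤ 2 := by linarith
  have hPξ : (P * BP n ξ).eval (ξ : ℂ) = P.eval (ξ : ℂ) := by
    rw [Polynomial.eval_mul, BP_self, mul_one]
  have h1 : ‖P.eval (ξ : ℂ)‖ ≤ M := by
    rw [← hPξ]
    exact hM ξ hξ2
  have hM0 : 0 ≤ M := (norm_nonneg _).trans h1
  refine ⟨h1, ?_⟩
  have hdl643 : dl n ≤ 1 / ((643 * n : ℕ) : ℝ) := by
    rw [dl]
    apply one_div_le_one_div_of_le
    · push_cast
      positivity
    · push_cast
      nlinarith
  have hdl642 : dl n ≤ 1 / ((642 * n : ℕ) : ℝ) := by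
    rw [dl]
    apply one_div_le_one_div_of_le
    · push_cast
      positivity
    · push_cast
      nlinarith
  have hzξ : ‖z - (ξ : ℂ)‖ = |z.im| := by
    have : z - (ξ : ℂ) = z.im * I := by
      apply Complex.ext
      · simp [hz]
      · simp
    rw [this, norm_mul, Complex.norm_I, mul_one, Complex.norm_real, Real.norm_eq_abs]
  have hF := lipschitz (show 1 ≤ 643 * n by omega) (FB_natDegree hP ξ) hM (z := z) (w := (ξ : ℂ))
    (by rw [hz]; linarith) (hs.trans hdl643) (by rw [Complex.ofReal_re]; linarith)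
    (by rw [Complex.ofReal_im, abs_zero]; positivity)
  have hB1 : ∀ x : ℝ, |x| ≤ 2 → ‖(BP n ξ).eval (x : ℂ)‖ ≤ 1 := by
    intro x hx
    apply BP_le_one
    calc |x - ξ| ≤ |x| + |ξ| := abs_sub _ _
      _ ≤ 4 := by linarith
  have hB := lipschitz (show 1 ≤ 642 * n by omega) (BP_natDegree n ξ) hB1 (z := z) (w := (ξ : ℂ))
    (by rw [hz]; linarith) (hs.trans hdl642) (by rw [Complex.ofReal_re]; linarith)
    (by rw [Complex.ofReal_im, abs_zero]; positivity)
  rw [BP_self] at hB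
  rw [hPξ] at hF
  rw [hzξ] at hF hB
  have hs0 := abs_nonneg z.im
  have hns : (n : ℝ) * |z.im| ≤ 1 / 200000 := by
    calc (n : ℝ) * |z.im| ≤ n * dl n := by gcongr
      _ = 1 / 200000 := by
        rw [dl]
        field_simp
  have hBz : 1 / 2 ≤ ‖(BP n ξ).eval z‖ := by
    have h2 : ‖(1 : ℂ)‖ - ‖(BP n ξ).eval z‖ ≤ ‖1 - (BP n ξ).eval z‖ := norm_sub_norm_le _ _
    rw [norm_one, norm_sub_rev] at h2
    push_cast at hB
    nlinarith
  have hid : (P.eval z - P.eval (ξ : ℂ)) * (BP n ξ).eval z =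
      ((P * BP n ξ).eval z - P.eval (ξ : ℂ)) - P.eval (ξ : ℂ) * ((BP n ξ).eval z - 1) := by
    rw [Polynomial.eval_mul]
    ring
  have h2 : ‖P.eval z - P.eval (ξ : ℂ)‖ * ‖(BP n ξ).eval z‖ ≤ 128500 * n * |z.im| * M := by
    rw [← norm_mul, hid]
    calc ‖((P * BP n ξ).eval z - P.eval (ξ : ℂ)) - P.eval (ξ : ℂ) * ((BP n ξ).eval z - 1)‖ ≤
        ‖(P * BP n ξ).eval z - P.eval (ξ : ℂ)‖ + ‖P.eval (ξ : ℂ) * ((BP n ξ).eval z - 1)‖ := norm_sub_le _ _
      _ ≤ 100 * ((643 * n : ℕ) : ℝ) * M * |z.im| + M * (100 * ((642 * n : ℕ) : ℝ) * 1 * |z.im|) := by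
        rw [norm_mul]
        gcongr
      _ = 128500 * n * |z.im| * M := by
        push_cast
        ring
  have h3 : ‖P.eval z - P.eval (ξ : ℂ)‖ * (1 / 2) ≤ ‖P.eval z - P.eval (ξ : ℂ)‖ * ‖(BP n ξ).eval z‖ := by
    gcongr
  have h4 : 0 ≤ (n : ℝ) * |z.im| * M := by positivity
  nlinarith

/-- the kernel -/
noncomputable def ker (n : ℕ) (c0 c : ℕ) : ℝ :=
  8 * 1600000 ^ 2 / (1 + ((c : ℝ) - c0) ^ 2) + Real.exp (-(2 * n))

lemma ker_nonneg (n c0 c : ℕ) : 0 ≤ ker n c0 c := by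
  unfold ker
  positivity

lemma BP_ker {n : ℕ} (hn : 1 ≤ n) {a : ℕ → ℂ} (ha : Nodes n a) {c0 c : ℕ} (hc : c < NC n)
    {ξ : ℝ} (hξ : |ξ| ≤ 1) (h1 : -2 + c0 * dl n ≤ ξ) (h2 : ξ ≤ -2 + (c0 + 1) * dl n) :
    4 * ‖(BP n ξ).eval (a c)‖ ^ 2 + Real.exp (-(2 * n)) ≤ ker n c0 c := by
  have hnr : (1 : ℝ) ≤ n := by exact_mod_cast hn
  have hd := dl_mul hn
  have hd0 := dl_pos hn
  have hac := ha.abs_le hn hc
  obtain ⟨g1, g2, g3⟩ := ha c hc
  obtain ⟨hb1, h5⟩ := BP_complex hn hξ hac g3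
  unfold ker
  gcongr
  set b := ‖(BP n ξ).eval (a c)‖ with hb
  have hb0 : 0 ≤ b := norm_nonneg _
  rw [le_div_iff₀ (by positivity)]
  set d := |(c : ℝ) - c0| with hdd
  have hd0' : 0 ≤ d := abs_nonneg _
  have hsq : ((c : ℝ) - c0) ^ 2 = d ^ 2 := by rw [hdd, sq_abs]
  rw [hsq]
  have hdist : (d - 1) * dl n ≤ ‖a c - ξ‖ := by
    have h6 : |(a c).re - ξ| ≤ ‖a c - ξ‖ := by
      have := Complex.abs_re_le_norm (a c - ξ)
      rwa [Complex.sub_re, Complex.ofReal_re] at this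
    refine le_trans ?_ h6
    rcases abs_cases ((c : ℝ) - c0) with ⟨h7, _⟩ | ⟨h7, _⟩
    · rw [hdd, h7]
      refine le_trans ?_ (le_abs_self _)
      nlinarith
    · rw [hdd, h7]
      refine le_trans ?_ (neg_le_abs _)
      nlinarith
  have hbb : b ^ 2 ≤ 4 := by nlinarith
  by_cases hd2 : d ≤ 2
  · have : d ^ 2 ≤ 4 := by nlinarith
    nlinarith [sq_nonneg d, sq_nonneg b]
  · push Not at hd2
    have h7 : (d - 1) * dl n * b ≤ 4 / n := le_trans (by gcongr) h5
    have h8 : (d - 1) * b ≤ 800000 := by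
      rw [dl, le_div_iff₀ (by positivity)] at h7
      have : (d - 1) * (1 / (200000 * (n : ℝ))) * b * n = (d - 1) * b / 200000 := by
        field_simp
      rw [this] at h7
      linarith
    have h9 : d * b ≤ 1600000 := by
      have : d * b ≤ 2 * ((d - 1) * b) := by nlinarith
      linarith
    have h10 : (d * b) ^ 2 ≤ 1600000 ^ 2 := by gcongr
    nlinarith

lemma inv_sq_sum (N : ℕ) : ∑ d ∈ Finset.range N, 1 / (1 + (d : ℝ) ^ 2) ≤ 4 - 4 / ((N : ℝ) + 1) := by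
  induction N with
  | zero => norm_num
  | succ N ih =>
    rw [Finset.sum_range_succ]
    push_cast
    have h1 : 1 / (1 + (N : ℝ) ^ 2) ≤ 4 / ((N : ℝ) + 1) - 4 / ((N : ℝ) + 1 + 1) := by
      have hN : (0 : ℝ) ≤ N := Nat.cast_nonneg N
      rw [div_sub_div _ _ (by positivity) (by positivity), div_le_div_iff₀ (by positivity) (by positivity)]
      nlinarith [sq_nonneg ((N : ℝ) - 1)]
    linarith

lemma inv_sq_sum' (N : ℕ) : ∑ d ∈ Finset.range N, 1 / (1 + (d : ℝ) ^ 2) ≤ 4 := by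
  have h := inv_sq_sum N
  have : 0 ≤ 4 / ((N : ℝ) + 1) := by positivity
  linarith

lemma inv_sq_sum2 (N c : ℕ) : ∑ c0 ∈ Finset.range N, 1 / (1 + ((c : ℝ) - c0) ^ 2) ≤ 8 := by
  classical
  rw [← Finset.sum_filter_add_sum_filter_not (Finset.range N) (fun c0 => c0 ≤ c)]
  have h1 : ∑ c0 ∈ (Finset.range N).filter (fun c0 => c0 ≤ c), 1 / (1 + ((c : ℝ) - c0) ^ 2) ≤ 4 := by
    refine le_trans ?_ (inv_sq_sum' (c + 1))
    have h2 : ∑ c0 ∈ (Finset.range N).filter (fun c0 => c0 ≤ c), 1 / (1 + ((c : ℝ) - c0) ^ 2) =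
        ∑ d ∈ ((Finset.range N).filter (fun c0 => c0 ≤ c)).image (fun c0 => c - c0), 1 / (1 + (d : ℝ) ^ 2) := by
      rw [Finset.sum_image]
      · refine Finset.sum_congr rfl fun c0 hc0 => ?_
        rw [Finset.mem_filter] at hc0
        rw [Nat.cast_sub hc0.2]
      · intro x hx y hy hxy
        simp only [Finset.coe_filter, Finset.mem_range, Set.mem_ofPred_eq] at hx hy
        simp only at hxy
        omega
    rw [h2]
    apply Finset.sum_le_sum_of_subset_of_nonneg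
    · intro d hd
      rw [Finset.mem_image] at hd
      obtain ⟨c0, hc0, rfl⟩ := hd
      rw [Finset.mem_range]
      omega
    · intro i _ _
      positivity
  have h3 : ∑ c0 ∈ (Finset.range N).filter (fun c0 => ¬ c0 ≤ c), 1 / (1 + ((c : ℝ) - c0) ^ 2) ≤ 4 := by
    refine le_trans ?_ (inv_sq_sum' N)
    have h2 : ∑ c0 ∈ (Finset.range N).filter (fun c0 => ¬ c0 ≤ c), 1 / (1 + ((c : ℝ) - c0) ^ 2) =
        ∑ d ∈ ((Finset.range N).filter (fun c0 => ¬ c0 ≤ c)).image (fun c0 => c0 - c), 1 / (1 + (d : ℝ) ^ 2) := by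
      rw [Finset.sum_image]
      · refine Finset.sum_congr rfl fun c0 hc0 => ?_
        rw [Finset.mem_filter, not_le] at hc0
        rw [Nat.cast_sub hc0.2.le]
        congr 2
        ring
      · intro x hx y hy hxy
        simp only [Finset.coe_filter, Finset.mem_range, Set.mem_ofPred_eq] at hx hy
        simp only at hxy
        omega
    rw [h2]
    apply Finset.sum_le_sum_of_subset_of_nonneg
    · intro d hd
      rw [Finset.mem_image] at hd
      obtain ⟨c0, hc0, rfl⟩ := hd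
      rw [Finset.mem_filter, Finset.mem_range] at hc0
      rw [Finset.mem_range]
      omega
    · intro i _ _
      positivity
  linarith

/-- sums of the kernel -/
lemma ker_sum (n c : ℕ) : ∑ c0 ∈ Finset.range (NC n), ker n c0 c ≤ 64 * 1600000 ^ 2 + 800000 := by
  unfold ker
  rw [Finset.sum_add_distrib]
  have h1 : ∑ c0 ∈ Finset.range (NC n), 8 * 1600000 ^ 2 / (1 + ((c : ℝ) - c0) ^ 2) ≤ 64 * 1600000 ^ 2 := by
    have h2 := inv_sq_sum2 (NC n) c
    have h3 : ∑ c0 ∈ Finset.range (NC n), 8 * 1600000 ^ 2 / (1 + ((c : ℝ) - c0) ^ 2) =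
        8 * 1600000 ^ 2 * ∑ c0 ∈ Finset.range (NC n), 1 / (1 + ((c : ℝ) - c0) ^ 2) := by
      rw [Finset.mul_sum]
      refine Finset.sum_congr rfl fun c0 _ => ?_
      ring
    rw [h3]
    nlinarith
  have h4 : ∑ c0 ∈ Finset.range (NC n), Real.exp (-(2 * (n : ℝ))) ≤ 800000 := by
    rw [Finset.sum_const, Finset.card_range, nsmul_eq_mul]
    unfold NC
    push_cast
    have h5 : (n : ℝ) * Real.exp (-(2 * (n : ℝ))) ≤ 1 := by
      rw [Real.exp_neg, ← div_eq_mul_inv, div_le_one (Real.exp_pos _)]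
      have h6 := Real.add_one_le_exp (2 * (n : ℝ))
      have h7 : (0 : ℝ) ≤ n := Nat.cast_nonneg n
      linarith
    nlinarith
  linarith

/-- **Local sampling inequality.** -/
lemma sampling {n : ℕ} (hn : 1 ≤ n) {P : ℂ[X]} (hP : P.natDegree ≤ n) {a : ℕ → ℂ} (ha : Nodes n a)
    {c0 : ℕ} {z : ℂ} (hξ : |z.re| ≤ 1) (h1 : -2 + c0 * dl n ≤ z.re) (h2 : z.re ≤ -2 + (c0 + 1) * dl n)
    (hs : |z.im| ≤ dl n) :
    ∃ M : ℝ, 0 ≤ M ∧ M ^ 2 ≤ ∑ c ∈ Finset.range (NC n), ker n c0 c * ‖P.eval (a c)‖ ^ 2 ∧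
      ‖P.eval (z.re : ℂ)‖ ≤ M ∧ ‖P.eval z - P.eval (z.re : ℂ)‖ ≤ 300000 * n * |z.im| * M ∧
      ‖P.eval (conj z) - P.eval (z.re : ℂ)‖ ≤ 300000 * n * |z.im| * M := by
  obtain ⟨M, hM, hM2⟩ := samp_sup hn hP ha hξ
  obtain ⟨h3, h4⟩ := local_lip hn hP hξ hM rfl hs
  obtain ⟨-, h5⟩ := local_lip hn hP hξ hM (z := conj z) (Complex.conj_re z)
    (by rw [Complex.conj_im, abs_neg]; exact hs)
  rw [Complex.conj_im, abs_neg] at h5
  refine ⟨M, (norm_nonneg _).trans h3, ?_, h3, h4, h5⟩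
  refine hM2.trans (Finset.sum_le_sum fun c hc => ?_)
  rw [mul_comm]
  gcongr
  exact BP_ker hn ha (Finset.mem_range.mp hc) hξ h1 h2

end Pool.Agent.Helper76.LW
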