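import Pool.Agent.Helper76.LW.Zeta
import Pool.Agent.Helper76.LW.Conv
import Pool.Graph.R_seed8.H965R2.SI.CountShort

set_option autoImplicit false

/-!
# The number of zeros of zeta in short intervals, from below
-/

namespace Pool.Agent.Helper76.LW

open Complex Filter Topology
open scoped ComplexConjugate
open Pool.Agent.V11271.LI

/-- lower bound for the number of zeros in short intervals -/
theorem lbc_zeta : LBc zz mm := by
  obtain ⟨C, hC, h⟩ := H965SI.nn_asymp_short H370.good_zeta
  have hpi := Real.pi_pos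
  refine ⟨1 / (4 * Real.pi), max 3 (8 * Real.pi * C), max 10 (Real.exp (8 * Real.pi * C)), by positivity,
    le_trans (by norm_num) (le_max_left _ _), le_trans (by norm_num) (le_max_left _ _), ?_⟩
  intro T hT L hL1 hL2
  have hT10 : 10 ≤ T := (le_max_left _ _).trans hT
  have hTe : 8 * Real.pi * C ≤ Real.log T := by
    rw [Real.le_log_iff_exp_le (by linarith)]
    exact (le_max_right _ _).trans hT
  have hlog : 1 ≤ Real.log T := by
    rw [Real.le_log_iff_exp_le (by linarith)]
    linarith [Real.exp_one_lt_d9]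
  have hL3 : 3 ≤ L := by
    have h1 : 3 * Real.log T ≤ max 3 (8 * Real.pi * C) * Real.log T := by
      gcongr
      exact le_max_left _ _
    linarith
  have h3 := h T hT10 L hL3 hL2 T (T + L) le_rfl (by linarith) (by linarith) le_rfl
  have h4 := (abs_le.mp h3).1
  have h5 : 1 / (4 * Real.pi) * L * Real.log T ≤ (H370.NN riemannZeta T (T + L) : ℝ) := by
    have e1 : C * Real.log T ^ 2 ≤ L * Real.log T / (8 * Real.pi) := by
      rw [le_div_iff₀ (by positivity)]
      have h6 : 8 * Real.pi * C * Real.log T ≤ L := by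
        refine le_trans ?_ hL1
        gcongr
        exact le_max_right _ _
      calc C * Real.log T ^ 2 * (8 * Real.pi) = (8 * Real.pi * C * Real.log T) * Real.log T := by ring
        _ ≤ L * Real.log T := by gcongr
    have e2 : C * L ≤ L * Real.log T / (8 * Real.pi) := by
      rw [le_div_iff₀ (by positivity)]
      calc C * L * (8 * Real.pi) = L * (8 * Real.pi * C) := by ring
        _ ≤ L * Real.log T := by gcongr
    have e3 : L * Real.log T / (2 * Real.pi) - L * Real.log T / (8 * Real.pi) - L * Real.log T / (8 * Real.pi) =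
        1 / (4 * Real.pi) * L * Real.log T := by
      field_simp
      ring
    linarith
  have hfin := H370.zset_finite H370.good_zeta T (T + L) (by linarith)
  classical
  have hinj : Set.InjOn (fun ρ : Zr => (ρ : ℂ)) ((fun ρ : Zr => (ρ : ℂ)) ⁻¹' (H370.zset riemannZeta T (T + L))) :=
    fun a _ b _ hab => Subtype.ext hab
  obtain ⟨S, hSdef⟩ : ∃ S : Finset Zr, S = (hfin.preimage hinj).toFinset := ⟨_, rfl⟩
  have hmem : ∀ ρ : Zr, ρ ∈ S ↔ (ρ : ℂ) ∈ H370.zset riemannZeta T (T + L) := by
    intro ρ
    rw [hSdef]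
    simp
  refine ⟨S, fun ρ hρ => ?_, ?_⟩
  · rw [hmem] at hρ
    obtain ⟨_, _, g1, g2, _⟩ := hρ
    rw [zz_im]
    exact ⟨g1.le, g2⟩
  · refine h5.trans (le_of_eq ?_)
    rw [H370.NN_eq_sum H370.good_zeta T (T + L) (by linarith)]
    push_cast
    symm
    apply Finset.sum_bij (fun (ρ : Zr) _ => (ρ : ℂ))
    · intro ρ hρ
      rw [Set.Finite.mem_toFinset]
      exact (hmem ρ).mp hρ
    · intro a _ b _ hab
      exact Subtype.ext hab
    · intro s hs
      rw [Set.Finite.mem_toFinset] at hs
      exact ⟨⟨s, hs.2.2.2.2, hs.1, hs.2.1⟩, (hmem _).mpr hs, rfl⟩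
    · intro ρ _
      rfl

end Pool.Agent.Helper76.LW
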